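import Pool.Agent.Lib_helper19.KdV.GN3

/-!
Quantitative continuity of the functionals `∫ φ g²`, `∫ φ g⁴`, `∫ φ g⁶`.
-/

namespace Pool.Agent.Lib_helper19.KdV

open MeasureTheory Set Filter Topology

section
variable {g h φ : ℝ → ℝ} {B K δ : ℝ}

lemma integrable_pow_bdd (hg : MemLp g 2 volume) (hK : ∀ x, |g x| ≤ K)
    (hφ : AEStronglyMeasurable φ volume) (hB : ∀ x, |φ x| ≤ B) (k : ℕ) :
    Integrable (fun x => φ x * g x ^ (2 + k)) := by
  have h2 : Integrable (fun x => g x ^ 2) := hg.integrable_sq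
  refine Integrable.mono' (h2.const_mul (B * K ^ k)) (hφ.mul (hg.1.pow _)) ?_
  filter_upwards with x
  rw [Real.norm_eq_abs, abs_mul, abs_pow, pow_add, sq_abs]
  have h1 := hB x
  have h3 : |g x| ^ k ≤ K ^ k := pow_le_pow_left₀ (abs_nonneg _) (hK x) k
  have h4 : 0 ≤ B := (abs_nonneg _).trans h1
  calc |φ x| * (g x ^ 2 * |g x| ^ k) ≤ B * (g x ^ 2 * K ^ k) :=
        mul_le_mul h1 (mul_le_mul_of_nonneg_left h3 (sq_nonneg _)) (by positivity) h4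
    _ = B * K ^ k * g x ^ 2 := by ring

lemma integrable_sq_bdd (hg : MemLp g 2 volume)
    (hφ : AEStronglyMeasurable φ volume) (hB : ∀ x, |φ x| ≤ B) :
    Integrable (fun x => φ x * g x ^ 2) := by
  have h2 : Integrable (fun x => g x ^ 2) := hg.integrable_sq
  refine Integrable.mono' (h2.const_mul B) (hφ.mul (hg.1.pow _)) ?_
  filter_upwards with x
  rw [Real.norm_eq_abs, abs_mul, abs_pow, sq_abs]
  exact mul_le_mul_of_nonneg_right (hB x) (sq_nonneg _)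

lemma abs_sq_sub_le (hδ : 0 < δ) (a b : ℝ) :
    |a ^ 2 - b ^ 2| ≤ (1 + 1 / δ) * (a - b) ^ 2 + δ * b ^ 2 := by
  have e : a ^ 2 - b ^ 2 = (a - b) ^ 2 + 2 * ((a - b) * b) := by ring
  have h1 : |2 * ((a - b) * b)| ≤ 1 / δ * (a - b) ^ 2 + δ * b ^ 2 := by
    have h2 : 0 ≤ (|a - b| - δ * |b|) ^ 2 / δ := by positivity
    have h3 : (|a - b| - δ * |b|) ^ 2 / δ = 1 / δ * (a - b) ^ 2 + δ * b ^ 2 -
        2 * (|a - b| * |b|) := by
      rw [← sq_abs (a - b), ← sq_abs b]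
      field_simp
      ring
    rw [abs_mul, abs_mul, abs_two]
    linarith
  rw [e]
  calc |(a - b) ^ 2 + 2 * ((a - b) * b)| ≤ |(a - b) ^ 2| + |2 * ((a - b) * b)| := abs_add_le _ _
    _ ≤ (a - b) ^ 2 + (1 / δ * (a - b) ^ 2 + δ * b ^ 2) := by
        rw [abs_of_nonneg (sq_nonneg (a - b))]; linarith
    _ = _ := by ring

/-- the error -/
noncomputable def err (δ : ℝ) (g h : ℝ → ℝ) : ℝ :=
  (1 + 1 / δ) * (∫ x, (g x - h x) ^ 2) + δ * ∫ x, h x ^ 2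

lemma close_aux (hg : MemLp g 2 volume) (hh : MemLp h 2 volume) (hδ : 0 < δ)
    (hφ : AEStronglyMeasurable φ volume) {P Q : ℝ → ℝ} {L : ℝ} (hL : 0 ≤ L)
    (hP : Integrable (fun x => φ x * P x)) (hQ : Integrable (fun x => φ x * Q x))
    (hB0 : 0 ≤ B) (hB : ∀ x, |φ x| ≤ B)
    (hd : ∀ x, |P x - Q x| ≤ L * |g x ^ 2 - h x ^ 2|) :
    |(∫ x, φ x * P x) - ∫ x, φ x * Q x| ≤ B * L * err δ g h := by
  have i1 : Integrable (fun x => (g x - h x) ^ 2) := (hg.sub hh).integrable_sq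
  have i2 : Integrable (fun x => h x ^ 2) := hh.integrable_sq
  rw [← integral_sub hP hQ]
  have i3 : Integrable (fun x => B * L * ((1 + 1 / δ) * (g x - h x) ^ 2 + δ * h x ^ 2)) :=
    ((i1.const_mul _).add (i2.const_mul _)).const_mul _
  have e : ∫ x, B * L * ((1 + 1 / δ) * (g x - h x) ^ 2 + δ * h x ^ 2) = B * L * err δ g h := by
    rw [integral_const_mul, integral_add (i1.const_mul _) (i2.const_mul _), integral_const_mul,
      integral_const_mul, err]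
  rw [← e, ← Real.norm_eq_abs]
  refine norm_integral_le_of_norm_le i3 ?_
  filter_upwards with x
  rw [Real.norm_eq_abs, ← mul_sub, abs_mul]
  calc |φ x| * |P x - Q x| ≤ B * (L * |g x ^ 2 - h x ^ 2|) :=
        mul_le_mul (hB x) (hd x) (abs_nonneg _) hB0
    _ ≤ B * (L * ((1 + 1 / δ) * (g x - h x) ^ 2 + δ * h x ^ 2)) := by
        gcongr
        exact abs_sq_sub_le hδ _ _
    _ = _ := by ring

lemma close_sq (hg : MemLp g 2 volume) (hh : MemLp h 2 volume) (hδ : 0 < δ)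
    (hφ : AEStronglyMeasurable φ volume) (hB : ∀ x, |φ x| ≤ B) :
    |(∫ x, φ x * g x ^ 2) - ∫ x, φ x * h x ^ 2| ≤ B * err δ g h := by
  have hB0 : 0 ≤ B := (abs_nonneg _).trans (hB 0)
  have := close_aux (L := 1) hg hh hδ hφ zero_le_one (integrable_sq_bdd hg hφ hB)
    (integrable_sq_bdd hh hφ hB) hB0 hB (fun x => by rw [one_mul])
  rwa [mul_one] at this

lemma close_four (hg : MemLp g 2 volume) (hh : MemLp h 2 volume) (hδ : 0 < δ)
    (hφ : AEStronglyMeasurable φ volume) (hB : ∀ x, |φ x| ≤ B)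
    (hgK : ∀ x, |g x| ≤ K) (hhK : ∀ x, |h x| ≤ K) :
    |(∫ x, φ x * g x ^ 4) - ∫ x, φ x * h x ^ 4| ≤ B * (2 * K ^ 2) * err δ g h := by
  have hB0 : 0 ≤ B := (abs_nonneg _).trans (hB 0)
  refine close_aux (L := 2 * K ^ 2) hg hh hδ hφ (by positivity)
    (integrable_pow_bdd hg hgK hφ hB 2)
    (integrable_pow_bdd hh hhK hφ hB 2) hB0 hB (fun x => ?_)
  have e : g x ^ 4 - h x ^ 4 = (g x ^ 2 + h x ^ 2) * (g x ^ 2 - h x ^ 2) := by ring
  rw [e, abs_mul]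
  refine mul_le_mul_of_nonneg_right ?_ (abs_nonneg _)
  rw [abs_of_nonneg (by positivity)]
  have h1 : g x ^ 2 ≤ K ^ 2 := sq_le_sq' (by linarith [(abs_le.1 (hgK x)).1])
    (abs_le.1 (hgK x)).2
  have h2 : h x ^ 2 ≤ K ^ 2 := sq_le_sq' (by linarith [(abs_le.1 (hhK x)).1])
    (abs_le.1 (hhK x)).2
  linarith

lemma close_six (hg : MemLp g 2 volume) (hh : MemLp h 2 volume) (hδ : 0 < δ)
    (hφ : AEStronglyMeasurable φ volume) (hB : ∀ x, |φ x| ≤ B)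
    (hgK : ∀ x, |g x| ≤ K) (hhK : ∀ x, |h x| ≤ K) :
    |(∫ x, φ x * g x ^ 6) - ∫ x, φ x * h x ^ 6| ≤ B * (3 * K ^ 4) * err δ g h := by
  have hB0 : 0 ≤ B := (abs_nonneg _).trans (hB 0)
  refine close_aux (L := 3 * K ^ 4) hg hh hδ hφ (by positivity)
    (integrable_pow_bdd hg hgK hφ hB 4)
    (integrable_pow_bdd hh hhK hφ hB 4) hB0 hB (fun x => ?_)
  have e : g x ^ 6 - h x ^ 6 = (g x ^ 4 + g x ^ 2 * h x ^ 2 + h x ^ 4) * (g x ^ 2 - h x ^ 2) := by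
    ring
  rw [e, abs_mul]
  refine mul_le_mul_of_nonneg_right ?_ (abs_nonneg _)
  rw [abs_of_nonneg (by positivity)]
  have h1 : g x ^ 2 ≤ K ^ 2 := sq_le_sq' (by linarith [(abs_le.1 (hgK x)).1])
    (abs_le.1 (hgK x)).2
  have h2 : h x ^ 2 ≤ K ^ 2 := sq_le_sq' (by linarith [(abs_le.1 (hhK x)).1])
    (abs_le.1 (hhK x)).2
  have h3 : g x ^ 2 * g x ^ 2 ≤ K ^ 2 * K ^ 2 := mul_le_mul h1 h1 (sq_nonneg _) (sq_nonneg _)
  have h4 : g x ^ 2 * h x ^ 2 ≤ K ^ 2 * K ^ 2 := mul_le_mul h1 h2 (sq_nonneg _) (sq_nonneg _)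
  have h5 : h x ^ 2 * h x ^ 2 ≤ K ^ 2 * K ^ 2 := mul_le_mul h2 h2 (sq_nonneg _) (sq_nonneg _)
  nlinarith

end

/-- For every target precision there are `δ` and `ε₀` which make `err` small. -/
lemma exists_err {H τ : ℝ} (hH : 0 ≤ H) (hτ : 0 < τ) : ∃ δ > 0, ∃ ε₀ > 0, ∀ g h : ℝ → ℝ,
    (∫ x, (g x - h x) ^ 2) ≤ ε₀ → (∫ x, h x ^ 2) ≤ H → err δ g h ≤ τ := by
  refine ⟨τ / (2 * (H + 1)), by positivity, τ / (2 * (1 + 1 / (τ / (2 * (H + 1))))),
    by positivity, fun g h h1 h2 => ?_⟩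
  set δ := τ / (2 * (H + 1)) with hδ
  have hδ0 : 0 < δ := by positivity
  have h3 : (1 + 1 / δ) * (∫ x, (g x - h x) ^ 2) ≤ τ / 2 := by
    calc (1 + 1 / δ) * (∫ x, (g x - h x) ^ 2) ≤ (1 + 1 / δ) * (τ / (2 * (1 + 1 / δ))) := by
          gcongr
      _ = τ / 2 := by
          have : 0 < 1 + 1 / δ := by positivity
          field_simp
  have h4 : δ * (∫ x, h x ^ 2) ≤ τ / 2 := by
    calc δ * (∫ x, h x ^ 2) ≤ δ * H := by gcongr
      _ ≤ δ * (H + 1) := by nlinarith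
      _ = τ / 2 := by rw [hδ]; field_simp
  rw [err]
  linarith

end Pool.Agent.Lib_helper19.KdV
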