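import Pool.Agent.Lib_helper19.KdV.GN4

/-!
Bubbles of solutions with mass less than twice the mass of the ground state: existence at the
natural scale, lower bound of the mass flux, almost monotonicity of the position.
-/

namespace Pool.Agent.Lib_helper19.KdV

open MeasureTheory Set Filter Topology

lemma pow_small {T p e : ℝ} (hp : 0 < p) (he : 0 < e) : ∀ᶠ t in 𝓝[<] T, (T - t) ^ p < e := by
  have h1 : Tendsto (fun t => T - t) (𝓝[<] T) (𝓝 0) :=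
    tendsto_sub_nhdsGT.mono_right nhdsWithin_le_nhds
  have h2 := h1.rpow_const (p := p) (Or.inr hp.le)
  rw [Real.zero_rpow hp.ne'] at h2
  exact h2.eventually_lt_const he

lemma mvt_le' {F g F' g' : ℝ → ℝ} {s t : ℝ} (hst : s ≤ t)
    (hF : ∀ x ∈ Icc s t, HasDerivAt F (F' x) x) (hg : ∀ x ∈ Icc s t, HasDerivAt g (g' x) x)
    (h : ∀ x ∈ Ioo s t, g' x ≤ F' x) : g t - g s ≤ F t - F s := by
  have hm : MonotoneOn (fun x => F x - g x) (Icc s t) := by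
    refine monotoneOn_of_deriv_nonneg (convex_Icc s t)
      (fun x hx => ((hF x hx).sub (hg x hx)).continuousAt.continuousWithinAt)
      (fun x hx => ?_) (fun x hx => ?_)
    · rw [interior_Icc] at hx
      have hx' : x ∈ Icc s t := ⟨hx.1.le, hx.2.le⟩
      exact ((hF x hx').sub (hg x hx')).differentiableAt.differentiableWithinAt
    · rw [interior_Icc] at hx
      have hx' : x ∈ Icc s t := ⟨hx.1.le, hx.2.le⟩
      have := ((hF x hx').sub (hg x hx')).deriv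
      have e : (fun x => F x - g x) = F - g := rfl
      rw [e, this]
      linarith [h x hx]
  have := hm ⟨le_refl _, hst⟩ ⟨hst, le_refl _⟩ hst
  simp only at this
  linarith

/-- a function can drop from `α₁` to `α₂` only at the speed it has between these values -/
lemma drop {F F' : ℝ → ℝ} {s₁ s₂ α₁ α₂ D : ℝ} (h12 : s₁ ≤ s₂)
    (hF : ∀ x ∈ Icc s₁ s₂, HasDerivAt F (F' x) x) (h1 : α₁ ≤ F s₁) (h2 : F s₂ ≤ α₂)
    (hα : α₂ < α₁) (hD : 0 ≤ D)
    (hd : ∀ x ∈ Icc s₁ s₂, α₂ < F x → F x < α₁ → -D ≤ F' x) : α₁ - α₂ ≤ D * (s₂ - s₁) := by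
  have hFc : ContinuousOn F (Icc s₁ s₂) := fun x hx => (hF x hx).continuousAt.continuousWithinAt
  -- last time above `α₁`
  have c1 : IsCompact (Icc s₁ s₂ ∩ F ⁻¹' (Ici α₁)) :=
    isCompact_Icc.of_isClosed_subset
      (hFc.preimage_isClosed_of_isClosed isClosed_Icc isClosed_Ici) inter_subset_left
  obtain ⟨p, hp, hpmax⟩ := c1.exists_isGreatest ⟨s₁, ⟨le_refl _, h12⟩, h1⟩
  have hFp : ContinuousOn F (Icc p s₂) := hFc.mono (Icc_subset_Icc hp.1.1 (le_refl _))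
  have c2 : IsCompact (Icc p s₂ ∩ F ⁻¹' (Iic α₂)) :=
    isCompact_Icc.of_isClosed_subset
      (hFp.preimage_isClosed_of_isClosed isClosed_Icc isClosed_Iic) inter_subset_left
  obtain ⟨q, hq, hqmin⟩ := c2.exists_isLeast ⟨s₂, ⟨hp.1.2, le_refl _⟩, h2⟩
  have hpq : p ≤ q := hq.1.1
  have hsub : ∀ x ∈ Icc p q, x ∈ Icc s₁ s₂ := fun x hx =>
    ⟨hp.1.1.trans hx.1, hx.2.trans hq.1.2⟩
  have key := mvt_le' (F := F) (g := fun x => -D * x) (F' := F') (g' := fun _ => -D) hpq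
    (fun x hx => hF x (hsub x hx))
    (fun x hx => by simpa using (hasDerivAt_id x).const_mul (-D))
    (fun x hx => by
      have hx' := hsub x ⟨hx.1.le, hx.2.le⟩
      refine hd x hx' ?_ ?_
      · by_contra hle
        push Not at hle
        have := hqmin ⟨⟨hx.1.le, hx'.2⟩, hle⟩
        linarith [hx.2]
      · by_contra hle
        push Not at hle
        have := hpmax ⟨hx', hle⟩
        linarith [hx.1])
  have a1 : α₁ ≤ F p := hp.2
  have a2 : F q ≤ α₂ := hq.2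
  have a3 : D * (q - p) ≤ D * (s₂ - s₁) :=
    mul_le_mul_of_nonneg_left (by linarith [hp.1.1, hq.1.2]) hD
  linarith

section
variable {T : ℝ} {u v : ℝ → ℝ → ℝ}

/-- a bubble at the scale `(T - t)^ν` -/
lemma H1Sol.concScale (h : H1Sol T u v) (hT : 0 < T) {C ν t₀ : ℝ} (ht₀ : 0 ≤ t₀) (ht₀T : t₀ < T)
    (hC : 0 < C) (hν : 0 < ν)
    (hG : ∀ t ∈ Ioo t₀ T, C * (T - t) ^ (-(2 * ν)) ≤ ∫ x, v t x ^ 2)
    {η : ℝ} (hη : 0 < η) (hηQ : η < massQ) :
    ∃ A > 0, ∀ᶠ t in 𝓝[<] T, ∃ y,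
      massQ - η ≤ ∫ x in {x : ℝ | |x - y| ≤ A * (T - t) ^ ν}, u t x ^ 2 := by
  obtain ⟨κ, hκ, hκ4, hκm⟩ := exists_kappa (m := massQ - η / 2) (by linarith) (by linarith)
  set E := energy (u (T / 2)) (v (T / 2)) with hE
  set M := ∫ x, u (T / 2) x ^ 2 with hM
  have hM0 : 0 ≤ M := integral_nonneg fun x => sq_nonneg _
  set a := κ * Real.tan (κ * (massQ - η / 2) / 2) * Real.pi with ha
  have htan : 0 ≤ Real.tan (κ * (massQ - η / 2) / 2) :=
    Real.tan_nonneg_of_nonneg_of_le_pi_div_two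
      (by have : 0 ≤ massQ - η / 2 := by linarith
          positivity) (by linarith)
  have ha0 : 0 ≤ a := by positivity
  set δ := 3 * κ ^ 2 - 4 with hδ
  have hδ0 : 0 < δ := by linarith
  set A := 1 + 12 * M * a ^ 2 / (δ ^ 2 * C) with hA
  have hA0 : 0 ≤ 12 * M * a ^ 2 / (δ ^ 2 * C) := by positivity
  have hA1 : 1 ≤ A := by rw [hA]; linarith
  have hA2 : 12 * M * a ^ 2 ≤ A ^ 2 * (δ ^ 2 * C) := by
    have h1 : A ≤ A ^ 2 := by nlinarith
    have h2 : 12 * M * a ^ 2 / (δ ^ 2 * C) ≤ A ^ 2 := by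
      have : 12 * M * a ^ 2 / (δ ^ 2 * C) ≤ A := by rw [hA]; linarith
      linarith
    rwa [div_le_iff₀ (by positivity)] at h2
  have hApos : 0 < A := by linarith
  refine ⟨A, hApos, ?_⟩
  set N := (6 * κ ^ 2 * |E| + δ * |E| + 3 * M / δ) / (δ / 4) with hN
  -- `G` is eventually larger than `N`
  have hinf : ∀ᶠ t in 𝓝[<] T, N < C * (T - t) ^ (-(2 * ν)) := by
    have h1 : Tendsto (fun t => (T - t) ^ (-(2 * ν))) (𝓝[<] T) atTop :=
      (tendsto_rpow_neg_nhdsGT_zero (show -(2 * ν) < 0 by linarith)).comp tendsto_sub_nhdsGT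
    exact (h1.const_mul_atTop hC).eventually_gt_atTop N
  have hmem : ∀ᶠ t in 𝓝[<] T, t ∈ Ioo t₀ T := ev_iff.2 ⟨t₀, ht₀T, fun t ht => ht⟩
  filter_upwards [hinf, hmem] with t htN ht2
  by_contra hcon
  push Not at hcon
  have ht0 : t ∈ Ioo 0 T := ⟨lt_of_le_of_lt ht₀ ht2.1, ht2.2⟩
  have hTt : 0 < T - t := sub_pos.2 ht2.2
  set ρ := A * (T - t) ^ ν with hρ
  have hρ0 : 0 < ρ := mul_pos hApos (Real.rpow_pos_of_pos hTt _)
  have iu := h.int_u ht0
  have key := h.gnW ht0 (ρ := ρ) (ω := fun _ => 1) (ω' := fun _ => 0) (B := 0)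
    (m := massQ - η) (m' := massQ - η / 2) (κ := κ) hρ0
    (fun x => hasDerivAt_const x 1) continuous_const (fun _ => zero_le_one) (fun _ => le_refl _)
    (fun _ => by simp) (by linarith)
    (fun y => Or.inr (by
      refine (int_le_set iu (fun x => sq_nonneg _) (by linarith) ?_).trans (hcon (y + ρ)).le
      intro x hx
      simp only [mem_ofPred_eq]
      rw [abs_le]
      constructor <;> linarith [hx.1, hx.2]))
    (by linarith) hκ hκm
  simp only [one_mul, mul_zero, add_zero] at key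
  have hc : κ * Real.tan (κ * (massQ - η / 2) / 2) * (Real.pi / ρ) = a / ρ := by
    rw [ha]; ring
  rw [hc, h.six hT ht0, ← hE] at key
  set c := a / ρ with hcdef
  have hc0 : 0 ≤ c := by positivity
  set θ := δ / (6 * (c + 1)) with hθ
  have hθ0 : 0 < θ := by positivity
  have h4 := mul_le_mul_of_nonneg_left (h.four_le hT ht0 hθ0) hc0
  rw [← hE, ← hM] at h4
  set G := ∫ x, v t x ^ 2 with hGdef
  have hGt := hG t ht2
  have hG0 : 0 ≤ G := integral_nonneg fun x => sq_nonneg _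
  have e0 : θ * (6 * (c + 1)) = δ := by rw [hθ]; field_simp
  have hcθ : 6 * (c * θ) ≤ δ := by nlinarith
  have hρG : A ^ 2 * C ≤ ρ ^ 2 * G := by
    have e1 : ρ ^ 2 * (C * (T - t) ^ (-(2 * ν))) = A ^ 2 * C := by
      have e2 : ((T - t) ^ ν) ^ 2 * (T - t) ^ (-(2 * ν)) = 1 := by
        rw [← Real.rpow_natCast ((T - t) ^ ν) 2, ← Real.rpow_mul hTt.le, ← Real.rpow_add hTt]
        norm_num
        ring_nf
        simp
      rw [hρ, mul_pow]
      linear_combination (A ^ 2 * C) * e2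
    rw [← e1]
    exact mul_le_mul_of_nonneg_left hGt (by positivity)
  have b1 : c * (1 / (4 * θ) * M) ≤ 3 / (2 * δ) * M * (c + 1) ^ 2 := by
    have e1 : 1 / (4 * θ) = 3 / (2 * δ) * (c + 1) := by
      rw [hθ]
      field_simp
      ring
    rw [e1]
    have : c * (3 / (2 * δ) * (c + 1) * M) = 3 / (2 * δ) * M * (c * (c + 1)) := by ring
    rw [this]
    refine mul_le_mul_of_nonneg_left ?_ (by positivity)
    nlinarith
  have b2 : 3 / (2 * δ) * M * (c + 1) ^ 2 ≤ 3 / (2 * δ) * M * (2 * c ^ 2 + 2) := by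
    refine mul_le_mul_of_nonneg_left ?_ (by positivity)
    nlinarith [sq_nonneg (c - 1)]
  have b3 : 3 / (2 * δ) * M * (2 * c ^ 2 + 2) = 3 * M * a ^ 2 / (δ * ρ ^ 2) + 3 * M / δ := by
    rw [hcdef]
    field_simp
  have b4 : 3 * M * a ^ 2 / (δ * ρ ^ 2) ≤ δ / 4 * G := by
    rw [div_le_iff₀ (by positivity)]
    have b5 : δ / 4 * G * (δ * ρ ^ 2) = δ ^ 2 / 4 * (ρ ^ 2 * G) := by ring
    rw [b5]
    have b6 : δ ^ 2 / 4 * (A ^ 2 * C) ≤ δ ^ 2 / 4 * (ρ ^ 2 * G) :=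
      mul_le_mul_of_nonneg_left hρG (by positivity)
    linarith
  have b7 : δ / 4 * N < δ / 4 * G := mul_lt_mul_of_pos_left (by linarith) (by positivity)
  have b8 : δ / 4 * N = 6 * κ ^ 2 * |E| + δ * |E| + 3 * M / δ := by
    rw [hN]; field_simp
  have b9 : 6 * κ ^ 2 * E ≤ 6 * κ ^ 2 * |E| :=
    mul_le_mul_of_nonneg_left (le_abs_self E) (by positivity)
  have b10 : 6 * (c * θ) * -|E| ≤ 6 * (c * θ) * E :=
    mul_le_mul_of_nonneg_left (neg_abs_le E) (by positivity)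
  have b11 : 6 * (c * θ) * |E| ≤ δ * |E| := mul_le_mul_of_nonneg_right hcθ (abs_nonneg _)
  have b12 : 6 * (c * θ) * G ≤ δ * G := mul_le_mul_of_nonneg_right hcθ hG0
  have e5 : κ ^ 2 * (3 * G - 6 * E) = δ * G + 4 * G - 6 * κ ^ 2 * E := by rw [hδ]; ring
  have e6 : c * (θ * (3 * G - 6 * E) + 1 / (4 * θ) * M) =
      3 * (c * θ) * G - 6 * (c * θ) * E + c * (1 / (4 * θ) * M) := by ring
  linarith

/-- lower bound of the mass flux when the mass outside `[a, b]` is at most `m < massQ` -/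
lemma H1Sol.flux_lower (h : H1Sol T u v) (hT : 0 < T) {m : ℝ} (hm0 : 0 < m) (hm : m < massQ) :
    ∃ μ Cs : ℝ, 0 < μ ∧ 0 ≤ Cs ∧ ∀ t ∈ Ioo 0 T, ∀ a b σ : ℝ, a ≤ b → 0 < σ →
      ∫ x in (Icc a b)ᶜ, u t x ^ 2 ≤ m →
      μ * (∫ x, v t x ^ 2) - Cs * (1 + 1 / σ ^ 2) ≤
        massFlux (tht a b σ) (tht2 a b σ) (u t) (v t) := by
  obtain ⟨κ, hκ, hκ4, hκm⟩ := exists_kappa (m := (m + massQ) / 2) (by linarith) (by linarith)
  set E := energy (u (T / 2)) (v (T / 2)) with hE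
  set M := ∫ x, u (T / 2) x ^ 2 with hM
  have hM0 : 0 ≤ M := integral_nonneg fun x => sq_nonneg _
  have hKS := KS_spec.1
  set a' := κ * Real.tan (κ * ((m + massQ) / 2) / 2) with ha'
  have htan : 0 ≤ Real.tan (κ * ((m + massQ) / 2) / 2) :=
    Real.tan_nonneg_of_nonneg_of_le_pi_div_two
      (by have : 0 ≤ (m + massQ) / 2 := by linarith
          positivity) (by linarith)
  have ha'0 : 0 ≤ a' := by positivity
  set q := 20 / (3 * κ ^ 2) with hq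
  have hκ2 : 0 < κ ^ 2 := by positivity
  have hq5 : q < 5 := by
    rw [hq, div_lt_iff₀ (by positivity)]
    linarith
  set μ := min 2 (5 - q) with hμ
  have hμ0 : 0 < μ := lt_min (by norm_num) (by linarith)
  have hμ2 : μ ≤ 2 := min_le_left _ _
  have hμ5 : μ ≤ 5 - q := min_le_right _ _
  set a₂ := 5 * (a' * (2 * KS)) / (3 * κ ^ 2) with ha₂
  have ha₂0 : 0 ≤ a₂ := by positivity
  refine ⟨μ / 4, 10 * |E| + μ * |E| + 3 / μ * M * (a₂ ^ 2 + 1) + 2 * KS * M, by positivity,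
    by positivity, ?_⟩
  intro t ht a b σ hab hσ hout
  have iv := h.int_v ht
  have i6 := h.int_u6 ht
  have iu := h.int_u ht
  set χ : ℝ → ℝ := tht a b σ with hχ
  have hχ0 : ∀ x, 0 ≤ χ x := fun x => tht_nonneg hσ hab x
  have hχ1 : ∀ x, χ x ≤ 1 := fun x => tht_le_one x
  have hχb : ∀ x, |χ x| ≤ 1 := fun x => by rw [abs_of_nonneg (hχ0 x)]; exact hχ1 x
  have hχc : Continuous χ := tht_c hσ
  have key := h.gnOut ht hab (m := m) (m' := (m + massQ) / 2) (κ := κ)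
    (B := 2 * KS / σ) (ω := fun x => 1 - χ x)
    (ω' := fun x => -(tht1 a b σ x))
    (fun x => (tht_d hσ x).const_sub 1)
    (tht1_c hσ).neg (fun x => by linarith [hχ1 x]) (fun x => by linarith [hχ0 x])
    (fun x => by
      rw [abs_neg]
      exact tht1_b hσ x)
    (fun x hx => by
      simp only [hχ]
      rw [tht_one hσ hx, sub_self])
    hout (by linarith) hκ hκm
  rw [← ha'] at key
  obtain ⟨Kt, hKt⟩ := h.exists_bound ht
  have j1 : Integrable (fun x => χ x * v t x ^ 2) :=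
    integrable_sq_bdd (h.memV t ⟨ht.1.le, ht.2⟩) hχc.aestronglyMeasurable hχb
  have j2 : Integrable (fun x => χ x * u t x ^ 6) :=
    integrable_pow_bdd (h.memU t ⟨ht.1.le, ht.2⟩) hKt hχc.aestronglyMeasurable hχb 4
  have s1 : ∫ x, (1 - χ x) * v t x ^ 2 = (∫ x, v t x ^ 2) - ∫ x, χ x * v t x ^ 2 := by
    rw [← integral_sub iv j1]
    congr 1
    ext x
    ring
  have s2 : ∫ x, (1 - χ x) * u t x ^ 6 = (∫ x, u t x ^ 6) - ∫ x, χ x * u t x ^ 6 := by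
    rw [← integral_sub i6 j2]
    congr 1
    ext x
    ring
  rw [s1, s2, h.six hT ht, ← hE] at key
  set c := a' * (2 * KS / σ) with hc
  have hc0 : 0 ≤ c := by positivity
  set c' := 5 * c / (3 * κ ^ 2) with hc'
  have hc'0 : 0 ≤ c' := by positivity
  have hce : c' = a₂ / σ := by
    rw [hc', hc, ha₂]
    field_simp
  set θ := μ / (6 * (c' + 1)) with hθ
  have hθ0 : 0 < θ := by positivity
  have h4 := h.four_le hT ht hθ0
  rw [← hE, ← hM] at h4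
  have hD1 : 0 ≤ ∫ x, χ x * v t x ^ 2 :=
    integral_nonneg fun x => mul_nonneg (hχ0 x) (sq_nonneg _)
  have hD2 : ∫ x, χ x * v t x ^ 2 ≤ ∫ x, v t x ^ 2 := by
    refine integral_mono j1 iv fun x => ?_
    simp only
    nlinarith [hχ1 x, sq_nonneg (v t x)]
  have h3 : |∫ x, tht2 a b σ x * u t x ^ 2| ≤ 2 * KS / σ ^ 2 * M := by
    rw [hM, ← h.mass_eq hT ht, ← integral_const_mul, ← Real.norm_eq_abs]
    refine norm_integral_le_of_norm_le (iu.const_mul _) ?_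
    filter_upwards with x
    rw [Real.norm_eq_abs, abs_mul, abs_of_nonneg (sq_nonneg (u t x))]
    exact mul_le_mul_of_nonneg_right (tht2_b hσ x) (sq_nonneg _)
  have hZ := (abs_le.1 h3).1
  have hG0 : 0 ≤ ∫ x, v t x ^ 2 := integral_nonneg fun x => sq_nonneg _
  set C₁ := 3 / μ * M * ((a₂ / σ) ^ 2 + 1) with hC₁
  have hbig : 3 / (2 * μ) * M * (c' + 1) ^ 2 ≤ μ / 4 * (∫ x, v t x ^ 2) + C₁ := by
    have b1 : (c' + 1) ^ 2 ≤ 2 * (a₂ / σ) ^ 2 + 2 := by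
      rw [hce]
      nlinarith [sq_nonneg (a₂ / σ - 1)]
    have b2 : 3 / (2 * μ) * M * (c' + 1) ^ 2 ≤
        3 / (2 * μ) * M * (2 * (a₂ / σ) ^ 2 + 2) :=
      mul_le_mul_of_nonneg_left b1 (by positivity)
    have b3 : 3 / (2 * μ) * M * (2 * (a₂ / σ) ^ 2 + 2) = C₁ := by
      rw [hC₁]
      field_simp
    have b4 : 0 ≤ μ / 4 * (∫ x, v t x ^ 2) := by positivity
    linarith
  have hfin := flux_algebra hκ hc0 hq hc' hμ0 hμ2 hμ5 hθ hD1 hD2
    (by linarith : -(2 * KS / σ ^ 2 * M) ≤ ∫ x, tht2 a b σ x * u t x ^ 2) key h4 hM0 hbig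
  rw [massFlux]
  refine le_trans ?_ hfin
  -- constants
  set z := 1 / σ ^ 2 with hz
  have hz0 : 0 < z := by positivity
  have r1 : (a₂ / σ) ^ 2 = a₂ ^ 2 * z := by rw [hz]; field_simp
  have r2 : 2 * KS / σ ^ 2 * M = 2 * KS * M * z := by rw [hz]; field_simp
  have r3 : C₁ = 3 / μ * M * (a₂ ^ 2 * z + 1) := by rw [hC₁, r1]
  rw [r2, r3]
  have p1 : 0 ≤ |E| := abs_nonneg _
  have p2 : 0 ≤ μ * |E| := by positivity
  have p3 : 0 ≤ 3 / μ * M := by positivity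
  have p4 : 0 ≤ 2 * KS * M := by positivity
  have p5 : 0 ≤ 3 / μ * M * a₂ ^ 2 := by positivity
  nlinarith [mul_nonneg p1 hz0.le, mul_nonneg p2 hz0.le, mul_nonneg p3 hz0.le]

/-- the window of a bubble carries the mass, the rest carries little -/
lemma outside_le {f : ℝ → ℝ} (hf : Integrable f) (hf0 : ∀ x, 0 ≤ f x) {a b : ℝ} {W : Set ℝ}
    (hWm : MeasurableSet W) (hW : W ⊆ Icc a b) :
    ∫ x in (Icc a b)ᶜ, f x ≤ (∫ x, f x) - ∫ x in W, f x := by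
  have h1 := integral_add_compl (measurableSet_Icc (a := a) (b := b)) hf
  have h2 : ∫ x in W, f x ≤ ∫ x in Icc a b, f x :=
    setIntegral_mono_set hf.integrableOn (Eventually.of_forall hf0) hW.eventuallyLE
  linarith

/-- two windows with too much mass intersect -/
lemma overlap {f : ℝ → ℝ} (hf : Integrable f) (hf0 : ∀ x, 0 ≤ f x) {y z r s m₁ m₂ : ℝ}
    (h1 : m₁ ≤ ∫ x in {x : ℝ | |x - y| ≤ r}, f x)
    (h2 : m₂ ≤ ∫ x in {x : ℝ | |x - z| ≤ s}, f x) (hm : ∫ x, f x < m₁ + m₂) :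
    |z - y| ≤ r + s := by
  by_contra hcon
  push Not at hcon
  have hdisj : Disjoint {x : ℝ | |x - y| ≤ r} {x : ℝ | |x - z| ≤ s} := by
    rw [Set.disjoint_left]
    intro x hx1 hx2
    simp only [mem_ofPred_eq] at hx1 hx2
    have e : z - y = (x - y) - (x - z) := by ring
    have : |z - y| ≤ |x - y| + |x - z| := by rw [e]; exact abs_sub _ _
    linarith
  have h3 := setIntegral_union hdisj (measurableSet_win z s) hf.integrableOn
    (f := f) hf.integrableOn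
  have h4 : ∫ x in {x : ℝ | |x - y| ≤ r} ∪ {x : ℝ | |x - z| ≤ s}, f x ≤ ∫ x, f x :=
    setIntegral_le_integral hf (Eventually.of_forall hf0)
  linarith

/-- Almost monotonicity. -/
lemma H1Sol.mono (h : H1Sol T u v) (hT : 0 < T) {m μ Cs M d η₀ : ℝ} (hμ : 0 < μ) (hCs : 0 ≤ Cs)
    (hflux : ∀ t ∈ Ioo 0 T, ∀ a b σ : ℝ, a ≤ b → 0 < σ →
      ∫ x in (Icc a b)ᶜ, u t x ^ 2 ≤ m →
      μ * (∫ x, v t x ^ 2) - Cs * (1 + 1 / σ ^ 2) ≤
        massFlux (tht a b σ) (tht2 a b σ) (u t) (v t))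
    (hM : M = ∫ x, u (T / 2) x ^ 2) (hMpos : 0 < M) (hd : d = 2 * massQ - M) (hd0 : 0 < d)
    (hη₀ : 0 < η₀) (hη₀d : η₀ ≤ d / 8) (hη₀Q : η₀ ≤ massQ / 8) (hm : M - (massQ - η₀) ≤ m)
    {s₁ s₂ ρ L : ℝ} (hs₁ : 0 < s₁) (hs : s₁ ≤ s₂) (hs₂ : s₂ < T) (hρ : 0 < ρ) {y : ℝ → ℝ}
    (hb : ∀ τ ∈ Icc s₁ s₂, massQ - η₀ ≤ ∫ x in {x : ℝ | |x - y τ| ≤ ρ}, u τ x ^ 2)
    (hL : 0 < L) (hLρ : 2 * ρ ≤ L) (hdrop : y s₂ ≤ y s₁ - L) :
    d * L / 2 - 2 * ρ * M ≤ Cs * (1 + 1 / (d * L / (8 * M)) ^ 2) * (s₂ - s₁) := by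
  have hQ := massQ_pos
  set σ := d * L / (8 * M) with hσdef
  have hσ : 0 < σ := by positivity
  have hσM : 2 * (σ * M) = d * L / 4 := by rw [hσdef]; field_simp; ring
  set b := y s₁ with hbdef
  set a := b - L with hadef
  have hab : a - ρ ≤ b + ρ := by linarith
  set ψ := prm (a - ρ) (b + ρ) σ with hψ
  obtain ⟨K, hK⟩ := prm_wt (a := a - ρ) (b := b + ρ) hσ hab
  have hψ0 : ∀ x, 0 ≤ ψ x := prm_nonneg hσ hab
  have hψm : Monotone ψ := prm_mono hσ hab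
  set P := L + 2 * ρ + 2 * σ with hP
  have hψP : ∀ x, ψ x ≤ P := fun x => by
    have := prm_le (a := a - ρ) (b := b + ρ) hσ hab x
    rw [hP]
    simp only [hψ]
    linarith
  set q := massQ - η₀ with hq
  have hq0 : 0 < q := by linarith
  set α₁ := q * ψ (b - ρ) with hα₁
  set α₂ := P * M - (P - ψ (a + ρ)) * q with hα₂
  have hlin : ψ (b - ρ) - ψ (a + ρ) = L - 2 * ρ := by
    have := prm_lin (a := a - ρ) (b := b + ρ) hσ (x := a + ρ) (y := b - ρ)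
      (by linarith) (by linarith) (by linarith)
    simp only [hψ]
    linarith
  have hdiff : d * L / 2 - 2 * ρ * M ≤ α₁ - α₂ := by
    have e : α₁ - α₂ = L * (2 * q - M) - 2 * ρ * M - 2 * σ * (M - q) := by
      rw [hα₁, hα₂]
      have e1 : ψ (b - ρ) = ψ (a + ρ) + (L - 2 * ρ) := by linarith
      rw [e1, hP]
      ring
    rw [e]
    have h1 : d * 3 / 4 ≤ 2 * q - M := by rw [hq, hd]; linarith
    have h2 : L * (d * 3 / 4) ≤ L * (2 * q - M) := mul_le_mul_of_nonneg_left h1 hL.le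
    have h3 : 2 * σ * (M - q) ≤ 2 * (σ * M) := by nlinarith
    linarith
  have hint : ∀ τ ∈ Icc s₁ s₂, τ ∈ Ioo 0 T := fun τ hτ =>
    ⟨lt_of_lt_of_le hs₁ hτ.1, lt_of_le_of_lt hτ.2 hs₂⟩
  -- bubble on the right
  have hright : ∀ τ ∈ Icc s₁ s₂, b ≤ y τ → α₁ ≤ ∫ x, ψ x * u τ x ^ 2 := by
    intro τ hτ hbτ
    have iu := h.int_u (hint τ hτ)
    have iψ : Integrable (fun x => ψ x * u τ x ^ 2) :=
      integrable_sq_bdd (h.memU τ ⟨(hint τ hτ).1.le, (hint τ hτ).2⟩)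
        hK.c0.aestronglyMeasurable hK.b0
    have h1 : ∫ x in {x : ℝ | |x - y τ| ≤ ρ}, ψ (b - ρ) * u τ x ^ 2 ≤
        ∫ x in {x : ℝ | |x - y τ| ≤ ρ}, ψ x * u τ x ^ 2 := by
      refine setIntegral_mono_on (iu.const_mul _).integrableOn iψ.integrableOn
        (measurableSet_win _ _) fun x hx => ?_
      refine mul_le_mul_of_nonneg_right (hψm ?_) (sq_nonneg _)
      simp only [mem_ofPred_eq] at hx
      have := (abs_le.1 hx).1
      linarith
    have h2 : ∫ x in {x : ℝ | |x - y τ| ≤ ρ}, ψ x * u τ x ^ 2 ≤ ∫ x, ψ x * u τ x ^ 2 :=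
      setIntegral_le_integral iψ
        (Eventually.of_forall fun x => mul_nonneg (hψ0 x) (sq_nonneg _))
    rw [integral_const_mul] at h1
    have h3 := mul_le_mul_of_nonneg_left (hb τ hτ) (hψ0 (b - ρ))
    rw [hα₁]
    linarith
  -- bubble on the left
  have hleft : ∀ τ ∈ Icc s₁ s₂, y τ ≤ a → ∫ x, ψ x * u τ x ^ 2 ≤ α₂ := by
    intro τ hτ haτ
    have iu := h.int_u (hint τ hτ)
    have iψ : Integrable (fun x => ψ x * u τ x ^ 2) :=
      integrable_sq_bdd (h.memU τ ⟨(hint τ hτ).1.le, (hint τ hτ).2⟩)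
        hK.c0.aestronglyMeasurable hK.b0
    have hW := measurableSet_win (y τ) ρ
    have h1 : ∫ x in {x : ℝ | |x - y τ| ≤ ρ}, ψ x * u τ x ^ 2 ≤
        ψ (a + ρ) * ∫ x in {x : ℝ | |x - y τ| ≤ ρ}, u τ x ^ 2 := by
      rw [← integral_const_mul]
      refine setIntegral_mono_on iψ.integrableOn (iu.const_mul _).integrableOn hW fun x hx => ?_
      refine mul_le_mul_of_nonneg_right (hψm ?_) (sq_nonneg _)
      simp only [mem_ofPred_eq] at hx
      have := (abs_le.1 hx).2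
      linarith
    have h2 : ∫ x in {x : ℝ | |x - y τ| ≤ ρ}ᶜ, ψ x * u τ x ^ 2 ≤
        P * ∫ x in {x : ℝ | |x - y τ| ≤ ρ}ᶜ, u τ x ^ 2 := by
      rw [← integral_const_mul]
      refine setIntegral_mono_on iψ.integrableOn (iu.const_mul _).integrableOn hW.compl
        fun x hx => ?_
      exact mul_le_mul_of_nonneg_right (hψP x) (sq_nonneg _)
    have h3 := integral_add_compl hW iψ
    have h4 := integral_add_compl hW iu
    rw [h.mass_eq hT (hint τ hτ), ← hM] at h4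
    have h5 := mul_le_mul_of_nonneg_left (hb τ hτ) (sub_nonneg.2 (hψP (a + ρ)))
    rw [hα₂, ← h3]
    have h6 : ∫ x in {x : ℝ | |x - y τ| ≤ ρ}ᶜ, u τ x ^ 2 =
        M - ∫ x in {x : ℝ | |x - y τ| ≤ ρ}, u τ x ^ 2 := by linarith
    rw [h6] at h2
    nlinarith
  rcases le_or_gt α₁ α₂ with hle | hlt
  · have : 0 ≤ Cs * (1 + 1 / σ ^ 2) * (s₂ - s₁) := by
      have : 0 ≤ s₂ - s₁ := by linarith
      positivity
    linarith
  · refine hdiff.trans ?_
    refine drop (F := fun τ => ∫ x, ψ x * u τ x ^ 2)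
      (F' := fun τ => massFlux (tht (a - ρ) (b + ρ) σ) (tht2 (a - ρ) (b + ρ) σ) (u τ) (v τ)) hs
      (fun τ hτ => h.mass_deriv hK (hint τ hτ))
      (hright s₁ ⟨le_refl _, hs⟩ (le_refl _)) (hleft s₂ ⟨hs, le_refl _⟩ hdrop) hlt
      (by positivity) ?_
    intro τ hτ h1 h2
    have y1 : a < y τ := by
      by_contra hle
      push Not at hle
      have := hleft τ hτ hle
      linarith
    have y2 : y τ < b := by
      by_contra hle
      push Not at hle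
      have := hright τ hτ hle
      linarith
    have hout := outside_le (h.int_u (hint τ hτ)) (fun x => sq_nonneg _)
      (a := a - ρ) (b := b + ρ) (measurableSet_win (y τ) ρ) (fun x hx => by
        simp only [mem_ofPred_eq] at hx
        rw [abs_le] at hx
        exact ⟨by linarith [hx.1], by linarith [hx.2]⟩)
    rw [h.mass_eq hT (hint τ hτ), ← hM] at hout
    have hbτ := hb τ hτ
    have := hflux τ (hint τ hτ) (a - ρ) (b + ρ) σ hab hσ (by linarith)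
    have hG0 : 0 ≤ μ * ∫ x, v τ x ^ 2 := by
      have : 0 ≤ ∫ x, v τ x ^ 2 := integral_nonneg fun x => sq_nonneg _
      positivity
    linarith

/-- Growth. -/
lemma H1Sol.growth (h : H1Sol T u v) (hT : 0 < T) {m μ Cs M η₀ : ℝ} (hμ : 0 < μ) (hCs : 0 ≤ Cs)
    (hflux : ∀ t ∈ Ioo 0 T, ∀ a b σ : ℝ, a ≤ b → 0 < σ →
      ∫ x in (Icc a b)ᶜ, u t x ^ 2 ≤ m →
      μ * (∫ x, v t x ^ 2) - Cs * (1 + 1 / σ ^ 2) ≤
        massFlux (tht a b σ) (tht2 a b σ) (u t) (v t))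
    (hM : M = ∫ x, u (T / 2) x ^ 2) (hm : M - (massQ - η₀) ≤ m)
    {s₁ s₂ ρ a b σ : ℝ} (hs₁ : 0 < s₁) (hs : s₁ ≤ s₂) (hs₂ : s₂ < T) (hρ : 0 < ρ)
    (hσ : 0 < σ) (hab : a ≤ b) {y : ℝ → ℝ}
    (hb : ∀ τ ∈ Icc s₁ s₂, massQ - η₀ ≤ ∫ x in {x : ℝ | |x - y τ| ≤ ρ}, u τ x ^ 2)
    (hy : ∀ τ ∈ Icc s₁ s₂, y τ ∈ Icc a b) {g g' : ℝ → ℝ}
    (hg : ∀ τ ∈ Icc s₁ s₂, HasDerivAt g (g' τ) τ)
    (hgG : ∀ τ ∈ Icc s₁ s₂, g' τ ≤ ∫ x, v τ x ^ 2) :
    μ * (g s₂ - g s₁) ≤ M * (b - a + 2 * ρ + 2 * σ) + Cs * (1 + 1 / σ ^ 2) * (s₂ - s₁) := by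
  have hab' : a - ρ ≤ b + ρ := by linarith
  set ψ := prm (a - ρ) (b + ρ) σ with hψ
  obtain ⟨K, hK⟩ := prm_wt (a := a - ρ) (b := b + ρ) hσ hab'
  have hψ0 : ∀ x, 0 ≤ ψ x := prm_nonneg hσ hab'
  have hψP : ∀ x, ψ x ≤ b - a + 2 * ρ + 2 * σ := fun x => by
    have := prm_le (a := a - ρ) (b := b + ρ) hσ hab' x
    simp only [hψ]
    linarith
  have hint : ∀ τ ∈ Icc s₁ s₂, τ ∈ Ioo 0 T := fun τ hτ =>
    ⟨lt_of_lt_of_le hs₁ hτ.1, lt_of_le_of_lt hτ.2 hs₂⟩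
  have key := mvt_le (F := fun τ => ∫ x, ψ x * u τ x ^ 2)
    (g := fun τ => μ * g τ - Cs * (1 + 1 / σ ^ 2) * τ)
    (F' := fun τ => massFlux (tht (a - ρ) (b + ρ) σ) (tht2 (a - ρ) (b + ρ) σ) (u τ) (v τ))
    (g' := fun τ => μ * g' τ - Cs * (1 + 1 / σ ^ 2)) hs
    (fun τ hτ => h.mass_deriv hK (hint τ hτ))
    (fun τ hτ => by
      refine (((hg τ hτ).const_mul μ).sub
        ((hasDerivAt_id τ).const_mul (Cs * (1 + 1 / σ ^ 2)))).congr_deriv ?_
      ring)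
    (fun τ hτ => by
      have hyτ := hy τ hτ
      have hout := outside_le (h.int_u (hint τ hτ)) (fun x => sq_nonneg _)
        (a := a - ρ) (b := b + ρ) (measurableSet_win (y τ) ρ) (fun x hx => by
          simp only [mem_ofPred_eq] at hx
          rw [abs_le] at hx
          exact ⟨by linarith [hx.1, hyτ.1], by linarith [hx.2, hyτ.2]⟩)
      rw [h.mass_eq hT (hint τ hτ), ← hM] at hout
      have hbτ := hb τ hτ
      have h1 := hflux τ (hint τ hτ) (a - ρ) (b + ρ) σ hab' hσ (by linarith)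
      have h2 := mul_le_mul_of_nonneg_left (hgG τ hτ) hμ.le
      linarith)
  have hF2 : ∫ x, ψ x * u s₂ x ^ 2 ≤ M * (b - a + 2 * ρ + 2 * σ) := by
    have hs₂m : s₂ ∈ Icc s₁ s₂ := ⟨hs, le_refl _⟩
    have iu := h.int_u (hint s₂ hs₂m)
    have iψ : Integrable (fun x => ψ x * u s₂ x ^ 2) :=
      integrable_sq_bdd (h.memU s₂ ⟨(hint s₂ hs₂m).1.le, hs₂⟩)
        hK.c0.aestronglyMeasurable hK.b0
    have h1 : ∫ x, ψ x * u s₂ x ^ 2 ≤ ∫ x, (b - a + 2 * ρ + 2 * σ) * u s₂ x ^ 2 :=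
      integral_mono iψ (iu.const_mul _) fun x =>
        mul_le_mul_of_nonneg_right (hψP x) (sq_nonneg _)
    rw [integral_const_mul, h.mass_eq hT (hint s₂ hs₂m), ← hM] at h1
    linarith
  have hF1 : 0 ≤ ∫ x, ψ x * u s₁ x ^ 2 :=
    integral_nonneg fun x => mul_nonneg (hψ0 x) (sq_nonneg _)
  have e : Cs * (1 + 1 / σ ^ 2) * (s₂ - s₁) =
      Cs * (1 + 1 / σ ^ 2) * s₂ - Cs * (1 + 1 / σ ^ 2) * s₁ := by ring
  linarith

end

end Pool.Agent.Lib_helper19.KdV
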