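import Pool.Agent.Lib_helper19.KdV.Rate

/-!
Concentration at a fixed point for rates below `1/2`, escape of mass for rates `≥ 1/2`.
-/

namespace Pool.Agent.Lib_helper19.KdV

open MeasureTheory Set Filter Topology

lemma massQ_pos : 0 < massQ := by
  rw [massQ_eq]
  have : 0 < Real.sqrt 3 := Real.sqrt_pos.2 (by norm_num)
  positivity

section
variable {T : ℝ} {u v : ℝ → ℝ → ℝ}

lemma H1Sol.four_le (h : H1Sol T u v) (hT : 0 < T) {t : ℝ} (ht : t ∈ Ioo 0 T) {θ : ℝ}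
    (hθ : 0 < θ) :
    ∫ x, u t x ^ 4 ≤ θ * (3 * (∫ x, v t x ^ 2) - 6 * energy (u (T / 2)) (v (T / 2))) +
      1 / (4 * θ) * ∫ x, u (T / 2) x ^ 2 := by
  rw [← h.six hT ht, ← h.mass_eq hT ht, ← integral_const_mul, ← integral_const_mul,
    ← integral_add ((h.int_u6 ht).const_mul _) ((h.int_u ht).const_mul _)]
  refine integral_mono (h.int_u4 ht)
    (((h.int_u6 ht).const_mul _).add ((h.int_u ht).const_mul _)) fun x => ?_
  simp only
  have e : θ * u t x ^ 6 + 1 / (4 * θ) * u t x ^ 2 - u t x ^ 4 =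
      u t x ^ 2 * (2 * θ * u t x ^ 2 - 1) ^ 2 / (4 * θ) := by
    field_simp
    ring
  have : 0 ≤ u t x ^ 2 * (2 * θ * u t x ^ 2 - 1) ^ 2 / (4 * θ) := by positivity
  linarith

/-- Somewhere an interval of length `2ρ` carries almost `massQ`. -/
lemma H1Sol.conc (h : H1Sol T u v) (hT : 0 < T)
    (hinf : ∀ N : ℝ, ∀ᶠ t in 𝓝[<] T, N < ∫ x, v t x ^ 2) {ρ η : ℝ} (hρ : 0 < ρ) (hη : 0 < η)
    (hη2 : η < massQ) :
    ∀ᶠ t in 𝓝[<] T, ∃ y, massQ - η ≤ ∫ x in y..(y + 2 * ρ), u t x ^ 2 := by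
  obtain ⟨κ, hκ, hκ4, hκm⟩ := exists_kappa (m := massQ - η / 2) (by linarith) (by linarith)
  set E := energy (u (T / 2)) (v (T / 2)) with hE
  set M := ∫ x, u (T / 2) x ^ 2 with hM
  set c := κ * Real.tan (κ * (massQ - η / 2) / 2) * (Real.pi / ρ) with hc
  have ht0 : 0 ≤ Real.tan (κ * (massQ - η / 2) / 2) :=
    Real.tan_nonneg_of_nonneg_of_le_pi_div_two
      (by have : 0 ≤ massQ - η / 2 := by linarith
          positivity) (by linarith)
  have hc0 : 0 ≤ c := by positivity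
  have hd : 0 < 3 * κ ^ 2 - 4 := by linarith
  set θ := (3 * κ ^ 2 - 4) / (6 * (c + 1)) with hθ
  have hθ0 : 0 < θ := by positivity
  have hcθ : 3 * (c * θ) ≤ (3 * κ ^ 2 - 4) / 2 := by
    have e : θ * (6 * (c + 1)) = 3 * κ ^ 2 - 4 := by
      rw [hθ]; field_simp
    nlinarith
  set N := (6 * κ ^ 2 * |E| + 6 * (c * θ) * |E| + c * (1 / (4 * θ) * M)) /
    ((3 * κ ^ 2 - 4) / 2) with hN
  have hmem : ∀ᶠ t in 𝓝[<] T, t ∈ Ioo 0 T :=
    ev_iff.2 ⟨0, hT, fun t ht => ht⟩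
  filter_upwards [hinf N, hmem] with t htN ht
  by_contra hcon
  push Not at hcon
  have key := h.gnW ht hρ (ω := fun _ => 1) (ω' := fun _ => 0) (B := 0)
    (fun x => hasDerivAt_const x 1) continuous_const (fun _ => zero_le_one) (fun _ => le_refl _)
    (fun _ => by simp) (by linarith) (fun y => Or.inr (hcon y).le)
    (show massQ - η < massQ - η / 2 by linarith) hκ hκm
  simp only [one_mul, mul_zero, add_zero] at key
  rw [← hc, h.six hT ht, ← hE] at key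
  have h4 := mul_le_mul_of_nonneg_left (h.four_le hT ht hθ0) hc0
  rw [← hE, ← hM] at h4
  set G := ∫ x, v t x ^ 2 with hG
  have hG0 : 0 ≤ G := integral_nonneg fun x => sq_nonneg _
  rw [hN, div_lt_iff₀ (by positivity)] at htN
  have a1 := le_abs_self E
  have a2 := neg_abs_le E
  have a3 : 3 * (c * θ) * G ≤ (3 * κ ^ 2 - 4) / 2 * G := mul_le_mul_of_nonneg_right hcθ hG0
  have a4 : κ ^ 2 * E ≤ κ ^ 2 * |E| := mul_le_mul_of_nonneg_left a1 (sq_nonneg κ)
  have a5 : c * θ * -|E| ≤ c * θ * E := mul_le_mul_of_nonneg_left a2 (by positivity)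
  nlinarith

/-- an interval inside a set carries at most the mass of the set -/
lemma int_le_set {f : ℝ → ℝ} (hf : Integrable f) (hf0 : ∀ x, 0 ≤ f x) {a b : ℝ} (hab : a ≤ b)
    {S : Set ℝ} (hS : Ioc a b ⊆ S) : ∫ x in a..b, f x ≤ ∫ x in S, f x := by
  rw [intervalIntegral.integral_of_le hab]
  exact setIntegral_mono_set hf.integrableOn (Eventually.of_forall hf0) hS.eventuallyLE

/-- the concentration point -/
lemma H1Sol.point (h : H1Sol T u v) (hT : 0 < T) {A α t₀ : ℝ} (ht₀ : 0 ≤ t₀) (ht₀T : t₀ < T)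
    (hA : 0 ≤ A) (hα : 0 < α)
    (hG : ∀ t ∈ Ioo t₀ T, ∫ x, v t x ^ 2 ≤ A * (T - t) ^ (α - 1))
    (hinf : ∀ N : ℝ, ∀ᶠ t in 𝓝[<] T, N < ∫ x, v t x ^ 2) :
    ∃ x₀ : ℝ, ∀ r > 0, ∀ η > 0, ∀ᶠ t in 𝓝[<] T,
      massQ - η ≤ ∫ x, chi ((x - x₀) / r) * u t x ^ 2 := by
  have hQ := massQ_pos
  obtain ⟨R, hR, hRt⟩ := h.tight hT ht₀ ht₀T hA hα hG (show 0 < massQ / 4 by positivity)
  have hpos : ∀ n : ℕ, 0 < 1 / ((n : ℝ) + 1) := fun n => by positivity
  have hle1 : ∀ n : ℕ, 1 / ((n : ℝ) + 1) ≤ 1 := fun n => by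
    rw [div_le_one (by positivity)]
    have : (0 : ℝ) ≤ n := by positivity
    linarith
  have hch : ∀ n : ℕ, ∃ t y : ℝ, t ∈ Ioo 0 T ∧ T - 1 / ((n : ℝ) + 1) < t ∧
      massQ - min (1 / ((n : ℝ) + 1)) (massQ / 2) ≤
        ∫ x in y..(y + 2 * (1 / ((n : ℝ) + 1))), u t x ^ 2 ∧
      y ∈ Icc (-R - 2) R := by
    intro n
    have e1 := h.conc hT hinf (hpos n)
      (show 0 < min (1 / ((n : ℝ) + 1)) (massQ / 2) from lt_min (hpos n) (by positivity))
      (lt_of_le_of_lt (min_le_right _ _) (by linarith))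
    have e2 : ∀ᶠ t in 𝓝[<] T, t ∈ Ioo 0 T ∧ T - 1 / ((n : ℝ) + 1) < t := by
      refine ev_iff.2 ⟨max 0 (T - 1 / ((n : ℝ) + 1)), max_lt hT (by linarith [hpos n]),
        fun t ht => ⟨⟨lt_of_le_of_lt (le_max_left _ _) ht.1, ht.2⟩,
          lt_of_le_of_lt (le_max_right _ _) ht.1⟩⟩
    obtain ⟨t, ⟨⟨y, hy⟩, htT, ht2⟩, ht3⟩ := ((e1.and e2).and hRt).exists
    refine ⟨t, y, htT, ht2, hy, ?_⟩
    have hy2 : y ≤ y + 2 * (1 / ((n : ℝ) + 1)) := by linarith [hpos n]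
    have hbig : massQ / 2 ≤ ∫ x in y..(y + 2 * (1 / ((n : ℝ) + 1))), u t x ^ 2 := by
      have := min_le_right (1 / ((n : ℝ) + 1)) (massQ / 2)
      linarith
    have hno : ¬ Ioc y (y + 2 * (1 / ((n : ℝ) + 1))) ⊆ {x : ℝ | R < |x|} := by
      intro hsub
      have := int_le_set (h.int_u htT) (fun x => sq_nonneg _) hy2 hsub
      linarith
    constructor
    · by_contra hlt
      push Not at hlt
      apply hno
      intro x hx
      simp only [mem_ofPred_eq]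
      have := hle1 n
      rw [abs_of_neg (by linarith [hx.2])]
      linarith [hx.2]
    · by_contra hlt
      push Not at hlt
      apply hno
      intro x hx
      simp only [mem_ofPred_eq]
      exact lt_of_lt_of_le (hlt.trans hx.1) (le_abs_self x)
  choose tn yn htn htn2 hyn hyn2 using hch
  obtain ⟨x₀, -, φ, hφ, hlim⟩ := isCompact_Icc.tendsto_subseq hyn2
  refine ⟨x₀, fun r hr η hη => ?_⟩
  have hwt := chi_wt'.scale x₀ hr
  obtain ⟨l, hl0, hlT, hl⟩ := h.cauchy hT ht₀ ht₀T hA hα hG hwt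
    (show 0 < η / 2 by positivity)
  have hn1 : Tendsto (fun n : ℕ => 1 / ((n : ℝ) + 1)) atTop (𝓝 0) :=
    tendsto_one_div_add_atTop_nhds_zero_nat
  have hn2 : Tendsto (fun k : ℕ => 1 / (((φ k : ℕ) : ℝ) + 1)) atTop (𝓝 0) :=
    hn1.comp hφ.tendsto_atTop
  have q1 := hn2.eventually_lt_const (show 0 < min (min (r / 8) (η / 2)) (T - l) from
    lt_min (lt_min (by positivity) (by positivity)) (by linarith))
  have q2 := (Metric.tendsto_nhds.1 hlim) (r / 2) (by positivity)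
  obtain ⟨k, hk1, hk2⟩ := (q1.and q2).exists
  rw [lt_min_iff, lt_min_iff] at hk1
  obtain ⟨⟨hk3, hk4⟩, hk5⟩ := hk1
  set n := φ k with hn
  have ht1 : tn n ∈ Ioo l T := ⟨by linarith [htn2 n], (htn n).2⟩
  simp only [Function.comp] at hk2
  rw [Real.dist_eq, abs_lt] at hk2
  -- mass at time `tn n`
  have hF : massQ - η / 2 ≤ ∫ x, chi ((x - x₀) / r) * u (tn n) x ^ 2 := by
    have hp := hpos n
    have b1 := hyn n
    have b2 : ∫ x in (yn n)..(yn n + 2 * (1 / ((n : ℝ) + 1))), u (tn n) x ^ 2 ≤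
        ∫ x in {x : ℝ | |x - x₀| ≤ r}, u (tn n) x ^ 2 := by
      refine int_le_set (h.int_u (htn n)) (fun x => sq_nonneg _) (by linarith) fun x hx => ?_
      simp only [mem_ofPred_eq]
      rw [abs_le]
      constructor
      · linarith [hx.1, hk2.1]
      · linarith [hx.2, hk2.2]
    have b3 := win_le (h.int_u (htn n)) (fun x => sq_nonneg _) x₀ hr
    have b4 := min_le_left (1 / ((n : ℝ) + 1)) (massQ / 2)
    linarith
  refine ev_iff.2 ⟨l, hlT, fun t ht => ?_⟩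
  have := (abs_le.1 (hl (tn n) ht1 t ht)).1
  linarith

end

end Pool.Agent.Lib_helper19.KdV
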