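import Mathlib

/-!
# The critical generalised Korteweg-de Vries equation: definitions

`∂_t u + ∂_x (∂_x² u + u⁵) = 0`.
-/

namespace Pool.Agent.Lib_helper19.KdV

open MeasureTheory Set Filter Topology
open scoped ContDiff

/-- `w` is a smooth solution of `∂_t w + ∂_x (∂_x² w + w⁵) = 0` on `I × ℝ`, where `I` is an open
set of times, all of whose `x`-derivatives decay faster than any power of `x`, uniformly in
time. -/
structure SmoothSol (I : Set ℝ) (w : ℝ → ℝ → ℝ) : Prop where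
  isOpen : IsOpen I
  smooth : ContDiffOn ℝ ∞ (fun p : ℝ × ℝ => w p.1 p.2) (I ×ˢ univ)
  decay : ∀ n k : ℕ, ∃ C : ℝ, ∀ t ∈ I, ∀ x, |x| ^ k * |iteratedDeriv n (w t) x| ≤ C
  eqn : ∀ t ∈ I, ∀ x, deriv (fun s => w s x) t +
    deriv (fun y => iteratedDeriv 2 (w t) y + w t y ^ 5) x = 0

/-- `u` is an `H¹` solution on `[0, T)`, and `v = ∂_x u`: on every `[0, b]`, `b < T`, it is the
limit, in `H¹` (and uniformly in `x`) and uniformly in `t`, of smooth decaying solutions. -/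
structure H1Sol (T : ℝ) (u v : ℝ → ℝ → ℝ) : Prop where
  memU : ∀ t ∈ Ico 0 T, MemLp (u t) 2 volume
  memV : ∀ t ∈ Ico 0 T, MemLp (v t) 2 volume
  approx : ∀ b < T, ∀ ε > 0, ∃ (I : Set ℝ) (w : ℝ → ℝ → ℝ), Icc 0 b ⊆ I ∧ SmoothSol I w ∧
    ∀ t ∈ Icc 0 b, (∀ x, |w t x - u t x| ≤ ε) ∧ ∫ x, (w t x - u t x) ^ 2 ≤ ε ∧
      ∫ x, (deriv (w t) x - v t x) ^ 2 ≤ ε

/-- the ground state `Q(x) = (3 / cosh² (2x))^{1/4}` -/
noncomputable def Q (x : ℝ) : ℝ := (3 / Real.cosh (2 * x) ^ 2) ^ (1 / 4 : ℝ)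

/-- the mass of the ground state -/
noncomputable def massQ : ℝ := ∫ x, Q x ^ 2

end Pool.Agent.Lib_helper19.KdV
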