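import Pool.Agent.Lib_helper19.KdV.Conc

/-!
Moving windows, weak limits, escape of mass.
-/

namespace Pool.Agent.Lib_helper19.KdV

open MeasureTheory Set Filter Topology

section
variable {T : ℝ} {u v : ℝ → ℝ → ℝ}

/-- concentration in the window `|x - x₀| ≤ A' (T - t)^α`, `α = 1 - 2ν ≤ 1/3` -/
lemma H1Sol.window (h : H1Sol T u v) (hT : 0 < T) {A α t₀ : ℝ} (ht₀ : 0 ≤ t₀) (ht₀T : t₀ < T)
    (hA : 0 ≤ A) (hα : 0 < α) (hα3 : 3 * α ≤ 1)
    (hG : ∀ t ∈ Ioo t₀ T, ∫ x, v t x ^ 2 ≤ A * (T - t) ^ (α - 1)) {x₀ : ℝ}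
    (hx₀ : ∀ r > 0, ∀ η > 0, ∀ᶠ t in 𝓝[<] T, massQ - η ≤ ∫ x, chi ((x - x₀) / r) * u t x ^ 2)
    {η : ℝ} (hη : 0 < η) :
    ∃ A' > 0, ∀ᶠ t in 𝓝[<] T,
      massQ - η ≤ ∫ x in {x : ℝ | |x - x₀| ≤ A' * (T - t) ^ α}, u t x ^ 2 := by
  set E := energy (u (T / 2)) (v (T / 2)) with hE
  set M := ∫ x, u (T / 2) x ^ 2 with hM
  have hM0 : 0 ≤ M := integral_nonneg fun x => sq_nonneg _
  have hKC := KC_nonneg
  set L := 2 * KC * (8 * A / α + 10 * |E|) + 8 * KC * M with hL
  have hL0 : 0 ≤ L := by positivity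
  set A' := max 1 (2 * L / η) with hA'
  have hA'1 : 1 ≤ A' := le_max_left _ _
  have hA'0 : 0 < A' := lt_of_lt_of_le one_pos hA'1
  have hLA : L / A' ≤ η / 2 := by
    rw [div_le_iff₀ hA'0]
    have h1 : 2 * L / η ≤ A' := le_max_right _ _
    rw [div_le_iff₀ hη] at h1
    linarith
  refine ⟨A', hA'0, ev_iff.2 ⟨max t₀ (T - 1), max_lt ht₀T (by linarith), fun t ht => ?_⟩⟩
  have ht' : t ∈ Ioo t₀ T := ⟨lt_of_le_of_lt (le_max_left _ _) ht.1, ht.2⟩
  have ht1 : T - t ≤ 1 := by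
    have := lt_of_le_of_lt (le_max_right t₀ (T - 1)) ht.1
    linarith
  have ht0 : t ∈ Ioo 0 T := ⟨lt_of_le_of_lt ht₀ ht'.1, ht.2⟩
  have hTt : 0 < T - t := sub_pos.2 ht.2
  set X := (T - t) ^ α with hX
  have hX0 : 0 < X := Real.rpow_pos_of_pos hTt _
  have hXa : T - t ≤ X := by
    calc T - t = (T - t) ^ (1 : ℝ) := (Real.rpow_one _).symm
      _ ≤ (T - t) ^ α := Real.rpow_le_rpow_of_exponent_ge hTt ht1 (by linarith)
  have hX3 : T - t ≤ X ^ 3 := by
    calc T - t = (T - t) ^ (1 : ℝ) := (Real.rpow_one _).symm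
      _ ≤ (T - t) ^ (α * (3 : ℕ)) :=
        Real.rpow_le_rpow_of_exponent_ge hTt ht1 (by push_cast; linarith)
      _ = X ^ 3 := by rw [hX, Real.rpow_mul_natCast hTt.le]
  set r := A' / 2 * X with hr
  have hr0 : 0 < r := by positivity
  have hwt := chi_wt'.scale x₀ hr0
  -- a time close to `T`
  have e1 := hx₀ r hr0 (η / 2) (by positivity)
  have e2 : ∀ᶠ s in 𝓝[<] T, s ∈ Ioo t T := ev_iff.2 ⟨t, ht.2, fun s hs => hs⟩
  obtain ⟨s, hs1, hs2⟩ := (e1.and e2).exists
  have hs3 : s ∈ Ioo t₀ T := ⟨ht'.1.trans hs2.1, hs2.2⟩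
  have hv := h.variation hT ht₀ hA hα hG hwt (b1 := KC / r) (b3 := KC / r ^ 3)
    (fun x => by
      rw [abs_div, abs_of_pos hr0]
      gcongr
      exact chi_wt'.b1 _)
    (fun x => by
      rw [abs_div, abs_of_pos (show 0 < r ^ 3 by positivity)]
      gcongr
      exact chi_wt'.b3 _) ht' hs3 hs2.1.le
  rw [← hE, ← hM] at hv
  have hvb : vb T A α E M (KC / r) (KC / r ^ 3) t ≤ L / A' := by
    rw [vb, ← hX]
    have c1 : KC / r * (8 * A / α * X + 10 * |E| * (T - t)) ≤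
        KC / r * ((8 * A / α + 10 * |E|) * X) := by
      refine mul_le_mul_of_nonneg_left ?_ (by positivity)
      have := mul_le_mul_of_nonneg_left hXa (show 0 ≤ 10 * |E| by positivity)
      linarith
    have c2 : KC / r * ((8 * A / α + 10 * |E|) * X) = 2 * KC * (8 * A / α + 10 * |E|) / A' := by
      rw [hr]
      field_simp
    have c3 : KC / r ^ 3 * M * (T - t) ≤ KC / r ^ 3 * M * X ^ 3 :=
      mul_le_mul_of_nonneg_left hX3 (by positivity)
    have c4 : KC / r ^ 3 * M * X ^ 3 = 8 * KC * M / A' ^ 3 := by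
      rw [hr]
      field_simp
      ring
    have c5 : 8 * KC * M / A' ^ 3 ≤ 8 * KC * M / A' := by
      apply div_le_div_of_nonneg_left (by positivity) hA'0
      exact le_self_pow₀ hA'1 (by norm_num)
    rw [hL, add_div]
    linarith
  have b := le_win (h.int_u ht0) (fun x => sq_nonneg _) x₀ hr0
  have e3 : 2 * r = A' * X := by rw [hr]; ring
  rw [e3] at b
  have := (abs_le.1 (hv.trans (hvb.trans hLA))).2
  linarith

/-- the measures `u(t)² dx` converge weakly -/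
lemma H1Sol.weak (h : H1Sol T u v) (hT : 0 < T) {A α t₀ : ℝ} (ht₀ : 0 ≤ t₀) (ht₀T : t₀ < T)
    (hA : 0 ≤ A) (hα : 0 < α)
    (hG : ∀ t ∈ Ioo t₀ T, ∫ x, v t x ^ 2 ≤ A * (T - t) ^ (α - 1))
    {φ : ℝ → ℝ} (hφ : Continuous φ) {B : ℝ} (hB : ∀ x, |φ x| ≤ B) :
    ∃ L, Tendsto (fun t => ∫ x, φ x * u t x ^ 2) (𝓝[<] T) (𝓝 L) := by
  rw [← cauchy_map_iff_exists_tendsto, Metric.cauchy_iff]
  refine ⟨inferInstance, fun ε hε => ?_⟩
  set M := ∫ x, u (T / 2) x ^ 2 with hM
  have hM0 : 0 ≤ M := integral_nonneg fun x => sq_nonneg _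
  have hB0 : 0 ≤ B := (abs_nonneg _).trans (hB 0)
  set δ := min 1 (ε / (8 * (M + 2 * B + 2))) with hδ
  have hδ0 : 0 < δ := lt_min one_pos (by positivity)
  have hδ1 : δ ≤ 1 := min_le_left _ _
  have hδ2 : δ * (M + 2 * B + 1) ≤ ε / 8 := by
    have h1 : δ ≤ ε / (8 * (M + 2 * B + 2)) := min_le_right _ _
    rw [le_div_iff₀ (by positivity)] at h1
    nlinarith
  obtain ⟨R, hR, hRt⟩ := h.tight hT ht₀ ht₀T hA hα hG hδ0
  obtain ⟨p, hp⟩ := exists_polynomial_near_of_continuousOn (-(2 * R)) (2 * R) φ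
    hφ.continuousOn δ hδ0
  have hcs : ContDiff ℝ ((⊤ : ℕ∞) : WithTop ℕ∞) (fun x => p.eval x * chi ((x - 0) / R)) := by
    have h1 : ContDiff ℝ ((⊤ : ℕ∞) : WithTop ℕ∞) chi := by
      have e : chi = (bump : ℝ → ℝ) := rfl
      rw [e]; exact bump.contDiff
    have h2 : ContDiff ℝ ((⊤ : ℕ∞) : WithTop ℕ∞) (fun x : ℝ => (x - 0) / R) := by fun_prop
    have h3 : ContDiff ℝ ((⊤ : ℕ∞) : WithTop ℕ∞) (fun x : ℝ => p.eval x) := by
      have := Polynomial.contDiff_aeval (𝕜 := ℝ) p ((⊤ : ℕ∞) : WithTop ℕ∞)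
      simpa using this
    exact h3.mul (h1.comp h2)
  have hsupp : HasCompactSupport (fun x => p.eval x * chi ((x - 0) / R)) := by
    refine HasCompactSupport.intro (isCompact_closedBall (0 : ℝ) (2 * R)) fun x hx => ?_
    rw [mem_closedBall_zero_iff, Real.norm_eq_abs, not_le] at hx
    rw [chi_zero, mul_zero]
    rw [sub_zero, abs_div, abs_of_pos hR, le_div_iff₀ hR]
    exact hx.le
  obtain ⟨K, hK⟩ := smooth_wt hcs hsupp
  set ψ : ℝ → ℝ := fun x => p.eval x * chi ((x - 0) / R) with hψ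
  obtain ⟨l, hl0, hlT, hl⟩ := h.cauchy hT ht₀ ht₀T hA hα hG hK
    (show 0 < ε / 4 by positivity)
  obtain ⟨l', hl'T, hl'⟩ := ev_iff.1 hRt
  have happ : ∀ t ∈ Ioo (max l l') T,
      |(∫ x, φ x * u t x ^ 2) - ∫ x, ψ x * u t x ^ 2| ≤ ε / 8 := by
    intro t ht
    have ht1 : t ∈ Ioo l' T := ⟨lt_of_le_of_lt (le_max_right _ _) ht.1, ht.2⟩
    have ht2 : t ∈ Ioo l T := ⟨lt_of_le_of_lt (le_max_left _ _) ht.1, ht.2⟩
    have ht0 : t ∈ Ioo 0 T := ⟨lt_of_le_of_lt (ht₀.trans hl0) ht2.1, ht.2⟩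
    have iu := h.int_u ht0
    have mu := h.memU t ⟨ht0.1.le, ht0.2⟩
    have hS : MeasurableSet {x : ℝ | R < |x|} := measurableSet_lt measurable_const measurable_abs
    have i1 : Integrable (fun x => φ x * u t x ^ 2) :=
      integrable_sq_bdd mu hφ.aestronglyMeasurable hB
    have i2 : Integrable (fun x => ψ x * u t x ^ 2) :=
      integrable_sq_bdd mu hK.c0.aestronglyMeasurable hK.b0
    have i3 : Integrable (fun x => δ * u t x ^ 2 +
        (2 * B + 1) * indicator {x : ℝ | R < |x|} (fun x => u t x ^ 2) x) :=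
      (iu.const_mul δ).add ((iu.indicator hS).const_mul _)
    rw [← integral_sub i1 i2]
    have e3 : ∫ x, (δ * u t x ^ 2 +
        (2 * B + 1) * indicator {x : ℝ | R < |x|} (fun x => u t x ^ 2) x) =
        δ * M + (2 * B + 1) * ∫ x in {x : ℝ | R < |x|}, u t x ^ 2 := by
      rw [integral_add (iu.const_mul δ) ((iu.indicator hS).const_mul _), integral_const_mul,
        integral_const_mul, integral_indicator hS, h.mass_eq hT ht0]
    have key : |∫ x, (φ x * u t x ^ 2 - ψ x * u t x ^ 2)| ≤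
        δ * M + (2 * B + 1) * ∫ x in {x : ℝ | R < |x|}, u t x ^ 2 := by
      rw [← e3, ← Real.norm_eq_abs]
      refine norm_integral_le_of_norm_le i3 ?_
      filter_upwards with x
      rw [Real.norm_eq_abs, ← sub_mul, abs_mul, abs_of_nonneg (sq_nonneg (u t x))]
      have hc0 := chi_nonneg ((x - 0) / R)
      have hc1 := chi_le_one ((x - 0) / R)
      by_cases hx : x ∈ {x : ℝ | R < |x|}
      · rw [indicator_of_mem hx]
        have hb : |φ x - ψ x| ≤ 2 * B + 1 := by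
          by_cases hx2 : |x| ≤ 2 * R
          · have hx3 : x ∈ Icc (-(2 * R)) (2 * R) := abs_le.1 hx2
            have h1 := (hp x hx3).le
            have h2 : |p.eval x| ≤ B + 1 := by
              have e : p.eval x = (p.eval x - φ x) + φ x := by ring
              rw [e]
              exact (abs_add_le _ _).trans (by linarith [hB x])
            have h3 : |ψ x| ≤ B + 1 := by
              simp only [hψ]
              rw [abs_mul, abs_of_nonneg hc0]
              nlinarith [abs_nonneg (p.eval x)]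
            exact (abs_sub _ _).trans (by linarith [hB x])
          · have h3 : ψ x = 0 := by
              simp only [hψ]
              rw [chi_zero, mul_zero]
              rw [sub_zero, abs_div, abs_of_pos hR, le_div_iff₀ hR]
              exact (not_le.1 hx2).le
            rw [h3, sub_zero]
            linarith [hB x]
        have := mul_le_mul_of_nonneg_right hb (sq_nonneg (u t x))
        have := mul_nonneg hδ0.le (sq_nonneg (u t x))
        linarith
      · rw [indicator_of_notMem hx, mul_zero, add_zero]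
        simp only [mem_ofPred_eq, not_lt] at hx
        have hx3 : x ∈ Icc (-(2 * R)) (2 * R) := abs_le.1 (hx.trans (by linarith))
        have h1 := (hp x hx3).le
        have h2 : ψ x = p.eval x := by
          simp only [hψ]
          rw [chi_one, mul_one]
          rw [sub_zero, abs_div, abs_of_pos hR, div_le_one hR]
          exact hx
        rw [h2, abs_sub_comm]
        exact mul_le_mul_of_nonneg_right h1 (sq_nonneg _)
    have hm := hl' t ht1
    have : (2 * B + 1) * (∫ x in {x : ℝ | R < |x|}, u t x ^ 2) ≤ (2 * B + 1) * δ :=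
      mul_le_mul_of_nonneg_left hm (by positivity)
    refine key.trans ?_
    nlinarith
  refine ⟨(fun t => ∫ x, φ x * u t x ^ 2) '' Ioo (max l l') T, ?_, ?_⟩
  · refine image_mem_map (ev_iff.2 ⟨max l l', max_lt hlT hl'T, fun t ht => ht⟩)
  · rintro _ ⟨s, hs, rfl⟩ _ ⟨t, ht, rfl⟩
    have a1 := happ s hs
    have a2 := happ t ht
    have a3 := hl t ⟨lt_of_le_of_lt (le_max_left _ _) ht.1, ht.2⟩ s
      ⟨lt_of_le_of_lt (le_max_left _ _) hs.1, hs.2⟩
    simp only
    rw [Real.dist_eq, abs_lt]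
    rw [abs_le] at a1 a2 a3
    constructor <;> linarith [a1.1, a1.2, a2.1, a2.2, a3.1, a3.2]

/-- a bounded primitive of the cut-off -/
lemma prim_wt {R : ℝ} (hR : 0 < R) :
    ∃ (ψ : ℝ → ℝ) (K : ℝ), Wt ψ (fun x => chi ((x - 0) / R)) (fun x => chi1 ((x - 0) / R) / R)
      (fun x => chi2 ((x - 0) / R) / R ^ 2) K := by
  have hw := chi_wt'.scale 0 hR
  have hc := hw.c0
  have hsupp : HasCompactSupport (fun x => chi ((x - 0) / R)) := by
    refine HasCompactSupport.intro (isCompact_closedBall (0 : ℝ) (2 * R)) fun x hx => ?_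
    rw [mem_closedBall_zero_iff, Real.norm_eq_abs, not_le] at hx
    rw [chi_zero]
    rw [sub_zero, abs_div, abs_of_pos hR, le_div_iff₀ hR]
    exact hx.le
  have hi : Integrable (fun x => chi ((x - 0) / R)) := hc.integrable_of_hasCompactSupport hsupp
  set P := ∫ x, ‖chi ((x - 0) / R)‖ with hP
  set K0 := KC * (1 + 1 / R + 1 / R ^ 2 + 1 / R ^ 3) with hK0
  refine ⟨fun x => ∫ y in (0 : ℝ)..x, chi ((y - 0) / R), max P K0, ?_⟩
  exact
    { d0 := fun x => intervalIntegral.integral_hasDerivAt_right (hc.intervalIntegrable _ _)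
        (hc.stronglyMeasurableAtFilter _ _) hc.continuousAt
      d1 := hw.d0
      d2 := hw.d1
      c3 := hw.c2
      b0 := fun x => by
        refine le_trans ?_ (le_max_left _ _)
        rw [← Real.norm_eq_abs]
        refine (intervalIntegral.norm_integral_le_integral_norm_uIoc).trans ?_
        exact setIntegral_le_integral hi.norm (Eventually.of_forall fun x => norm_nonneg _)
      b1 := fun x => (hw.b0 x).trans (le_max_right _ _)
      b2 := fun x => (hw.b1 x).trans (le_max_right _ _)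
      b3 := fun x => (hw.b2 x).trans (le_max_right _ _) }

/-- algebra of the flux bound -/
lemma flux_algebra {κ c E G D S F Z M μ q c' θ C₀ KM : ℝ} (hκ : 0 < κ)
    (hc0 : 0 ≤ c) (hq : q = 20 / (3 * κ ^ 2)) (hc' : c' = 5 * c / (3 * κ ^ 2))
    (hμ0 : 0 < μ) (hμ2 : μ ≤ 2) (hμ5 : μ ≤ 5 - q) (hθ : θ = μ / (6 * (c' + 1)))
    (hD1 : 0 ≤ D) (hD2 : D ≤ G) (hZ : -KM ≤ Z)
    (key : κ ^ 2 * (3 * G - 6 * E - S) ≤ 4 * (G - D) + c * F)
    (h4 : F ≤ θ * (3 * G - 6 * E) + 1 / (4 * θ) * M)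
    (hM : 0 ≤ M)
    (hbig : 3 / (2 * μ) * M * (c' + 1) ^ 2 ≤ μ / 4 * G + C₀) :
    μ / 4 * G - (10 * |E| + μ * |E| + C₀ + KM) ≤ -(3 * D) + 5 / 3 * S + Z := by
  have hκ2 : 0 < κ ^ 2 := by positivity
  have hc'0 : 0 ≤ c' := by rw [hc']; positivity
  have hθ0 : 0 < θ := by rw [hθ]; positivity
  have hG0 : 0 ≤ G := hD1.trans hD2
  have e0 : θ * (6 * (c' + 1)) = μ := by rw [hθ]; field_simp
  have hcθ : 6 * (c' * θ) ≤ μ := by nlinarith
  have m1 : 5 / 3 * (3 * G - 6 * E - S) ≤ q * (G - D) + c' * F := by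
    have e1 : q * (G - D) + c' * F = 5 / (3 * κ ^ 2) * (4 * (G - D) + c * F) := by
      rw [hq, hc']
      field_simp
      ring
    have e2 : 5 / 3 * (3 * G - 6 * E - S) = 5 / (3 * κ ^ 2) * (κ ^ 2 * (3 * G - 6 * E - S)) := by
      field_simp
    rw [e1, e2]
    exact mul_le_mul_of_nonneg_left key (by positivity)
  have m2 : c' * F ≤ c' * (θ * (3 * G - 6 * E) + 1 / (4 * θ) * M) :=
    mul_le_mul_of_nonneg_left h4 hc'0
  have m3 : 6 * (c' * θ) * G ≤ μ * G := mul_le_mul_of_nonneg_right hcθ hG0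
  have m4 : μ * G ≤ (q - 3) * D + (5 - q) * G := by
    rcases le_total 3 q with h3q | h3q
    · nlinarith
    · nlinarith
  have m6 : 6 * (c' * θ) * -|E| ≤ 6 * (c' * θ) * E :=
    mul_le_mul_of_nonneg_left (neg_abs_le E) (by positivity)
  have m6' : 6 * (c' * θ) * |E| ≤ μ * |E| := mul_le_mul_of_nonneg_right hcθ (abs_nonneg _)
  have m7 := le_abs_self E
  have m8 : c' * (θ * (3 * G - 6 * E) + 1 / (4 * θ) * M) =
      3 * (c' * θ) * G - 6 * (c' * θ) * E + c' * (1 / (4 * θ) * M) := by ring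
  have m9 : c' * (1 / (4 * θ) * M) ≤ 3 / (2 * μ) * M * (c' + 1) ^ 2 := by
    have e1 : 1 / (4 * θ) = 3 / (2 * μ) * (c' + 1) := by
      rw [hθ]
      field_simp
      ring
    rw [e1]
    have : c' * (3 / (2 * μ) * (c' + 1) * M) = 3 / (2 * μ) * M * (c' * (c' + 1)) := by ring
    rw [this]
    refine mul_le_mul_of_nonneg_left ?_ (by positivity)
    nlinarith
  linarith

/-- escape of a bubble if the rate is at least `1/2` -/
lemma H1Sol.escape (h : H1Sol T u v) (hT : 0 < T) {C ν t₀ : ℝ} (ht₀ : 0 ≤ t₀) (ht₀T : t₀ < T)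
    (hC : 0 < C) (hν : 1 / 2 ≤ ν)
    (hG : ∀ t ∈ Ioo t₀ T, C * (T - t) ^ (-(2 * ν)) ≤ ∫ x, v t x ^ 2)
    {η : ℝ} (hη : 0 < η) (hηQ : η < massQ) :
    ∃ A > 0, ∀ R > 0, ∃ᶠ t in 𝓝[<] T, ∃ y, R < |y| ∧
      massQ - η ≤ ∫ x in {x : ℝ | |x - y| ≤ A * (T - t) ^ ν}, u t x ^ 2 := by
  obtain ⟨κ, hκ, hκ4, hκm⟩ := exists_kappa (m := massQ - η / 2) (by linarith) (by linarith)
  set E := energy (u (T / 2)) (v (T / 2)) with hE
  set M := ∫ x, u (T / 2) x ^ 2 with hM
  have hM0 : 0 ≤ M := integral_nonneg fun x => sq_nonneg _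
  have hKC := KC_nonneg
  set a := κ * Real.tan (κ * (massQ - η / 2) / 2) with ha
  have htan : 0 ≤ Real.tan (κ * (massQ - η / 2) / 2) :=
    Real.tan_nonneg_of_nonneg_of_le_pi_div_two
      (by have : 0 ≤ massQ - η / 2 := by linarith
          positivity) (by linarith)
  have ha0 : 0 ≤ a := by positivity
  set q := 20 / (3 * κ ^ 2) with hq
  have hκ2 : 0 < κ ^ 2 := by positivity
  have hq5 : q < 5 := by
    rw [hq, div_lt_iff₀ (by positivity)]
    linarith
  set μ := min 2 (5 - q) with hμ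
  have hμ0 : 0 < μ := lt_min (by norm_num) (by linarith)
  have hμ2 : μ ≤ 2 := min_le_left _ _
  have hμ5 : μ ≤ 5 - q := min_le_right _ _
  set a₁ := 5 * (a * Real.pi) / (3 * κ ^ 2) with ha₁
  have ha₁0 : 0 ≤ a₁ := by positivity
  set A := 1 + 24 * M * a₁ ^ 2 / (μ ^ 2 * C) with hA
  have hA0 : 0 ≤ 24 * M * a₁ ^ 2 / (μ ^ 2 * C) := by positivity
  have hA1 : 1 ≤ A := by rw [hA]; linarith
  have hA2 : 24 * M * a₁ ^ 2 ≤ A ^ 2 * (μ ^ 2 * C) := by
    have h1 : A ≤ A ^ 2 := by nlinarith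
    have h2 : 24 * M * a₁ ^ 2 / (μ ^ 2 * C) ≤ A ^ 2 := by
      have : 24 * M * a₁ ^ 2 / (μ ^ 2 * C) ≤ A := by rw [hA]; linarith
      linarith
    rwa [div_le_iff₀ (by positivity)] at h2
  have hApos : 0 < A := by linarith
  refine ⟨A, hApos, fun R hR hcon => ?_⟩
  have hR1 : 0 < R + 1 := by linarith
  obtain ⟨ψ, K, hψ⟩ := prim_wt hR1
  have hK0 : 0 ≤ K := (abs_nonneg _).trans (hψ.b0 0)
  set a₂ := 10 * (a * (KC / (R + 1))) / (3 * κ ^ 2) with ha₂
  have ha₂0 : 0 ≤ a₂ := by positivity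
  set C₁ := 3 / μ * M * (a₂ + 1) ^ 2 with hC₁
  set C₀ := 10 * |E| + μ * |E| + C₁ + K * M with hC₀
  have hC₁0 : 0 ≤ C₁ := by positivity
  have hC₀0 : 0 ≤ C₀ := by positivity
  -- times close to `T`
  have hsmall : ∀ᶠ t in 𝓝[<] T, A * (T - t) ^ ν < 1 := by
    have h1 : Tendsto (fun t => T - t) (𝓝[<] T) (𝓝 0) :=
      tendsto_sub_nhdsGT.mono_right nhdsWithin_le_nhds
    have h2 := h1.rpow_const (p := ν) (Or.inr (by linarith))
    rw [Real.zero_rpow (by linarith)] at h2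
    have h3 := h2.const_mul A
    rw [mul_zero] at h3
    exact h3.eventually_lt_const one_pos
  obtain ⟨l, hlT, hl⟩ := ev_iff.1 (hcon.and hsmall)
  set l' := max l (max t₀ (T - 1)) with hl'
  have hl'T : l' < T := max_lt hlT (max_lt ht₀T (by linarith))
  have hflux : ∀ t ∈ Ioo l' T, μ / 4 * C / (T - t) - C₀ ≤
      massFlux (fun x => chi ((x - 0) / (R + 1)))
        (fun x => chi2 ((x - 0) / (R + 1)) / (R + 1) ^ 2) (u t) (v t) := by
    intro t ht
    have ht1 : t ∈ Ioo l T := ⟨lt_of_le_of_lt (le_max_left _ _) ht.1, ht.2⟩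
    have ht2 : t ∈ Ioo t₀ T :=
      ⟨lt_of_le_of_lt ((le_max_left _ _).trans (le_max_right _ _)) ht.1, ht.2⟩
    have ht3 : T - t ≤ 1 := by
      have := lt_of_le_of_lt ((le_max_right t₀ (T - 1)).trans (le_max_right l _)) ht.1
      linarith
    have ht0 : t ∈ Ioo 0 T := ⟨lt_of_le_of_lt ht₀ ht2.1, ht.2⟩
    have hTt : 0 < T - t := sub_pos.2 ht.2
    obtain ⟨hout, hρ1⟩ := hl t ht1
    push Not at hout
    set ρ := A * (T - t) ^ ν with hρ
    have hρ0 : 0 < ρ := mul_pos hApos (Real.rpow_pos_of_pos hTt _)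
    have iv := h.int_v ht0
    have i6 := h.int_u6 ht0
    have iu := h.int_u ht0
    have hw := chi_wt'.scale 0 hR1
    set χ : ℝ → ℝ := fun x => chi ((x - 0) / (R + 1)) with hχ
    have hχ0 : ∀ x, 0 ≤ χ x := fun x => chi_nonneg _
    have hχ1 : ∀ x, χ x ≤ 1 := fun x => chi_le_one _
    have hχb : ∀ x, |χ x| ≤ 1 := fun x => by rw [abs_of_nonneg (hχ0 x)]; exact hχ1 x
    have key := h.gnW ht0 (ρ := ρ) (m := massQ - η) (m' := massQ - η / 2) (κ := κ)
      (B := KC / (R + 1)) hρ0 (ω := fun x => 1 - χ x)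
      (ω' := fun x => -(chi1 ((x - 0) / (R + 1)) / (R + 1)))
      (fun x => by
        have := (hw.d0 x).const_sub 1
        exact this)
      hw.c1.neg (fun x => by linarith [hχ1 x]) (fun x => by linarith [hχ0 x])
      (fun x => by
        rw [abs_neg, abs_div, abs_of_pos hR1]
        gcongr
        exact chi_wt'.b1 _) (by linarith)
      (fun y => by
        rcases le_or_gt |y + ρ| R with hy | hy
        · left
          intro x hx
          simp only [hχ]
          rw [chi_one, sub_self]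
          rw [sub_zero, abs_div, abs_of_pos hR1, div_le_one hR1]
          rw [abs_le] at hy ⊢
          constructor <;> linarith [hy.1, hy.2, hx.1, hx.2]
        · right
          refine (int_le_set iu (fun x => sq_nonneg _) (by linarith) ?_).trans
            (hout (y + ρ) hy).le
          intro x hx
          simp only [mem_ofPred_eq]
          rw [abs_le]
          constructor <;> linarith [hx.1, hx.2])
      (by linarith) hκ hκm
    rw [← ha] at key
    obtain ⟨Kt, hKt⟩ := h.exists_bound ht0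
    have j1 : Integrable (fun x => χ x * v t x ^ 2) :=
      integrable_sq_bdd (h.memV t ⟨ht0.1.le, ht0.2⟩) hw.c0.aestronglyMeasurable hχb
    have j2 : Integrable (fun x => χ x * u t x ^ 6) :=
      integrable_pow_bdd (h.memU t ⟨ht0.1.le, ht0.2⟩) hKt hw.c0.aestronglyMeasurable hχb 4
    have s1 : ∫ x, (1 - χ x) * v t x ^ 2 = (∫ x, v t x ^ 2) - ∫ x, χ x * v t x ^ 2 := by
      rw [← integral_sub iv j1]
      congr 1
      ext x
      ring
    have s2 : ∫ x, (1 - χ x) * u t x ^ 6 = (∫ x, u t x ^ 6) - ∫ x, χ x * u t x ^ 6 := by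
      rw [← integral_sub i6 j2]
      congr 1
      ext x
      ring
    rw [s1, s2, h.six hT ht0, ← hE] at key
    set c := a * (Real.pi / ρ + 2 * (KC / (R + 1))) with hc
    have hc0 : 0 ≤ c := by positivity
    set c' := 5 * c / (3 * κ ^ 2) with hc'
    have hc'0 : 0 ≤ c' := by positivity
    have hce : c' = a₁ / ρ + a₂ := by
      rw [hc', hc, ha₁, ha₂]
      field_simp
      ring
    set θ := μ / (6 * (c' + 1)) with hθ
    have hθ0 : 0 < θ := by positivity
    have h4 := h.four_le hT ht0 hθ0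
    rw [← hE, ← hM] at h4
    have hD1 : 0 ≤ ∫ x, χ x * v t x ^ 2 :=
      integral_nonneg fun x => mul_nonneg (hχ0 x) (sq_nonneg _)
    have hD2 : ∫ x, χ x * v t x ^ 2 ≤ ∫ x, v t x ^ 2 := by
      refine integral_mono j1 iv fun x => ?_
      simp only
      nlinarith [hχ1 x, sq_nonneg (v t x)]
    have h3 : |∫ x, chi2 ((x - 0) / (R + 1)) / (R + 1) ^ 2 * u t x ^ 2| ≤ K * M := by
      rw [hM, ← h.mass_eq hT ht0, ← integral_const_mul, ← Real.norm_eq_abs]
      refine norm_integral_le_of_norm_le (iu.const_mul K) ?_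
      filter_upwards with x
      rw [Real.norm_eq_abs, abs_mul, abs_of_nonneg (sq_nonneg (u t x))]
      exact mul_le_mul_of_nonneg_right (hψ.b3 x) (sq_nonneg _)
    have hGt := hG t ht2
    have hZ := (abs_le.1 h3).1
    -- `1 / ρ² ≤ G / (A² C)`
    have hρG : A ^ 2 * C ≤ ρ ^ 2 * ∫ x, v t x ^ 2 := by
      have e1 : ρ ^ 2 * (C * (T - t) ^ (-(2 * ν))) = A ^ 2 * C := by
        have e2 : ((T - t) ^ ν) ^ 2 * (T - t) ^ (-(2 * ν)) = 1 := by
          rw [← Real.rpow_natCast ((T - t) ^ ν) 2, ← Real.rpow_mul hTt.le, ← Real.rpow_add hTt]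
          norm_num
          ring_nf
          simp
        rw [hρ, mul_pow]
        linear_combination (A ^ 2 * C) * e2
      rw [← e1]
      exact mul_le_mul_of_nonneg_left hGt (by positivity)
    have hbig : 3 / (2 * μ) * M * (c' + 1) ^ 2 ≤ μ / 4 * (∫ x, v t x ^ 2) + C₁ := by
      have b1 : (c' + 1) ^ 2 ≤ 2 * (a₁ / ρ) ^ 2 + 2 * (a₂ + 1) ^ 2 := by
        rw [hce]
        nlinarith [sq_nonneg (a₁ / ρ - (a₂ + 1))]
      have b2 : 3 / (2 * μ) * M * (c' + 1) ^ 2 ≤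
          3 / (2 * μ) * M * (2 * (a₁ / ρ) ^ 2 + 2 * (a₂ + 1) ^ 2) :=
        mul_le_mul_of_nonneg_left b1 (by positivity)
      have b3 : 3 / (2 * μ) * M * (2 * (a₁ / ρ) ^ 2 + 2 * (a₂ + 1) ^ 2) =
          3 * M * a₁ ^ 2 / (μ * ρ ^ 2) + C₁ := by
        rw [hC₁]
        field_simp
      have b4 : 3 * M * a₁ ^ 2 / (μ * ρ ^ 2) ≤ μ / 4 * (∫ x, v t x ^ 2) := by
        rw [div_le_iff₀ (by positivity)]
        have b5 : μ / 4 * (∫ x, v t x ^ 2) * (μ * ρ ^ 2) =
            μ ^ 2 / 4 * (ρ ^ 2 * ∫ x, v t x ^ 2) := by ring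
        rw [b5]
        have b6 : μ ^ 2 / 4 * (A ^ 2 * C) ≤ μ ^ 2 / 4 * (ρ ^ 2 * ∫ x, v t x ^ 2) :=
          mul_le_mul_of_nonneg_left hρG (by positivity)
        have b7 : 0 ≤ M * a₁ ^ 2 := by positivity
        linarith
      linarith
    have hfin := flux_algebra hκ hc0 hq hc' hμ0 hμ2 hμ5 hθ hD1 hD2 hZ key h4 hM0 hbig
    rw [massFlux]
    refine le_trans ?_ hfin
    have m1 : C / (T - t) ≤ ∫ x, v t x ^ 2 := by
      refine le_trans ?_ hGt
      rw [div_eq_mul_inv, ← Real.rpow_neg_one]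
      refine mul_le_mul_of_nonneg_left ?_ hC.le
      exact Real.rpow_le_rpow_of_exponent_ge hTt ht3 (by linarith)
    have m5 : μ / 4 * (C / (T - t)) ≤ μ / 4 * ∫ x, v t x ^ 2 :=
      mul_le_mul_of_nonneg_left m1 (by positivity)
    have e5 : μ / 4 * C / (T - t) = μ / 4 * (C / (T - t)) := by ring
    rw [e5, hC₀]
    linarith
  -- integrate in time
  set s := (l' + T) / 2 with hs
  have hsm : s ∈ Ioo l' T := ⟨by rw [hs]; linarith, by rw [hs]; linarith⟩
  have hbd : ∀ t ∈ Ioo 0 T, |∫ x, ψ x * u t x ^ 2| ≤ K * M := by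
    intro t ht
    have iu := h.int_u ht
    rw [hM, ← h.mass_eq hT ht, ← integral_const_mul, ← Real.norm_eq_abs]
    refine norm_integral_le_of_norm_le (iu.const_mul K) ?_
    filter_upwards with x
    rw [Real.norm_eq_abs, abs_mul, abs_of_nonneg (sq_nonneg (u t x))]
    exact mul_le_mul_of_nonneg_right (hψ.b0 x) (sq_nonneg _)
  have hl'0 : 0 ≤ l' := ht₀.trans ((le_max_left _ _).trans (le_max_right _ _))
  have hgrow : ∀ t ∈ Ioo s T, -(μ / 4 * C * Real.log (T - t)) ≤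
      2 * (K * M) + C₀ * T - μ / 4 * C * Real.log (T - s) := by
    intro t ht
    have hmem : ∀ x ∈ Icc s t, x ∈ Ioo l' T := fun x hx =>
      ⟨lt_of_lt_of_le hsm.1 hx.1, lt_of_le_of_lt hx.2 ht.2⟩
    have hmem0 : ∀ x ∈ Icc s t, x ∈ Ioo 0 T := fun x hx =>
      ⟨lt_of_le_of_lt hl'0 (hmem x hx).1, (hmem x hx).2⟩
    have key := mvt_le (F := fun τ => ∫ x, ψ x * u τ x ^ 2)
      (g := fun τ => -(μ / 4 * C * Real.log (T - τ)) - C₀ * τ)
      (F' := fun τ => massFlux (fun x => chi ((x - 0) / (R + 1)))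
        (fun x => chi2 ((x - 0) / (R + 1)) / (R + 1) ^ 2) (u τ) (v τ))
      (g' := fun τ => μ / 4 * C / (T - τ) - C₀) ht.1.le
      (fun x hx => h.mass_deriv hψ (hmem0 x hx))
      (fun x hx => by
        have h0 : T - x ≠ 0 := (sub_pos.2 (hmem x hx).2).ne'
        have a1 : HasDerivAt (fun τ : ℝ => T - τ) (-1) x := by
          simpa using (hasDerivAt_id x).const_sub T
        have a2 := (((a1.log h0).const_mul (μ / 4 * C)).neg).sub
          ((hasDerivAt_id x).const_mul C₀)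
        refine a2.congr_deriv ?_
        ring)
      (fun x hx => hflux x (hmem x hx))
    have b1 := (abs_le.1 (hbd t (hmem0 t ⟨ht.1.le, le_refl _⟩))).2
    have b2 := (abs_le.1 (hbd s (hmem0 s ⟨le_refl _, ht.1.le⟩))).1
    have b3 : C₀ * (t - s) ≤ C₀ * T := by
      refine mul_le_mul_of_nonneg_left ?_ hC₀0
      have := hsm.1
      linarith [ht.2]
    linarith
  have hlog : Tendsto (fun t => -(μ / 4 * C * Real.log (T - t))) (𝓝[<] T) atTop := by
    have h1 : Tendsto (fun t => Real.log (T - t)) (𝓝[<] T) atBot :=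
      Real.tendsto_log_nhdsGT_zero.comp tendsto_sub_nhdsGT
    have h2 : Tendsto (fun t => μ / 4 * C * Real.log (T - t)) (𝓝[<] T) atBot :=
      h1.const_mul_atBot (by positivity)
    exact tendsto_neg_atBot_atTop.comp h2
  have e1 := hlog.eventually_gt_atTop
    (2 * (K * M) + C₀ * T - μ / 4 * C * Real.log (T - s))
  have e2 : ∀ᶠ t in 𝓝[<] T, t ∈ Ioo s T := ev_iff.2 ⟨s, hsm.2, fun t ht => ht⟩
  obtain ⟨t, ht1, ht2⟩ := (e1.and e2).exists
  have := hgrow t ht2
  linarith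

end

end Pool.Agent.Lib_helper19.KdV
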