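import Mathlib

/-!
A localised sharp Gagliardo-Nirenberg inequality on an interval (Picone identity in the mass
variable).
-/

namespace Pool.Agent.Lib_helper19.KdV

open MeasureTheory Set Filter Topology

/-- Local sharp inequality on `[a, b]`: if the mass on `[a, b]` is at most `m` and `κ m < π`. -/
lemma gn_interval {a b m κ : ℝ} (hab : a ≤ b) {f f' ω ω' : ℝ → ℝ}
    (hf : ∀ x, HasDerivAt f (f' x) x) (hf' : Continuous f')
    (hω : ∀ x, HasDerivAt ω (ω' x) x) (hω' : Continuous ω') (hω0 : ∀ x ∈ Icc a b, 0 ≤ ω x)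
    (hm : ∫ x in a..b, f x ^ 2 ≤ m) (hκ : 0 < κ) (hκm : κ * m < Real.pi) :
    κ ^ 2 * ∫ x in a..b, ω x * f x ^ 6 ≤
      4 * (∫ x in a..b, ω x * f' x ^ 2) +
        κ * Real.tan (κ * m / 2) * ((∫ x in a..b, |ω' x| * f x ^ 4) +
          ω a * f a ^ 4 + ω b * f b ^ 4) := by
  have hfc : Continuous f := continuous_iff_continuousAt.2 fun x => (hf x).continuousAt
  have hωc : Continuous ω := continuous_iff_continuousAt.2 fun x => (hω x).continuousAt
  set Y : ℝ → ℝ := fun x => ∫ y in a..x, f y ^ 2 with hY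
  have hYd : ∀ x, HasDerivAt Y (f x ^ 2) x := fun x =>
    intervalIntegral.integral_hasDerivAt_right ((hfc.pow 2).intervalIntegrable _ _)
      ((hfc.pow 2).stronglyMeasurableAtFilter _ _) (hfc.pow 2).continuousAt
  have hYc : Continuous Y := continuous_iff_continuousAt.2 fun x => (hYd x).continuousAt
  have hm0 : 0 ≤ m := le_trans (intervalIntegral.integral_nonneg hab fun x _ => by positivity) hm
  have hY0 : ∀ x ∈ Icc a b, 0 ≤ Y x := fun x hx =>
    intervalIntegral.integral_nonneg hx.1 fun y _ => by positivity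
  have hYm : ∀ x ∈ Icc a b, Y x ≤ m := by
    intro x hx
    have h1 : Y x + ∫ y in x..b, f y ^ 2 = ∫ y in a..b, f y ^ 2 :=
      intervalIntegral.integral_add_adjacent_intervals ((hfc.pow 2).intervalIntegrable _ _)
        ((hfc.pow 2).intervalIntegrable _ _)
    have h2 : 0 ≤ ∫ y in x..b, f y ^ 2 :=
      intervalIntegral.integral_nonneg hx.2 fun y _ => by positivity
    linarith
  set A : ℝ → ℝ := fun x => κ * (m / 2 - Y x) with hA
  have hκm2 : κ * m / 2 < Real.pi / 2 := by linarith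
  have hκm0 : 0 ≤ κ * m / 2 := by positivity
  have hAr : ∀ x ∈ Icc a b, A x ∈ Icc (-(κ * m / 2)) (κ * m / 2) := by
    intro x hx
    have h1 := hY0 x hx
    have h2 := hYm x hx
    constructor
    · simp only [hA]; nlinarith
    · simp only [hA]; nlinarith
  have hcos : ∀ x ∈ Icc a b, 0 < Real.cos (A x) := by
    intro x hx
    have := hAr x hx
    exact Real.cos_pos_of_mem_Ioo ⟨by linarith [this.1], by linarith [this.2]⟩
  set c : ℝ → ℝ := fun x => Real.tan (A x) with hc
  have hcb : ∀ x ∈ Icc a b, |c x| ≤ Real.tan (κ * m / 2) := by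
    intro x hx
    have h := hAr x hx
    rw [abs_le]
    constructor
    · rw [← Real.tan_neg]
      exact Real.strictMonoOn_tan.monotoneOn ⟨by linarith, by linarith⟩
        ⟨by linarith [h.1], by linarith [h.2]⟩ h.1
    · exact Real.strictMonoOn_tan.monotoneOn ⟨by linarith [h.1], by linarith [h.2]⟩
        ⟨by linarith, by linarith⟩ h.2
  have hAd : ∀ x, HasDerivAt A (-(κ * f x ^ 2)) x := by
    intro x
    refine (((hYd x).const_sub (m / 2)).const_mul κ).congr_deriv ?_
    ring
  have hcd : ∀ x ∈ Icc a b, HasDerivAt c (-(κ * f x ^ 2) * (1 + c x ^ 2)) x := by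
    intro x hx
    have h1 := (Real.hasDerivAt_tan (hcos x hx).ne').comp x (hAd x)
    have h2 : 1 / Real.cos (A x) ^ 2 = 1 + Real.tan (A x) ^ 2 := by
      rw [Real.tan_eq_sin_div_cos]
      have := (hcos x hx).ne'
      field_simp
      nlinarith [Real.sin_sq_add_cos_sq (A x)]
    rw [h2] at h1
    refine h1.congr_deriv ?_
    simp only [hc]
    ring
  -- the boundary function
  set Φ : ℝ → ℝ := fun x => κ * (ω x * c x * f x ^ 4) with hΦ
  set Φ' : ℝ → ℝ := fun x => κ * (ω' x * c x * f x ^ 4) -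
      κ ^ 2 * (ω x * f x ^ 6 * (1 + c x ^ 2)) + 4 * κ * (ω x * c x * f x ^ 3 * f' x) with hΦ'
  have hΦd : ∀ x ∈ uIcc a b, HasDerivAt Φ (Φ' x) x := by
    intro x hx
    rw [uIcc_of_le hab] at hx
    have h1 := (((hω x).mul (hcd x hx)).mul ((hf x).pow 4)).const_mul κ
    refine h1.congr_deriv ?_
    simp only [hΦ', Pi.mul_apply, Pi.pow_apply]
    push_cast
    ring
  have hcc : ContinuousOn c (Icc a b) := fun x hx => (hcd x hx).continuousAt.continuousWithinAt
  have hΦ'c : ContinuousOn Φ' (uIcc a b) := by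
    rw [uIcc_of_le hab]
    simp only [hΦ']
    fun_prop
  have hint := intervalIntegral.integral_eq_sub_of_hasDerivAt hΦd hΦ'c.intervalIntegrable
  -- pointwise inequality
  set t := Real.tan (κ * m / 2) with ht
  have ht0 : 0 ≤ t := le_trans (abs_nonneg _) (hcb a ⟨le_refl _, hab⟩)
  set G : ℝ → ℝ := fun x => 4 * (ω x * f' x ^ 2) + κ * t * (|ω' x| * f x ^ 4) -
    κ ^ 2 * (ω x * f x ^ 6) with hG
  have hGc : Continuous G := by
    simp only [hG]
    fun_prop
  have hle : ∀ x ∈ Icc a b, Φ' x ≤ G x := by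
    intro x hx
    have h1 : 0 ≤ ω x * (2 * f' x - κ * c x * f x ^ 3) ^ 2 :=
      mul_nonneg (hω0 x hx) (sq_nonneg _)
    have h2 : ω' x * c x ≤ |ω' x| * t := by
      calc ω' x * c x ≤ |ω' x * c x| := le_abs_self _
        _ = |ω' x| * |c x| := abs_mul _ _
        _ ≤ |ω' x| * t := mul_le_mul_of_nonneg_left (hcb x hx) (abs_nonneg _)
    have h3 : 0 ≤ κ * f x ^ 4 := by positivity
    simp only [hΦ', hG]
    nlinarith [mul_le_mul_of_nonneg_right h2 h3]
  have hmono : ∫ x in a..b, Φ' x ≤ ∫ x in a..b, G x :=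
    intervalIntegral.integral_mono_on hab hΦ'c.intervalIntegrable
      (hGc.intervalIntegrable _ _) hle
  have hGint : ∫ x in a..b, G x = 4 * (∫ x in a..b, ω x * f' x ^ 2) +
      κ * t * (∫ x in a..b, |ω' x| * f x ^ 4) - κ ^ 2 * ∫ x in a..b, ω x * f x ^ 6 := by
    have e1 : IntervalIntegrable (fun x => 4 * (ω x * f' x ^ 2)) volume a b :=
      Continuous.intervalIntegrable (by fun_prop) _ _
    have e2 : IntervalIntegrable (fun x => κ * t * (|ω' x| * f x ^ 4)) volume a b :=
      Continuous.intervalIntegrable (by fun_prop) _ _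
    have e3 : IntervalIntegrable (fun x => κ ^ 2 * (ω x * f x ^ 6)) volume a b :=
      Continuous.intervalIntegrable (by fun_prop) _ _
    simp only [hG]
    rw [intervalIntegral.integral_sub (e1.add e2) e3, intervalIntegral.integral_add e1 e2,
      intervalIntegral.integral_const_mul, intervalIntegral.integral_const_mul,
      intervalIntegral.integral_const_mul]
  have hb1 : -(κ * t * (ω b * f b ^ 4)) ≤ Φ b := by
    have h1 := hcb b ⟨hab, le_refl _⟩
    have h2 := hω0 b ⟨hab, le_refl _⟩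
    rw [abs_le] at h1
    have h3 : 0 ≤ κ * (ω b * f b ^ 4) := by positivity
    simp only [hΦ]
    nlinarith [mul_le_mul_of_nonneg_left h1.1 h3]
  have hb2 : Φ a ≤ κ * t * (ω a * f a ^ 4) := by
    have h1 := hcb a ⟨le_refl _, hab⟩
    have h2 := hω0 a ⟨le_refl _, hab⟩
    rw [abs_le] at h1
    have h3 : 0 ≤ κ * (ω a * f a ^ 4) := by positivity
    simp only [hΦ]
    nlinarith [mul_le_mul_of_nonneg_left h1.2 h3]
  rw [hint, hGint] at hmono
  nlinarith

end Pool.Agent.Lib_helper19.KdV
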