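import Pool.Agent.Lib_helper19.KdV.GN

/-!
Decaying functions.
-/

namespace Pool.Agent.Lib_helper19.KdV

open MeasureTheory Set Filter Topology

/-- A `C¹` function which decays, with its derivative, like `1/(1+x²)`. -/
structure Nice (f f' : ℝ → ℝ) : Prop where
  d : ∀ x, HasDerivAt f (f' x) x
  c : Continuous f'
  b : ∃ C, ∀ x, |f x| ≤ C / (1 + x ^ 2) ∧ |f' x| ≤ C / (1 + x ^ 2)

lemma Nice.cont {f f' : ℝ → ℝ} (h : Nice f f') : Continuous f :=
  continuous_iff_continuousAt.2 fun x => (h.d x).continuousAt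

lemma integrable_of_decay {g : ℝ → ℝ} (hg : AEStronglyMeasurable g volume) {C : ℝ}
    (h : ∀ x, |g x| ≤ C / (1 + x ^ 2)) : Integrable g := by
  refine Integrable.mono' (integrable_inv_one_add_sq.const_mul C) hg ?_
  filter_upwards with x
  rw [Real.norm_eq_abs]
  simpa [div_eq_mul_inv] using h x

/-- products of a bounded function and a power of a decaying function -/
lemma Nice.integrable_mul {f f' : ℝ → ℝ} (h : Nice f f') {φ : ℝ → ℝ} (hφ : Continuous φ)
    {B : ℝ} (hB : ∀ x, |φ x| ≤ B) (k : ℕ) : Integrable (fun x => φ x * f x ^ (k + 1)) := by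
  obtain ⟨C, hC⟩ := h.b
  have hB0 : 0 ≤ B := (abs_nonneg _).trans (hB 0)
  have hC0 : 0 ≤ C := by
    have := (abs_nonneg _).trans (hC 0).1
    simpa using this
  refine integrable_of_decay (C := B * C ^ (k + 1))
    (hφ.mul (h.cont.pow _)).aestronglyMeasurable fun x => ?_
  have h1 : (0 : ℝ) < 1 + x ^ 2 := by positivity
  have h2 : |f x| ^ (k + 1) ≤ C ^ (k + 1) / (1 + x ^ 2) := by
    calc |f x| ^ (k + 1) ≤ (C / (1 + x ^ 2)) ^ (k + 1) :=
          pow_le_pow_left₀ (abs_nonneg _) (hC x).1 _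
      _ = C ^ (k + 1) / (1 + x ^ 2) ^ (k + 1) := div_pow _ _ _
      _ ≤ C ^ (k + 1) / (1 + x ^ 2) := by
          apply div_le_div_of_nonneg_left (by positivity) h1
          exact le_self_pow₀ (by nlinarith [sq_nonneg x]) (by omega)
  rw [abs_mul, abs_pow]
  calc |φ x| * |f x| ^ (k + 1) ≤ B * (C ^ (k + 1) / (1 + x ^ 2)) :=
        mul_le_mul (hB x) h2 (by positivity) hB0
    _ = B * C ^ (k + 1) / (1 + x ^ 2) := by ring

lemma Nice.integrable_mul' {f f' : ℝ → ℝ} (h : Nice f f') {φ : ℝ → ℝ} (hφ : Continuous φ)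
    {B : ℝ} (hB : ∀ x, |φ x| ≤ B) : Integrable (fun x => φ x * f' x ^ 2) := by
  obtain ⟨C, hC⟩ := h.b
  have hB0 : 0 ≤ B := (abs_nonneg _).trans (hB 0)
  have hC0 : 0 ≤ C := by
    have := (abs_nonneg _).trans (hC 0).1
    simpa using this
  refine integrable_of_decay (C := B * C ^ 2)
    (hφ.mul (h.c.pow _)).aestronglyMeasurable fun x => ?_
  have h1 : (0 : ℝ) < 1 + x ^ 2 := by positivity
  have h2 : |f' x| ^ 2 ≤ C ^ 2 / (1 + x ^ 2) := by
    calc |f' x| ^ 2 ≤ (C / (1 + x ^ 2)) ^ 2 :=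
          pow_le_pow_left₀ (abs_nonneg _) (hC x).2 _
      _ = C ^ 2 / (1 + x ^ 2) ^ 2 := div_pow _ _ _
      _ ≤ C ^ 2 / (1 + x ^ 2) := by
          apply div_le_div_of_nonneg_left (by positivity) h1
          exact le_self_pow₀ (by nlinarith [sq_nonneg x]) (by omega)
  rw [abs_mul, abs_pow]
  calc |φ x| * |f' x| ^ 2 ≤ B * (C ^ 2 / (1 + x ^ 2)) :=
        mul_le_mul (hB x) h2 (by positivity) hB0
    _ = B * C ^ 2 / (1 + x ^ 2) := by ring

end Pool.Agent.Lib_helper19.KdV
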