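import Pool.Agent.Lib_helper19.KdV.GN2

/-!
The sharp Gagliardo-Nirenberg inequality with a weight, when the intervals of length `2ρ` which
meet the support of the weight carry at most `m`.
-/

namespace Pool.Agent.Lib_helper19.KdV

open MeasureTheory Set Filter Topology

lemma gn_interval' {a b m κ B : ℝ} (hab : a ≤ b) {f f' ω ω' : ℝ → ℝ}
    (hf : ∀ x, HasDerivAt f (f' x) x) (hf' : Continuous f')
    (hω : ∀ x, HasDerivAt ω (ω' x) x) (hω' : Continuous ω') (hω0 : ∀ x ∈ Icc a b, 0 ≤ ω x)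
    (hB : ∀ x, |ω' x| ≤ B)
    (hm : ∫ x in a..b, f x ^ 2 ≤ m) (hκ : 0 < κ) (hκm : κ * m < Real.pi) :
    0 ≤ (∫ x in a..b, (4 * (ω x * f' x ^ 2) + κ * Real.tan (κ * m / 2) * B * f x ^ 4 -
      κ ^ 2 * (ω x * f x ^ 6))) +
        κ * Real.tan (κ * m / 2) * (ω a * f a ^ 4 + ω b * f b ^ 4) := by
  have hfc : Continuous f := continuous_iff_continuousAt.2 fun x => (hf x).continuousAt
  have hωc : Continuous ω := continuous_iff_continuousAt.2 fun x => (hω x).continuousAt
  have key := gn_interval hab hf hf' hω hω' hω0 hm hκ hκm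
  have hm0 : 0 ≤ m := le_trans (intervalIntegral.integral_nonneg hab fun x _ => by positivity) hm
  set t := Real.tan (κ * m / 2) with ht
  have ht0 : 0 ≤ t := Real.tan_nonneg_of_nonneg_of_le_pi_div_two (by positivity) (by linarith)
  have e1 : IntervalIntegrable (fun x => 4 * (ω x * f' x ^ 2)) volume a b :=
    Continuous.intervalIntegrable (by fun_prop) _ _
  have e2 : IntervalIntegrable (fun x => κ * t * B * f x ^ 4) volume a b :=
    Continuous.intervalIntegrable (by fun_prop) _ _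
  have e3 : IntervalIntegrable (fun x => κ ^ 2 * (ω x * f x ^ 6)) volume a b :=
    Continuous.intervalIntegrable (by fun_prop) _ _
  rw [intervalIntegral.integral_sub (e1.add e2) e3, intervalIntegral.integral_add e1 e2,
    intervalIntegral.integral_const_mul, intervalIntegral.integral_const_mul,
    intervalIntegral.integral_const_mul]
  have hle : ∫ x in a..b, |ω' x| * f x ^ 4 ≤ B * ∫ x in a..b, f x ^ 4 := by
    rw [← intervalIntegral.integral_const_mul]
    refine intervalIntegral.integral_mono_on hab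
      (Continuous.intervalIntegrable (by fun_prop) _ _)
      (Continuous.intervalIntegrable (by fun_prop) _ _) fun x _ => ?_
    exact mul_le_mul_of_nonneg_right (hB x) (by positivity)
  have hκt : 0 ≤ κ * t := by positivity
  nlinarith [mul_le_mul_of_nonneg_left hle hκt]

lemma gn_weight_aux {f f' : ℝ → ℝ} (h : Nice f f') {ρ m κ B : ℝ} (hρ : 0 < ρ)
    {ω ω' : ℝ → ℝ} (hω : ∀ x, HasDerivAt ω (ω' x) x) (hω' : Continuous ω')
    (hω0 : ∀ x, 0 ≤ ω x) (hω1 : ∀ x, ω x ≤ 1) (hB : ∀ x, |ω' x| ≤ B) (hm0 : 0 ≤ m)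
    (hm : ∀ y, (∀ x ∈ Icc y (y + 2 * ρ), ω x = 0) ∨ ∫ x in y..(y + 2 * ρ), f x ^ 2 ≤ m)
    (hκ : 0 < κ) (hκm : κ * m < Real.pi) (s : ℝ) :
    κ ^ 2 * ∫ x, Real.sin (Real.pi * (x - s) / (2 * ρ)) ^ 2 * ω x * f x ^ 6 ≤
      4 * (∫ x, Real.sin (Real.pi * (x - s) / (2 * ρ)) ^ 2 * ω x * f' x ^ 2) +
        κ * Real.tan (κ * m / 2) * (Real.pi / (2 * ρ) + B) * ∫ x, f x ^ 4 := by
  set W : ℝ → ℝ := fun x => Real.sin (Real.pi * (x - s) / (2 * ρ)) ^ 2 with hW
  set W' : ℝ → ℝ := fun x => 2 * Real.sin (Real.pi * (x - s) / (2 * ρ)) *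
    Real.cos (Real.pi * (x - s) / (2 * ρ)) * (Real.pi / (2 * ρ)) with hW'
  have hB0 : 0 ≤ B := (abs_nonneg _).trans (hB 0)
  have hWd : ∀ x, HasDerivAt W (W' x) x := by
    intro x
    have h1 : HasDerivAt (fun x : ℝ => Real.pi * (x - s) / (2 * ρ)) (Real.pi / (2 * ρ)) x := by
      refine ((((hasDerivAt_id x).sub_const s).const_mul Real.pi).div_const (2 * ρ)).congr_deriv ?_
      simp
    have h2 := h1.sin.pow 2
    refine h2.congr_deriv ?_
    simp only [hW']
    push_cast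
    ring
  have hW'c : Continuous W' := by simp only [hW']; fun_prop
  have hWc : Continuous W := by simp only [hW]; fun_prop
  have hωc : Continuous ω := continuous_iff_continuousAt.2 fun x => (hω x).continuousAt
  have hW0 : ∀ x, 0 ≤ W x := fun x => sq_nonneg _
  have hW1 : ∀ x, W x ≤ 1 := fun x => Real.sin_sq_le_one _
  have hW'b : ∀ x, |W' x| ≤ Real.pi / (2 * ρ) := by
    intro x
    have e : W' x = Real.sin (2 * (Real.pi * (x - s) / (2 * ρ))) * (Real.pi / (2 * ρ)) := by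
      simp only [hW']; rw [Real.sin_two_mul]
    rw [e, abs_mul, abs_of_pos (show 0 < Real.pi / (2 * ρ) by positivity)]
    have := Real.abs_sin_le_one (2 * (Real.pi * (x - s) / (2 * ρ)))
    have h3 : 0 < Real.pi / (2 * ρ) := by positivity
    nlinarith
  -- the product weight
  set P : ℝ → ℝ := fun x => W x * ω x with hP
  set P' : ℝ → ℝ := fun x => W' x * ω x + W x * ω' x with hP'
  have hPd : ∀ x, HasDerivAt P (P' x) x := fun x => (hWd x).mul (hω x)
  have hP'c : Continuous P' := by simp only [hP']; fun_prop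
  have hPc : Continuous P := by simp only [hP]; fun_prop
  have hP0 : ∀ x, 0 ≤ P x := fun x => mul_nonneg (hW0 x) (hω0 x)
  have hP1 : ∀ x, |P x| ≤ 1 := fun x => by
    rw [abs_of_nonneg (hP0 x)]
    exact mul_le_one₀ (hW1 x) (hω0 x) (hω1 x)
  have hP'b : ∀ x, |P' x| ≤ Real.pi / (2 * ρ) + B := by
    intro x
    refine (abs_add_le _ _).trans (add_le_add ?_ ?_)
    · rw [abs_mul, abs_of_nonneg (hω0 x)]
      calc |W' x| * ω x ≤ |W' x| * 1 := mul_le_mul_of_nonneg_left (hω1 x) (abs_nonneg _)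
        _ ≤ _ := by rw [mul_one]; exact hW'b x
    · rw [abs_mul, abs_of_nonneg (hW0 x)]
      calc W x * |ω' x| ≤ 1 * |ω' x| := mul_le_mul_of_nonneg_right (hW1 x) (abs_nonneg _)
        _ ≤ _ := by rw [one_mul]; exact hB x
  have hfc := h.cont
  have hf'c := h.c
  set t := Real.tan (κ * m / 2) with ht
  have ht0 : 0 ≤ t := Real.tan_nonneg_of_nonneg_of_le_pi_div_two (by positivity) (by linarith)
  have hβ0 : 0 ≤ Real.pi / (2 * ρ) + B := by positivity
  set G : ℝ → ℝ := fun x => 4 * (P x * f' x ^ 2) + κ * t * (Real.pi / (2 * ρ) + B) * f x ^ 4 -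
    κ ^ 2 * (P x * f x ^ 6) with hG
  have hGc : Continuous G := by simp only [hG]; fun_prop
  have i1 : Integrable (fun x => P x * f' x ^ 2) := h.integrable_mul' hPc hP1
  have i2 : Integrable (fun x => P x * f x ^ 6) := h.integrable_mul hPc hP1 5
  have i3 : Integrable (fun x => f x ^ 4) := by
    have := h.integrable_mul (φ := fun _ => 1) continuous_const (B := 1) (by simp) 3
    simpa using this
  have i4 : Integrable (fun x => 4 * (P x * f' x ^ 2) +
      κ * t * (Real.pi / (2 * ρ) + B) * f x ^ 4) :=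
    (i1.const_mul 4).add (i3.const_mul (κ * t * (Real.pi / (2 * ρ) + B)))
  have hGi : Integrable G := i4.sub (i2.const_mul _)
  have hGint : ∫ x, G x = 4 * (∫ x, P x * f' x ^ 2) +
      κ * t * (Real.pi / (2 * ρ) + B) * (∫ x, f x ^ 4) - κ ^ 2 * ∫ x, P x * f x ^ 6 := by
    simp only [hG]
    rw [integral_sub i4 (i2.const_mul _), integral_add (i1.const_mul 4) (i3.const_mul _),
      integral_const_mul, integral_const_mul, integral_const_mul]
  -- one period
  have hone : ∀ k : ℤ, 0 ≤ ∫ x in (s + 2 * ρ * k)..(s + 2 * ρ * (k + 1)), G x := by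
    intro k
    have hab : s + 2 * ρ * k ≤ s + 2 * ρ * (k + 1) := by nlinarith
    have e : s + 2 * ρ * k + 2 * ρ = s + 2 * ρ * (k + 1) := by ring
    rcases hm (s + 2 * ρ * k) with hzero | hmk
    · rw [e] at hzero
      refine intervalIntegral.integral_nonneg hab fun x hx => ?_
      simp only [hG, hP]
      rw [hzero x hx]
      have : 0 ≤ κ * t * (Real.pi / (2 * ρ) + B) * f x ^ 4 := by positivity
      linarith
    · rw [e] at hmk
      have hz : ∀ j : ℤ, P (s + 2 * ρ * j) = 0 := by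
        intro j
        simp only [hP, hW]
        have e : Real.pi * (s + 2 * ρ * j - s) / (2 * ρ) = j * Real.pi := by
          field_simp; ring
        rw [e, Real.sin_int_mul_pi]; simp
      have key := gn_interval' hab h.d h.c hPd hP'c (fun x _ => hP0 x) hP'b hmk hκ hκm
      have z1 := hz k
      have z2 := hz (k + 1)
      push_cast at z2
      rw [z1, z2] at key
      simpa using key
  have hN : ∀ N : ℕ, 0 ≤ ∫ x in (s + 2 * ρ * (-(N : ℝ)))..(s + 2 * ρ * N), G x := by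
    intro N
    have := intervalIntegral.sum_integral_adjacent_intervals (f := G) (μ := volume)
      (a := fun k : ℕ => s + 2 * ρ * ((k : ℝ) - N)) (n := 2 * N)
      (fun k _ => hGc.intervalIntegrable _ _)
    have e1 : s + 2 * ρ * (((0 : ℕ) : ℝ) - N) = s + 2 * ρ * (-(N : ℝ)) := by push_cast; ring
    have e2 : s + 2 * ρ * (((2 * N : ℕ) : ℝ) - N) = s + 2 * ρ * N := by push_cast; ring
    rw [e1, e2] at this
    rw [← this]
    refine Finset.sum_nonneg fun k _ => ?_
    have h3 := hone ((k : ℤ) - N)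
    push_cast at h3 ⊢
    have e3 : s + 2 * ρ * ((k : ℝ) - N + 1) = s + 2 * ρ * ((k : ℝ) + 1 - N) := by ring
    rwa [e3] at h3
  have hlim := intervalIntegral_tendsto_integral (l := atTop (α := ℕ)) hGi
    (a := fun N : ℕ => s + 2 * ρ * (-(N : ℝ))) (b := fun N : ℕ => s + 2 * ρ * N)
    (by
      apply tendsto_atBot_add_const_left
      apply Tendsto.const_mul_atBot (by positivity)
      exact tendsto_neg_atTop_atBot.comp tendsto_natCast_atTop_atTop)
    (by
      apply tendsto_atTop_add_const_left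
      apply Tendsto.const_mul_atTop (by positivity)
      exact tendsto_natCast_atTop_atTop)
  have := ge_of_tendsto' hlim hN
  rw [hGint] at this
  linarith

/-- If the mass on every interval of length `2ρ` which meets the support of `ω` is at most `m`. -/
lemma gn_weight {f f' : ℝ → ℝ} (h : Nice f f') {ρ m κ B : ℝ} (hρ : 0 < ρ)
    {ω ω' : ℝ → ℝ} (hω : ∀ x, HasDerivAt ω (ω' x) x) (hω' : Continuous ω')
    (hω0 : ∀ x, 0 ≤ ω x) (hω1 : ∀ x, ω x ≤ 1) (hB : ∀ x, |ω' x| ≤ B) (hm0 : 0 ≤ m)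
    (hm : ∀ y, (∀ x ∈ Icc y (y + 2 * ρ), ω x = 0) ∨ ∫ x in y..(y + 2 * ρ), f x ^ 2 ≤ m)
    (hκ : 0 < κ) (hκm : κ * m < Real.pi) :
    κ ^ 2 * ∫ x, ω x * f x ^ 6 ≤ 4 * (∫ x, ω x * f' x ^ 2) +
        κ * Real.tan (κ * m / 2) * (Real.pi / ρ + 2 * B) * ∫ x, f x ^ 4 := by
  have k0 := gn_weight_aux h hρ hω hω' hω0 hω1 hB hm0 hm hκ hκm 0
  have k1 := gn_weight_aux h hρ hω hω' hω0 hω1 hB hm0 hm hκ hκm ρ
  have hωc : Continuous ω := continuous_iff_continuousAt.2 fun x => (hω x).continuousAt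
  have hs : ∀ x : ℝ, Real.sin (Real.pi * (x - 0) / (2 * ρ)) ^ 2 +
      Real.sin (Real.pi * (x - ρ) / (2 * ρ)) ^ 2 = 1 := by
    intro x
    have e : Real.pi * (x - ρ) / (2 * ρ) = Real.pi * (x - 0) / (2 * ρ) - Real.pi / 2 := by
      field_simp
      ring
    rw [e, Real.sin_sub_pi_div_two]
    nlinarith [Real.sin_sq_add_cos_sq (Real.pi * (x - 0) / (2 * ρ))]
  have hb : ∀ s x : ℝ, |Real.sin (Real.pi * (x - s) / (2 * ρ)) ^ 2 * ω x| ≤ 1 := by
    intro s x
    rw [abs_of_nonneg (mul_nonneg (sq_nonneg _) (hω0 x))]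
    exact mul_le_one₀ (Real.sin_sq_le_one _) (hω0 x) (hω1 x)
  have hc : ∀ s : ℝ, Continuous (fun x => Real.sin (Real.pi * (x - s) / (2 * ρ)) ^ 2 * ω x) := by
    intro s; fun_prop
  have a6 : ∫ x, ω x * f x ^ 6 =
      (∫ x, Real.sin (Real.pi * (x - 0) / (2 * ρ)) ^ 2 * ω x * f x ^ 6) +
      ∫ x, Real.sin (Real.pi * (x - ρ) / (2 * ρ)) ^ 2 * ω x * f x ^ 6 := by
    rw [← integral_add (h.integrable_mul (hc 0) (hb 0) 5) (h.integrable_mul (hc ρ) (hb ρ) 5)]
    congr 1
    ext x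
    rw [← add_mul, ← add_mul, hs x, one_mul]
  have a2 : ∫ x, ω x * f' x ^ 2 =
      (∫ x, Real.sin (Real.pi * (x - 0) / (2 * ρ)) ^ 2 * ω x * f' x ^ 2) +
      ∫ x, Real.sin (Real.pi * (x - ρ) / (2 * ρ)) ^ 2 * ω x * f' x ^ 2 := by
    rw [← integral_add (h.integrable_mul' (hc 0) (hb 0)) (h.integrable_mul' (hc ρ) (hb ρ))]
    congr 1
    ext x
    rw [← add_mul, ← add_mul, hs x, one_mul]
  rw [a6, a2]
  have e : κ * Real.tan (κ * m / 2) * (Real.pi / ρ + 2 * B) * (∫ x, f x ^ 4) =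
      κ * Real.tan (κ * m / 2) * (Real.pi / (2 * ρ) + B) * (∫ x, f x ^ 4) +
      κ * Real.tan (κ * m / 2) * (Real.pi / (2 * ρ) + B) * (∫ x, f x ^ 4) := by
    field_simp
    ring
  rw [e]
  linarith

end Pool.Agent.Lib_helper19.KdV
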