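import Pool.Agent.Lib_helper19.KdV.Final

/-!
The sharp Gagliardo-Nirenberg inequality outside an interval which carries the bubble, and
transition functions.
-/

namespace Pool.Agent.Lib_helper19.KdV

open MeasureTheory Set Filter Topology

lemma Nice.tendsto_atTop {f f' : ℝ → ℝ} (h : Nice f f') :
    Tendsto (fun N : ℕ => f N ^ 4 + f (-(N : ℝ)) ^ 4) atTop (𝓝 0) := by
  obtain ⟨C, hC⟩ := h.b
  have hlim : Tendsto (fun N : ℕ => C / (1 + (N : ℝ) ^ 2)) atTop (𝓝 0) := by
    apply Tendsto.div_atTop tendsto_const_nhds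
    apply tendsto_atTop_add_const_left
    exact (tendsto_pow_atTop (by norm_num)).comp tendsto_natCast_atTop_atTop
  have h1 : Tendsto (fun N : ℕ => f N) atTop (𝓝 0) :=
    squeeze_zero_norm (fun N => by rw [Real.norm_eq_abs]; exact (hC N).1) hlim
  have h2 : Tendsto (fun N : ℕ => f (-(N : ℝ))) atTop (𝓝 0) :=
    squeeze_zero_norm (fun N => by
      rw [Real.norm_eq_abs]; have := (hC (-(N : ℝ))).1; rwa [neg_sq] at this) hlim
  have := (h1.pow 4).add (h2.pow 4)
  simpa using this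

/-- If the mass outside `[a, b]` is at most `m` and the weight vanishes on `[a, b]`. -/
lemma gn_out {f f' : ℝ → ℝ} (h : Nice f f') {a b m κ B : ℝ} (hab : a ≤ b) {ω ω' : ℝ → ℝ}
    (hω : ∀ x, HasDerivAt ω (ω' x) x) (hω' : Continuous ω') (hω0 : ∀ x, 0 ≤ ω x)
    (hω1 : ∀ x, ω x ≤ 1) (hB : ∀ x, |ω' x| ≤ B) (hz : ∀ x ∈ Icc a b, ω x = 0)
    (hm : ∫ x in (Icc a b)ᶜ, f x ^ 2 ≤ m) (hκ : 0 < κ) (hκm : κ * m < Real.pi) :
    κ ^ 2 * ∫ x, ω x * f x ^ 6 ≤ 4 * (∫ x, ω x * f' x ^ 2) +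
        κ * Real.tan (κ * m / 2) * B * ∫ x, f x ^ 4 := by
  have hfc := h.cont
  have hf'c := h.c
  have hωc : Continuous ω := continuous_iff_continuousAt.2 fun x => (hω x).continuousAt
  have hωb : ∀ x, |ω x| ≤ 1 := fun x => by rw [abs_of_nonneg (hω0 x)]; exact hω1 x
  have i0 : Integrable (fun x => f x ^ 2) := by
    have := h.integrable_mul (φ := fun _ => 1) continuous_const (B := 1) (by simp) 1
    simpa using this
  have hS : MeasurableSet (Icc a b)ᶜ := measurableSet_Icc.compl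
  have hm0 : 0 ≤ m := le_trans (setIntegral_nonneg hS fun x _ => by positivity) hm
  set t := Real.tan (κ * m / 2) with ht
  have ht0 : 0 ≤ t := Real.tan_nonneg_of_nonneg_of_le_pi_div_two (by positivity) (by linarith)
  have hB0 : 0 ≤ B := (abs_nonneg _).trans (hB 0)
  set G : ℝ → ℝ := fun x => 4 * (ω x * f' x ^ 2) + κ * t * B * f x ^ 4 -
    κ ^ 2 * (ω x * f x ^ 6) with hG
  have hGc : Continuous G := by simp only [hG]; fun_prop
  have i1 : Integrable (fun x => ω x * f' x ^ 2) := h.integrable_mul' hωc hωb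
  have i2 : Integrable (fun x => ω x * f x ^ 6) := h.integrable_mul hωc hωb 5
  have i3 : Integrable (fun x => f x ^ 4) := by
    have := h.integrable_mul (φ := fun _ => 1) continuous_const (B := 1) (by simp) 3
    simpa using this
  have i4 : Integrable (fun x => 4 * (ω x * f' x ^ 2) + κ * t * B * f x ^ 4) :=
    (i1.const_mul 4).add (i3.const_mul (κ * t * B))
  have hGi : Integrable G := i4.sub (i2.const_mul _)
  have hGint : ∫ x, G x = 4 * (∫ x, ω x * f' x ^ 2) +
      κ * t * B * (∫ x, f x ^ 4) - κ ^ 2 * ∫ x, ω x * f x ^ 6 := by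
    simp only [hG]
    rw [integral_sub i4 (i2.const_mul _), integral_add (i1.const_mul 4) (i3.const_mul _),
      integral_const_mul, integral_const_mul, integral_const_mul]
  have hsub : ∀ {c d : ℝ}, c ≤ d → Ioc c d ⊆ (Icc a b)ᶜ ∪ {a} →
      ∫ x in c..d, f x ^ 2 ≤ m := by
    intro c d hcd hs
    rw [intervalIntegral.integral_of_le hcd]
    refine le_trans ?_ hm
    have hae : ((Icc a b)ᶜ ∪ {a} : Set ℝ) =ᵐ[volume] (Icc a b)ᶜ :=
      union_ae_eq_left_of_ae_eq_empty (ae_eq_empty.2 Real.volume_singleton)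
    have e : ∫ x in ((Icc a b)ᶜ ∪ {a}), f x ^ 2 = ∫ x in (Icc a b)ᶜ, f x ^ 2 :=
      setIntegral_congr_set hae
    rw [← e]
    exact setIntegral_mono_set i0.integrableOn
      (Eventually.of_forall fun x => by positivity) hs.eventuallyLE
  have hN : ∀ N : ℕ, |a| + |b| ≤ N → -(κ * t * (f N ^ 4 + f (-(N : ℝ)) ^ 4)) ≤
      ∫ x in (-(N : ℝ))..N, G x := by
    intro N hRN
    have n1 : b ≤ N := by linarith [le_abs_self b, abs_nonneg a]
    have n2 : -(N : ℝ) ≤ a := by linarith [neg_abs_le a, abs_nonneg b]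
    have s1 : ∫ x in b..(N : ℝ), f x ^ 2 ≤ m := by
      refine hsub n1 fun x hx => Or.inl ?_
      intro hx2
      exact absurd hx2.2 (not_le.2 hx.1)
    have s2 : ∫ x in (-(N : ℝ))..a, f x ^ 2 ≤ m := by
      refine hsub n2 fun x hx => ?_
      rcases eq_or_lt_of_le hx.2 with h2 | h2
      · right; exact h2
      · left
        intro hx2
        exact absurd hx2.1 (not_le.2 h2)
    have g1 := gn_interval' n1 h.d h.c hω hω' (fun x _ => hω0 x) hB s1 hκ hκm
    have g2 := gn_interval' n2 h.d h.c hω hω' (fun x _ => hω0 x) hB s2 hκ hκm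
    rw [hz b ⟨hab, le_refl _⟩] at g1
    rw [hz a ⟨le_refl _, hab⟩] at g2
    have g3 : 0 ≤ ∫ x in a..b, G x := by
      refine intervalIntegral.integral_nonneg hab fun x hx => ?_
      simp only [hG]
      rw [hz x hx]
      have : 0 ≤ κ * t * B * f x ^ 4 := by positivity
      linarith
    have hadd1 : (∫ x in (-(N : ℝ))..a, G x) + ∫ x in a..b, G x =
        ∫ x in (-(N : ℝ))..b, G x :=
      intervalIntegral.integral_add_adjacent_intervals (hGc.intervalIntegrable _ _)
        (hGc.intervalIntegrable _ _)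
    have hadd2 : (∫ x in (-(N : ℝ))..b, G x) + ∫ x in b..N, G x =
        ∫ x in (-(N : ℝ))..N, G x :=
      intervalIntegral.integral_add_adjacent_intervals (hGc.intervalIntegrable _ _)
        (hGc.intervalIntegrable _ _)
    have b1 : κ * t * (ω N * f N ^ 4) ≤ κ * t * f N ^ 4 := by
      have h1 : 0 ≤ κ * t * f (N : ℝ) ^ 4 := by positivity
      nlinarith [hω1 (N : ℝ)]
    have b2 : κ * t * (ω (-(N : ℝ)) * f (-(N : ℝ)) ^ 4) ≤ κ * t * f (-(N : ℝ)) ^ 4 := by
      have h1 : 0 ≤ κ * t * f (-(N : ℝ)) ^ 4 := by positivity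
      nlinarith [hω1 (-(N : ℝ))]
    rw [← hadd2, ← hadd1]
    change 0 ≤ (∫ x in b..(N : ℝ), G x) + _ at g1
    change 0 ≤ (∫ x in (-(N : ℝ))..a, G x) + _ at g2
    linarith
  have hlim := intervalIntegral_tendsto_integral (l := atTop (α := ℕ)) hGi
    (a := fun N : ℕ => -(N : ℝ)) (b := fun N : ℕ => (N : ℝ))
    (tendsto_neg_atTop_atBot.comp tendsto_natCast_atTop_atTop) tendsto_natCast_atTop_atTop
  have hlim2 : Tendsto (fun N : ℕ => -(κ * t * (f N ^ 4 + f (-(N : ℝ)) ^ 4))) atTop (𝓝 0) := by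
    have := (h.tendsto_atTop.const_mul (κ * t)).neg
    simpa using this
  have hev : ∀ᶠ N : ℕ in atTop, -(κ * t * (f N ^ 4 + f (-(N : ℝ)) ^ 4)) ≤
      ∫ x in (-(N : ℝ))..N, G x := by
    filter_upwards [tendsto_natCast_atTop_atTop.eventually_ge_atTop (|a| + |b|)] with N hRN
    exact hN N hRN
  have := le_of_tendsto_of_tendsto hlim2 hlim hev
  rw [hGint] at this
  linarith

section
variable {T : ℝ} {u v : ℝ → ℝ → ℝ}

/-- sharp inequality outside `[a, b]` -/
lemma H1Sol.gnOut (h : H1Sol T u v) {t : ℝ} (ht : t ∈ Ioo 0 T) {a b m m' κ B : ℝ} (hab : a ≤ b)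
    {ω ω' : ℝ → ℝ}
    (hω : ∀ x, HasDerivAt ω (ω' x) x) (hω' : Continuous ω') (hω0 : ∀ x, 0 ≤ ω x)
    (hω1 : ∀ x, ω x ≤ 1) (hB : ∀ x, |ω' x| ≤ B) (hz : ∀ x ∈ Icc a b, ω x = 0)
    (hm : ∫ x in (Icc a b)ᶜ, u t x ^ 2 ≤ m) (hmm : m < m') (hκ : 0 < κ)
    (hκm : κ * m' < Real.pi) :
    κ ^ 2 * ∫ x, ω x * u t x ^ 6 ≤ 4 * (∫ x, ω x * v t x ^ 2) +
        κ * Real.tan (κ * m' / 2) * B * ∫ x, u t x ^ 4 := by
  have hS : MeasurableSet (Icc a b)ᶜ := measurableSet_Icc.compl
  have hm0 : 0 ≤ m := le_trans (setIntegral_nonneg hS fun x _ => by positivity) hm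
  have hm'0 : 0 ≤ m' := by linarith
  have ht0 : 0 ≤ Real.tan (κ * m' / 2) := Real.tan_nonneg_of_nonneg_of_le_pi_div_two
    (by positivity) (by linarith)
  have hB0 : 0 ≤ B := (abs_nonneg _).trans (hB 0)
  have hωc : Continuous ω := continuous_iff_continuousAt.2 fun x => (hω x).continuousAt
  have hωb : ∀ x, |ω x| ≤ 1 := fun x => by rw [abs_of_nonneg (hω0 x)]; exact hω1 x
  set c := κ * Real.tan (κ * m' / 2) * B with hc
  have hc0 : 0 ≤ c := by positivity
  refine le_of_small (C := κ ^ 2 + 4 + c) (τ₀ := m' - m) (by positivity) (by linarith)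
    fun τ hτ hτm => ?_
  obtain ⟨ε, hε, hcl⟩ := h.main_close ht.2 zero_le_one hτ
  obtain ⟨I, w, hI, hw, hcw⟩ := h.approx t ht.2 ε hε
  have htt : t ∈ Icc 0 t := ⟨ht.1.le, le_refl _⟩
  have n := hw.nice (hI htt)
  have hm' : ∫ x in (Icc a b)ᶜ, w t x ^ 2 ≤ m' := by
    have a' := (hcl I w hI hw hcw t htt (indicator (Icc a b)ᶜ fun _ => 1)
      ((measurable_const.indicator hS).aestronglyMeasurable)
      (fun x => by
        by_cases hx : x ∈ (Icc a b)ᶜ
        · rw [indicator_of_mem hx]; simp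
        · rw [indicator_of_notMem hx]; simp)).1
    have e : ∀ f : ℝ → ℝ, ∫ x, indicator (Icc a b)ᶜ (fun _ => (1 : ℝ)) x * f x ^ 2 =
        ∫ x in (Icc a b)ᶜ, f x ^ 2 := by
      intro f
      rw [← integral_indicator hS]
      congr 1
      ext x
      by_cases hx : x ∈ (Icc a b)ᶜ
      · rw [indicator_of_mem hx, indicator_of_mem hx, one_mul]
      · rw [indicator_of_notMem hx, indicator_of_notMem hx, zero_mul]
    rw [e, e, abs_le] at a'
    linarith [a'.2, hm]
  have key := gn_out n hab hω hω' hω0 hω1 hB hz hm' hκ hκm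
  have a' := hcl I w hI hw hcw t htt (fun _ => 1) aestronglyMeasurable_const (by simp)
  have b' := hcl I w hI hw hcw t htt ω hωc.aestronglyMeasurable hωb
  simp only [one_mul] at a'
  obtain ⟨-, -, a4, -⟩ := a'
  obtain ⟨-, a2, -, a6⟩ := b'
  rw [abs_le] at a2 a4 a6
  rw [← hc] at key
  have k6 := mul_le_mul_of_nonneg_left (show (∫ x, ω x * u t x ^ 6) - τ ≤
    ∫ x, ω x * w t x ^ 6 by linarith [a6.1]) (sq_nonneg κ)
  have k4 := mul_le_mul_of_nonneg_left (show (∫ x, w t x ^ 4) ≤ (∫ x, u t x ^ 4) + τ by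
    linarith [a4.2]) hc0
  nlinarith [a2.2]

/-- mass is conserved up to the initial time -/
lemma H1Sol.mass_zero (h : H1Sol T u v) (hT : 0 < T) :
    ∫ x, u 0 x ^ 2 = ∫ x, u (T / 2) x ^ 2 := by
  have hb : T / 2 < T := by linarith
  have hb0 : (0 : ℝ) ≤ T / 2 := by linarith
  refine le_antisymm ?_ ?_
  all_goals
    refine le_of_small (C := 2) (τ₀ := 1) (by norm_num) one_pos fun τ hτ _ => ?_
    obtain ⟨ε, hε, hcl⟩ := h.main_close hb zero_le_one hτ
    obtain ⟨I, w, hI, hw, hcw⟩ := h.approx (T / 2) hb ε hε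
    have hconst : ∫ x, w (T / 2) x ^ 2 = ∫ x, w 0 x ^ 2 := by
      have hd : ∀ t ∈ Icc 0 (T / 2), HasDerivAt (fun s => ∫ x, w s x ^ 2) 0 t := by
        intro t ht
        have := hw.mass (Wt.const 1) (hI ht)
        simp only [one_mul] at this
        refine this.congr_deriv ?_
        simp [massFlux]
      have := constant_of_has_deriv_right_zero
        (f := fun s => ∫ x, w s x ^ 2) (a := 0) (b := T / 2)
        (fun t ht => (hd t ht).continuousAt.continuousWithinAt)
        (fun t ht => (hd t ⟨ht.1, ht.2.le⟩).hasDerivWithinAt)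
      exact this (T / 2) ⟨hb0, le_refl _⟩
    have a0 := (hcl I w hI hw hcw 0 ⟨le_refl _, hb0⟩ (fun _ => 1) aestronglyMeasurable_const
      (by simp)).1
    have a1 := (hcl I w hI hw hcw (T / 2) ⟨hb0, le_refl _⟩ (fun _ => 1)
      aestronglyMeasurable_const (by simp)).1
    simp only [one_mul] at a0 a1
    rw [abs_le] at a0 a1
    linarith [a0.1, a0.2, a1.1, a1.2]

end

/-! ### transition functions -/

/-- a smooth step: `0` for `x ≤ 0`, `1` for `x ≥ 1` -/
noncomputable def stp (x : ℝ) : ℝ := Real.smoothTransition x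
noncomputable def stp1 (x : ℝ) : ℝ := deriv stp x
noncomputable def stp2 (x : ℝ) : ℝ := deriv stp1 x

lemma stp_zero {x : ℝ} (hx : x ≤ 0) : stp x = 0 := Real.smoothTransition.zero_of_nonpos hx
lemma stp_one {x : ℝ} (hx : 1 ≤ x) : stp x = 1 := Real.smoothTransition.one_of_one_le hx
lemma stp_nonneg (x : ℝ) : 0 ≤ stp x := Real.smoothTransition.nonneg x
lemma stp_le_one (x : ℝ) : stp x ≤ 1 := Real.smoothTransition.le_one x

lemma stp_facts : (∀ x, HasDerivAt stp (stp1 x) x) ∧ (∀ x, HasDerivAt stp1 (stp2 x) x) ∧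
    Continuous stp2 ∧ ∃ K, 0 ≤ K ∧ (∀ x, |stp1 x| ≤ K) ∧ ∀ x, |stp2 x| ≤ K := by
  have hs : ContDiff ℝ ((⊤ : ℕ∞) : WithTop ℕ∞) stp := Real.smoothTransition.contDiff
  obtain ⟨d0, s1⟩ := contDiff_infty_iff_deriv.1 hs
  obtain ⟨d1, s2⟩ := contDiff_infty_iff_deriv.1 s1
  have hz : ∀ x, x ∉ Icc (-1 : ℝ) 2 → stp1 x = 0 := by
    intro x hx
    rw [mem_Icc, not_and_or, not_le, not_le] at hx
    rcases hx with hx | hx
    · have : stp =ᶠ[𝓝 x] fun _ => 0 := by
        filter_upwards [Iio_mem_nhds (show x < 0 by linarith)] with y hy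
        exact stp_zero (mem_Iio.1 hy).le
      change deriv stp x = 0
      rw [this.deriv_eq, deriv_const]
    · have : stp =ᶠ[𝓝 x] fun _ => 1 := by
        filter_upwards [Ioi_mem_nhds (show 1 < x by linarith)] with y hy
        exact stp_one (mem_Ioi.1 hy).le
      change deriv stp x = 0
      rw [this.deriv_eq, deriv_const]
  have hc : HasCompactSupport stp1 := HasCompactSupport.intro isCompact_Icc (fun x hx => hz x hx)
  obtain ⟨C1, h1⟩ := hc.exists_bound_of_continuous s1.continuous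
  obtain ⟨C2, h2⟩ := hc.deriv.exists_bound_of_continuous s2.continuous
  refine ⟨fun x => (d0 x).hasDerivAt, fun x => (d1 x).hasDerivAt, s2.continuous,
    max C1 C2, ?_, fun x => ?_, fun x => ?_⟩
  · exact ((norm_nonneg _).trans (h1 0)).trans (le_max_left _ _)
  · exact (h1 x).trans (le_max_left _ _)
  · exact (h2 x).trans (le_max_right _ _)

noncomputable def KS : ℝ := Classical.choose stp_facts.2.2.2

lemma KS_spec : 0 ≤ KS ∧ (∀ x, |stp1 x| ≤ KS) ∧ ∀ x, |stp2 x| ≤ KS :=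
  Classical.choose_spec stp_facts.2.2.2

/-- `1` on `[a, b]`, `0` outside `[a - σ, b + σ]` -/
noncomputable def tht (a b σ x : ℝ) : ℝ := stp ((x - a) / σ + 1) - stp ((x - b) / σ)
noncomputable def tht1 (a b σ x : ℝ) : ℝ := stp1 ((x - a) / σ + 1) / σ - stp1 ((x - b) / σ) / σ
noncomputable def tht2 (a b σ x : ℝ) : ℝ :=
  stp2 ((x - a) / σ + 1) / σ ^ 2 - stp2 ((x - b) / σ) / σ ^ 2

/-- the primitive of `tht` which vanishes on the left -/
noncomputable def prm (a b σ x : ℝ) : ℝ := ∫ y in (a - σ)..x, tht a b σ y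

section
variable {a b σ : ℝ}

lemma tht_one (hσ : 0 < σ) {x : ℝ} (hx : x ∈ Icc a b) : tht a b σ x = 1 := by
  rw [tht, stp_one, stp_zero, sub_zero]
  · exact div_nonpos_of_nonpos_of_nonneg (by linarith [hx.2]) hσ.le
  · have : 0 ≤ (x - a) / σ := div_nonneg (by linarith [hx.1]) hσ.le
    linarith

lemma tht_nonneg (hσ : 0 < σ) (hab : a ≤ b) (x : ℝ) : 0 ≤ tht a b σ x := by
  rw [tht]
  rcases le_total x b with hx | hx
  · rw [stp_zero (x := (x - b) / σ)
      (div_nonpos_of_nonpos_of_nonneg (by linarith) hσ.le), sub_zero]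
    exact stp_nonneg _
  · rw [stp_one (x := (x - a) / σ + 1)]
    · linarith [stp_le_one ((x - b) / σ)]
    · have : 0 ≤ (x - a) / σ := div_nonneg (by linarith) hσ.le
      linarith

lemma tht_le_one (x : ℝ) : tht a b σ x ≤ 1 := by
  rw [tht]
  linarith [stp_le_one ((x - a) / σ + 1), stp_nonneg ((x - b) / σ)]

lemma tht_left (hσ : 0 < σ) (hab : a ≤ b) {x : ℝ} (hx : x ≤ a - σ) : tht a b σ x = 0 := by
  rw [tht, stp_zero, stp_zero, sub_zero]
  · exact div_nonpos_of_nonpos_of_nonneg (by linarith) hσ.le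
  · have : (x - a) / σ ≤ -1 := by
      rw [div_le_iff₀ hσ]; linarith
    linarith

lemma tht_right (hσ : 0 < σ) (hab : a ≤ b) {x : ℝ} (hx : b + σ ≤ x) : tht a b σ x = 0 := by
  rw [tht, stp_one, stp_one, sub_self]
  · rw [le_div_iff₀ hσ]; linarith
  · have : 0 ≤ (x - a) / σ := div_nonneg (by linarith) hσ.le
    linarith

lemma tht_d (hσ : 0 < σ) (x : ℝ) : HasDerivAt (tht a b σ) (tht1 a b σ x) x := by
  have e1 : HasDerivAt (fun x : ℝ => (x - a) / σ + 1) (1 / σ) x := by
    simpa using (((hasDerivAt_id x).sub_const a).div_const σ).add_const 1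
  have e2 : HasDerivAt (fun x : ℝ => (x - b) / σ) (1 / σ) x := by
    simpa using ((hasDerivAt_id x).sub_const b).div_const σ
  refine (((stp_facts.1 _).comp x e1).sub ((stp_facts.1 _).comp x e2)).congr_deriv ?_
  rw [tht1]
  ring

lemma tht1_d (hσ : 0 < σ) (x : ℝ) : HasDerivAt (tht1 a b σ) (tht2 a b σ x) x := by
  have e1 : HasDerivAt (fun x : ℝ => (x - a) / σ + 1) (1 / σ) x := by
    simpa using (((hasDerivAt_id x).sub_const a).div_const σ).add_const 1
  have e2 : HasDerivAt (fun x : ℝ => (x - b) / σ) (1 / σ) x := by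
    simpa using ((hasDerivAt_id x).sub_const b).div_const σ
  refine ((((stp_facts.2.1 _).comp x e1).div_const σ).sub
    (((stp_facts.2.1 _).comp x e2).div_const σ)).congr_deriv ?_
  rw [tht2]
  field_simp

lemma tht2_c : Continuous (tht2 a b σ) := by
  have := stp_facts.2.2.1
  unfold tht2
  fun_prop

lemma tht1_b (hσ : 0 < σ) (x : ℝ) : |tht1 a b σ x| ≤ 2 * KS / σ := by
  rw [tht1, ← sub_div, abs_div, abs_of_pos hσ]
  gcongr
  refine (abs_sub _ _).trans ?_
  linarith [KS_spec.2.1 ((x - a) / σ + 1), KS_spec.2.1 ((x - b) / σ)]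

lemma tht2_b (hσ : 0 < σ) (x : ℝ) : |tht2 a b σ x| ≤ 2 * KS / σ ^ 2 := by
  rw [tht2, ← sub_div, abs_div, abs_of_pos (show 0 < σ ^ 2 by positivity)]
  gcongr
  refine (abs_sub _ _).trans ?_
  linarith [KS_spec.2.2 ((x - a) / σ + 1), KS_spec.2.2 ((x - b) / σ)]

lemma tht_c (hσ : 0 < σ) : Continuous (tht a b σ) :=
  continuous_iff_continuousAt.2 fun x => (tht_d hσ x).continuousAt

lemma tht1_c (hσ : 0 < σ) : Continuous (tht1 a b σ) :=
  continuous_iff_continuousAt.2 fun x => (tht1_d hσ x).continuousAt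

lemma prm_sub (hσ : 0 < σ) (x y : ℝ) : prm a b σ y - prm a b σ x = ∫ z in x..y, tht a b σ z := by
  have := intervalIntegral.integral_add_adjacent_intervals (μ := volume)
    ((tht_c (a := a) (b := b) hσ).intervalIntegrable (a - σ) x)
    ((tht_c (a := a) (b := b) hσ).intervalIntegrable x y)
  rw [prm, prm]
  linarith

lemma prm_mono (hσ : 0 < σ) (hab : a ≤ b) : Monotone (prm a b σ) := by
  intro x y hxy
  have := prm_sub (a := a) (b := b) hσ x y
  have h2 : 0 ≤ ∫ z in x..y, tht a b σ z :=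
    intervalIntegral.integral_nonneg hxy fun z _ => tht_nonneg hσ hab z
  linarith

lemma prm_left (hσ : 0 < σ) (hab : a ≤ b) {x : ℝ} (hx : x ≤ a - σ) : prm a b σ x = 0 := by
  rw [prm, intervalIntegral.integral_symm, neg_eq_zero]
  rw [intervalIntegral.integral_of_le hx]
  refine setIntegral_eq_zero_of_forall_eq_zero fun y hy => tht_left hσ hab hy.2

lemma prm_nonneg (hσ : 0 < σ) (hab : a ≤ b) (x : ℝ) : 0 ≤ prm a b σ x := by
  rcases le_total x (a - σ) with hx | hx
  · rw [prm_left hσ hab hx]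
  · rw [← prm_left hσ hab (le_refl (a - σ))]
    exact prm_mono hσ hab hx

lemma prm_lin (hσ : 0 < σ) {x y : ℝ} (hxy : x ≤ y) (hx : a ≤ x) (hy : y ≤ b) :
    prm a b σ y - prm a b σ x = y - x := by
  rw [prm_sub hσ]
  have : ∫ z in x..y, tht a b σ z = ∫ z in x..y, (1 : ℝ) := by
    refine intervalIntegral.integral_congr fun z hz => ?_
    rw [uIcc_of_le hxy] at hz
    exact tht_one hσ ⟨hx.trans hz.1, hz.2.trans hy⟩
  rw [this]
  simp

lemma prm_le (hσ : 0 < σ) (hab : a ≤ b) (x : ℝ) : prm a b σ x ≤ b - a + 2 * σ := by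
  have key : ∀ z, a - σ ≤ z → z ≤ b + σ → prm a b σ z ≤ b - a + 2 * σ := by
    intro z hz1 hz2
    have h1 : prm a b σ z ≤ ∫ y in (a - σ)..z, (1 : ℝ) := by
      rw [prm]
      exact intervalIntegral.integral_mono_on hz1 ((tht_c hσ).intervalIntegrable _ _)
        (continuous_const.intervalIntegrable _ _) fun y _ => tht_le_one y
    rw [intervalIntegral.integral_const] at h1
    simp only [smul_eq_mul, mul_one] at h1
    linarith
  rcases le_total x (b + σ) with hx | hx
  · rcases le_total (a - σ) x with hx2 | hx2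
    · exact key x hx2 hx
    · rw [prm_left hσ hab hx2]
      linarith
  · have h1 := prm_sub (a := a) (b := b) hσ (b + σ) x
    have h2 : ∫ z in (b + σ)..x, tht a b σ z = 0 := by
      rw [intervalIntegral.integral_of_le hx]
      exact setIntegral_eq_zero_of_forall_eq_zero fun y hy => tht_right hσ hab hy.1.le
    have h3 := key (b + σ) (by linarith) (le_refl _)
    linarith

lemma prm_wt (hσ : 0 < σ) (hab : a ≤ b) :
    ∃ K, Wt (prm a b σ) (tht a b σ) (tht1 a b σ) (tht2 a b σ) K := by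
  have hKS := KS_spec.1
  refine ⟨(b - a + 2 * σ) + 1 + 2 * KS / σ + 2 * KS / σ ^ 2, ?_⟩
  have p1 : 0 ≤ 2 * KS / σ := by positivity
  have p2 : 0 ≤ 2 * KS / σ ^ 2 := by positivity
  exact
    { d0 := fun x => intervalIntegral.integral_hasDerivAt_right
        ((tht_c hσ).intervalIntegrable _ _)
        ((tht_c hσ).stronglyMeasurableAtFilter _ _) (tht_c hσ).continuousAt
      d1 := fun x => tht_d hσ x
      d2 := fun x => tht1_d hσ x
      c3 := tht2_c
      b0 := fun x => by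
        rw [abs_of_nonneg (prm_nonneg hσ hab x)]
        linarith [prm_le hσ hab x]
      b1 := fun x => by
        rw [abs_of_nonneg (tht_nonneg hσ hab x)]
        linarith [tht_le_one (a := a) (b := b) (σ := σ) x]
      b2 := fun x => by linarith [tht1_b (a := a) (b := b) hσ x]
      b3 := fun x => by linarith [tht2_b (a := a) (b := b) hσ x] }

end

end Pool.Agent.Lib_helper19.KdV
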