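import Pool.Agent.Lib_helper19.KdV.Smooth

/-!
Smooth solutions: local mass identity, conservation of energy.
-/

namespace Pool.Agent.Lib_helper19.KdV

open MeasureTheory Set Filter Topology
open scoped ContDiff

/-- decay like `1/(1+x²)`, uniformly for `t ∈ I` -/
def UDec (I : Set ℝ) (g : ℝ → ℝ → ℝ) : Prop :=
  ∃ C : ℝ, 0 ≤ C ∧ ∀ t ∈ I, ∀ x, |g t x| ≤ C / (1 + x ^ 2)

section
variable {I : Set ℝ} {g h : ℝ → ℝ → ℝ}

lemma UDec.add (hg : UDec I g) (hh : UDec I h) : UDec I (fun t x => g t x + h t x) := by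
  obtain ⟨C, hC0, hC⟩ := hg
  obtain ⟨D, hD0, hD⟩ := hh
  refine ⟨C + D, by positivity, fun t ht x => ?_⟩
  rw [add_div]
  exact (abs_add_le _ _).trans (add_le_add (hC t ht x) (hD t ht x))

lemma UDec.neg (hg : UDec I g) : UDec I (fun t x => -(g t x)) := by
  obtain ⟨C, hC0, hC⟩ := hg
  exact ⟨C, hC0, fun t ht x => by rw [abs_neg]; exact hC t ht x⟩

lemma UDec.sub (hg : UDec I g) (hh : UDec I h) : UDec I (fun t x => g t x - h t x) := by
  simpa [sub_eq_add_neg] using hg.add hh.neg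

lemma UDec.bmul {ψ : ℝ → ℝ} {K : ℝ} (hψ : ∀ x, |ψ x| ≤ K) (hg : UDec I g) :
    UDec I (fun t x => ψ x * g t x) := by
  obtain ⟨C, hC0, hC⟩ := hg
  have hK : 0 ≤ K := (abs_nonneg _).trans (hψ 0)
  refine ⟨K * C, by positivity, fun t ht x => ?_⟩
  rw [abs_mul, mul_div_assoc]
  exact mul_le_mul (hψ x) (hC t ht x) (abs_nonneg _) hK

lemma UDec.cmul (c : ℝ) (hg : UDec I g) : UDec I (fun t x => c * g t x) :=
  UDec.bmul (ψ := fun _ => c) (K := |c|) (fun _ => le_refl _) hg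

lemma UDec.mul (hg : UDec I g) (hh : UDec I h) : UDec I (fun t x => g t x * h t x) := by
  obtain ⟨C, hC0, hC⟩ := hg
  obtain ⟨D, hD0, hD⟩ := hh
  refine ⟨C * D, by positivity, fun t ht x => ?_⟩
  have h1 : (1 : ℝ) ≤ 1 + x ^ 2 := by nlinarith [sq_nonneg x]
  have h2 : |g t x| ≤ C := (hC t ht x).trans (div_le_self hC0 h1)
  rw [abs_mul, mul_div_assoc]
  exact mul_le_mul h2 (hD t ht x) (abs_nonneg _) hC0

lemma UDec.pow (hg : UDec I g) (n : ℕ) : UDec I (fun t x => g t x ^ (n + 1)) := by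
  induction n with
  | zero => simpa using hg
  | succ n ih =>
    have := ih.mul hg
    simpa [pow_succ] using this

lemma UDec.integrable (hg : UDec I g) {t : ℝ} (ht : t ∈ I) (hc : Continuous (g t)) :
    Integrable (g t) := by
  obtain ⟨C, _, hC⟩ := hg
  exact integrable_of_decay hc.aestronglyMeasurable (hC t ht)

end

/-- a `C³` weight with bounded derivatives -/
structure Wt (ψ ψ1 ψ2 ψ3 : ℝ → ℝ) (K : ℝ) : Prop where
  d0 : ∀ x, HasDerivAt ψ (ψ1 x) x
  d1 : ∀ x, HasDerivAt ψ1 (ψ2 x) x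
  d2 : ∀ x, HasDerivAt ψ2 (ψ3 x) x
  c3 : Continuous ψ3
  b0 : ∀ x, |ψ x| ≤ K
  b1 : ∀ x, |ψ1 x| ≤ K
  b2 : ∀ x, |ψ2 x| ≤ K
  b3 : ∀ x, |ψ3 x| ≤ K

section
variable {ψ ψ1 ψ2 ψ3 : ℝ → ℝ} {K : ℝ}

lemma Wt.c0 (h : Wt ψ ψ1 ψ2 ψ3 K) : Continuous ψ :=
  continuous_iff_continuousAt.2 fun x => (h.d0 x).continuousAt

lemma Wt.c1 (h : Wt ψ ψ1 ψ2 ψ3 K) : Continuous ψ1 :=
  continuous_iff_continuousAt.2 fun x => (h.d1 x).continuousAt

lemma Wt.c2 (h : Wt ψ ψ1 ψ2 ψ3 K) : Continuous ψ2 :=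
  continuous_iff_continuousAt.2 fun x => (h.d2 x).continuousAt

lemma Wt.const (c : ℝ) : Wt (fun _ => c) (fun _ => 0) (fun _ => 0) (fun _ => 0) |c| where
  d0 := fun x => hasDerivAt_const x c
  d1 := fun x => hasDerivAt_const x 0
  d2 := fun x => hasDerivAt_const x 0
  c3 := continuous_const
  b0 := fun _ => le_refl _
  b1 := fun _ => by simp
  b2 := fun _ => by simp
  b3 := fun _ => by simp

variable {I : Set ℝ} {w : ℝ → ℝ → ℝ}

/-- the right side of the local mass identity -/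
noncomputable def massFlux (ψ1 ψ3 u v : ℝ → ℝ) : ℝ :=
  -(3 * ∫ x, ψ1 x * v x ^ 2) + 5 / 3 * (∫ x, ψ1 x * u x ^ 6) + ∫ x, ψ3 x * u x ^ 2

lemma SmoothSol.udec (h : SmoothSol I w) (n : ℕ) :
    UDec I (fun t x => iteratedDeriv n (w t) x) := h.bound n

lemma SmoothSol.udec0 (h : SmoothSol I w) : UDec I w := by
  have := h.udec 0
  simpa using this

lemma SmoothSol.mass (h : SmoothSol I w) (hψ : Wt ψ ψ1 ψ2 ψ3 K) {t : ℝ} (ht : t ∈ I) :
    HasDerivAt (fun s => ∫ x, ψ x * w s x ^ 2)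
      (massFlux ψ1 ψ3 (w t) (iteratedDeriv 1 (w t))) t := by
  -- derivative under the integral
  set F' : ℝ → ℝ → ℝ := fun s x => ψ x * (2 * (w s x * -(iteratedDeriv 3 (w s) x +
    5 * w s x ^ 4 * iteratedDeriv 1 (w s) x))) with hF'
  have c0 : ∀ s ∈ I, Continuous (w s) := fun s hs => by
    have := h.continuous_iter hs 0
    rwa [iteratedDeriv_zero] at this
  have cψ := hψ.c0
  have cψ1 := hψ.c1
  have cψ2 := hψ.c2
  have cψ3 := hψ.c3
  have cw := c0 t ht
  have cw1 := h.continuous_iter ht 1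
  have cw2 := h.continuous_iter ht 2
  have cw3 := h.continuous_iter ht 3
  have uF' : UDec I F' := by
    refine UDec.bmul hψ.b0 (UDec.cmul 2 (h.udec0.mul ?_))
    refine UDec.neg ((h.udec 3).add ?_)
    have := ((h.udec0.pow 3).cmul 5).mul (h.udec 1)
    simpa using this
  obtain ⟨C, hC0, hC⟩ := uF'
  have hder : ∀ s ∈ I, ∀ x, HasDerivAt (fun s => ψ x * w s x ^ 2) (F' s x) s := by
    intro s hs x
    refine (((h.hasDerivAt_time hs x).pow 2).const_mul (ψ x)).congr_deriv ?_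
    simp only [hF']
    push_cast
    ring
  have key := hasDerivAt_integral_of_dominated_loc_of_deriv_le (μ := volume)
    (F := fun s x => ψ x * w s x ^ 2) (F' := F') (x₀ := t)
    (bound := fun x => C * (1 + x ^ 2)⁻¹) (s := I) (h.isOpen.mem_nhds ht)
    (by
      filter_upwards [h.isOpen.mem_nhds ht] with s hs
      exact (cψ.mul ((c0 s hs).pow 2)).aestronglyMeasurable)
    ((UDec.bmul hψ.b0 (h.udec0.pow 1)).integrable ht (cψ.mul (cw.pow 2)))
    (Continuous.aestronglyMeasurable (by simp only [hF']; fun_prop))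
    (by
      filter_upwards with x s hs
      rw [Real.norm_eq_abs, ← div_eq_mul_inv]
      exact hC s hs x)
    (integrable_inv_one_add_sq.const_mul C)
    (by filter_upwards with x s hs; exact hder s hs x)
  refine key.2.congr_deriv ?_
  -- integration by parts
  set D : ℝ → ℝ := fun x => -(2 * (ψ x * (w t x * iteratedDeriv 2 (w t) x))) +
    ψ x * iteratedDeriv 1 (w t) x ^ 2 + 2 * (ψ1 x * (w t x * iteratedDeriv 1 (w t) x)) -
    ψ2 x * w t x ^ 2 - 5 / 3 * (ψ x * w t x ^ 6) with hD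
  set D' : ℝ → ℝ := fun x => F' t x - (-(3 * (ψ1 x * iteratedDeriv 1 (w t) x ^ 2)) +
    5 / 3 * (ψ1 x * w t x ^ 6) + ψ3 x * w t x ^ 2) with hD'
  have b0 : ∀ x, HasDerivAt (w t) (iteratedDeriv 1 (w t) x) x := fun x => by
    have := h.hasDerivAt_iter ht 0 x
    rwa [iteratedDeriv_zero] at this
  have b1 := h.hasDerivAt_iter ht 1
  have b2 := h.hasDerivAt_iter ht 2
  have hDd : ∀ x, HasDerivAt D (D' x) x := by
    intro x
    have t1 := (((hψ.d0 x).mul ((b0 x).mul (b2 x))).const_mul 2).neg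
    have t2 := (hψ.d0 x).mul ((b1 x).pow 2)
    have t3 := (((hψ.d1 x).mul ((b0 x).mul (b1 x))).const_mul 2)
    have t4 := (hψ.d2 x).mul ((b0 x).pow 2)
    have t5 := ((hψ.d0 x).mul ((b0 x).pow 6)).const_mul (5 / 3)
    refine ((((t1.add t2).add t3).sub t4).sub t5).congr_deriv ?_
    simp only [hD', hF', Pi.mul_apply, Pi.pow_apply]
    push_cast
    ring
  have u1 : UDec I (fun t x => ψ1 x * iteratedDeriv 1 (w t) x ^ 2) :=
    UDec.bmul hψ.b1 ((h.udec 1).pow 1)
  have u2 : UDec I (fun t x => ψ1 x * w t x ^ 6) := UDec.bmul hψ.b1 (h.udec0.pow 5)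
  have u3 : UDec I (fun t x => ψ3 x * w t x ^ 2) := UDec.bmul hψ.b3 (h.udec0.pow 1)
  have i1 := u1.integrable ht (by fun_prop)
  have i2 := u2.integrable ht (by fun_prop)
  have i3 := u3.integrable ht (by fun_prop)
  have iF := key.1
  have iR : Integrable (fun x => -(3 * (ψ1 x * iteratedDeriv 1 (w t) x ^ 2)) +
      5 / 3 * (ψ1 x * w t x ^ 6) + ψ3 x * w t x ^ 2) :=
    ((i1.const_mul 3).neg.add (i2.const_mul (5 / 3))).add i3
  have iD' : Integrable D' := iF.sub iR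
  have iD : Integrable D := by
    have uD : UDec I (fun t x => -(2 * (ψ x * (w t x * iteratedDeriv 2 (w t) x))) +
        ψ x * iteratedDeriv 1 (w t) x ^ 2 + 2 * (ψ1 x * (w t x * iteratedDeriv 1 (w t) x)) -
        ψ2 x * w t x ^ 2 - 5 / 3 * (ψ x * w t x ^ 6)) := by
      refine UDec.sub (UDec.sub (UDec.add (UDec.add (UDec.neg ?_) ?_) ?_) ?_) ?_
      · exact UDec.cmul 2 (UDec.bmul hψ.b0 (h.udec0.mul (h.udec 2)))
      · exact UDec.bmul hψ.b0 ((h.udec 1).pow 1)
      · exact UDec.cmul 2 (UDec.bmul hψ.b1 (h.udec0.mul (h.udec 1)))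
      · exact UDec.bmul hψ.b2 (h.udec0.pow 1)
      · exact UDec.cmul (5 / 3) (UDec.bmul hψ.b0 (h.udec0.pow 5))
    exact uD.integrable ht (by fun_prop)
  have hz := integral_eq_zero_of_hasDerivAt_of_integrable hDd iD' iD
  simp only [hD'] at hz
  rw [integral_sub iF iR] at hz
  have e1 : ∫ x, (-(3 * (ψ1 x * iteratedDeriv 1 (w t) x ^ 2)) +
      5 / 3 * (ψ1 x * w t x ^ 6) + ψ3 x * w t x ^ 2) =
      massFlux ψ1 ψ3 (w t) (iteratedDeriv 1 (w t)) := by
    have i4 : Integrable (fun x => -(3 * (ψ1 x * iteratedDeriv 1 (w t) x ^ 2)) +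
      5 / 3 * (ψ1 x * w t x ^ 6)) := (i1.const_mul 3).neg.add (i2.const_mul (5 / 3))
    have i5 : Integrable (fun x => -(3 * (ψ1 x * iteratedDeriv 1 (w t) x ^ 2))) :=
      (i1.const_mul 3).neg
    rw [integral_add i4 i3, integral_add i5 (i2.const_mul (5 / 3)),
      integral_neg, integral_const_mul, integral_const_mul, massFlux]
  linarith

lemma SmoothSol.energy (h : SmoothSol I w) {t : ℝ} (ht : t ∈ I) :
    HasDerivAt (fun s => ∫ x, (1 / 2 * iteratedDeriv 1 (w s) x ^ 2 - 1 / 6 * w s x ^ 6)) 0 t := by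
  set F' : ℝ → ℝ → ℝ := fun s x =>
    iteratedDeriv 1 (w s) x * -(iteratedDeriv 4 (w s) x +
      20 * w s x ^ 3 * iteratedDeriv 1 (w s) x ^ 2 +
      5 * w s x ^ 4 * iteratedDeriv 2 (w s) x) -
    w s x ^ 5 * -(iteratedDeriv 3 (w s) x + 5 * w s x ^ 4 * iteratedDeriv 1 (w s) x) with hF'
  have c0 : ∀ s ∈ I, Continuous (w s) := fun s hs => by
    have := h.continuous_iter hs 0
    rwa [iteratedDeriv_zero] at this
  have cw := c0 t ht
  have cw1 := h.continuous_iter ht 1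
  have cw2 := h.continuous_iter ht 2
  have cw3 := h.continuous_iter ht 3
  have cw4 := h.continuous_iter ht 4
  have uF' : UDec I F' := by
    have a1 : UDec I (fun t x => 20 * w t x ^ 3 * iteratedDeriv 1 (w t) x ^ 2) := by
      simpa using ((h.udec0.pow 2).cmul 20).mul ((h.udec 1).pow 1)
    have a2 : UDec I (fun t x => 5 * w t x ^ 4 * iteratedDeriv 2 (w t) x) := by
      simpa using ((h.udec0.pow 3).cmul 5).mul (h.udec 2)
    have a3 : UDec I (fun t x => 5 * w t x ^ 4 * iteratedDeriv 1 (w t) x) := by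
      simpa using ((h.udec0.pow 3).cmul 5).mul (h.udec 1)
    exact ((h.udec 1).mul ((((h.udec 4).add a1).add a2).neg)).sub
      ((h.udec0.pow 4).mul (((h.udec 3).add a3).neg))
  obtain ⟨C, hC0, hC⟩ := uF'
  have hder : ∀ s ∈ I, ∀ x, HasDerivAt
      (fun s => (1 / 2 * iteratedDeriv 1 (w s) x ^ 2 - 1 / 6 * w s x ^ 6)) (F' s x) s := by
    intro s hs x
    refine ((((h.hasDerivAt_time1 hs x).pow 2).const_mul (1 / 2)).sub
      (((h.hasDerivAt_time hs x).pow 6).const_mul (1 / 6))).congr_deriv ?_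
    simp only [hF']
    push_cast
    ring
  have ue : UDec I (fun s x => (1 / 2 * iteratedDeriv 1 (w s) x ^ 2 - 1 / 6 * w s x ^ 6)) :=
    (((h.udec 1).pow 1).cmul (1 / 2)).sub ((h.udec0.pow 5).cmul (1 / 6))
  have key := hasDerivAt_integral_of_dominated_loc_of_deriv_le (μ := volume)
    (F := fun s x => (1 / 2 * iteratedDeriv 1 (w s) x ^ 2 - 1 / 6 * w s x ^ 6))
    (F' := F') (x₀ := t)
    (bound := fun x => C * (1 + x ^ 2)⁻¹) (s := I) (h.isOpen.mem_nhds ht)
    (by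
      filter_upwards [h.isOpen.mem_nhds ht] with s hs
      have := c0 s hs
      have := h.continuous_iter hs 1
      exact Continuous.aestronglyMeasurable (by fun_prop))
    (ue.integrable ht (by fun_prop))
    (Continuous.aestronglyMeasurable (by simp only [hF']; fun_prop))
    (by
      filter_upwards with x s hs
      rw [Real.norm_eq_abs, ← div_eq_mul_inv]
      exact hC s hs x)
    (integrable_inv_one_add_sq.const_mul C)
    (by filter_upwards with x s hs; exact hder s hs x)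
  refine key.2.congr_deriv ?_
  set D : ℝ → ℝ := fun x => -(iteratedDeriv 1 (w t) x * (iteratedDeriv 3 (w t) x +
      5 * w t x ^ 4 * iteratedDeriv 1 (w t) x)) +
      1 / 2 * (iteratedDeriv 2 (w t) x + w t x ^ 5) ^ 2 with hD
  have b0 : ∀ x, HasDerivAt (w t) (iteratedDeriv 1 (w t) x) x := fun x => by
    have := h.hasDerivAt_iter ht 0 x
    rwa [iteratedDeriv_zero] at this
  have b1 := h.hasDerivAt_iter ht 1
  have b2 := h.hasDerivAt_iter ht 2
  have b3 := h.hasDerivAt_iter ht 3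
  have hDd : ∀ x, HasDerivAt D (F' t x) x := by
    intro x
    have t1 := ((b1 x).mul ((b3 x).add ((((b0 x).pow 4).const_mul 5).mul (b1 x)))).neg
    have t2 := (((b2 x).add ((b0 x).pow 5)).pow 2).const_mul (1 / 2)
    refine (t1.add t2).congr_deriv ?_
    simp only [hF', Pi.mul_apply, Pi.pow_apply, Pi.add_apply]
    push_cast
    ring
  have iD : Integrable D := by
    have a3 : UDec I (fun t x => 5 * w t x ^ 4 * iteratedDeriv 1 (w t) x) := by
      simpa using ((h.udec0.pow 3).cmul 5).mul (h.udec 1)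
    have uD : UDec I (fun t x => -(iteratedDeriv 1 (w t) x * (iteratedDeriv 3 (w t) x +
      5 * w t x ^ 4 * iteratedDeriv 1 (w t) x)) +
      1 / 2 * (iteratedDeriv 2 (w t) x + w t x ^ 5) ^ 2) :=
      (((h.udec 1).mul ((h.udec 3).add a3)).neg).add
        ((((h.udec 2).add (h.udec0.pow 4)).pow 1).cmul (1 / 2))
    exact uD.integrable ht (by fun_prop)
  exact integral_eq_zero_of_hasDerivAt_of_integrable hDd key.1 iD

end

end Pool.Agent.Lib_helper19.KdV
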