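import Pool.Agent.Lib_helper19.KdV.Ident

/-!
Passage to the limit: facts on `H¹` solutions.
-/

namespace Pool.Agent.Lib_helper19.KdV

open MeasureTheory Set Filter Topology

lemma le_of_small {a b C τ₀ : ℝ} (hC : 0 ≤ C) (hτ₀ : 0 < τ₀)
    (h : ∀ τ, 0 < τ → τ ≤ τ₀ → a ≤ b + C * τ) : a ≤ b := by
  by_contra hlt
  push Not at hlt
  have h1 : 0 < (a - b) / (2 * (C + 1)) := by
    apply div_pos <;> linarith
  have h2 := h (min τ₀ ((a - b) / (2 * (C + 1)))) (lt_min hτ₀ h1) (min_le_left _ _)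
  have h3 : C * min τ₀ ((a - b) / (2 * (C + 1))) ≤ C * ((a - b) / (2 * (C + 1))) :=
    mul_le_mul_of_nonneg_left (min_le_right _ _) hC
  have h4 : C * ((a - b) / (2 * (C + 1))) ≤ (a - b) / 2 := by
    rw [mul_div_assoc', div_le_div_iff₀ (by positivity) (by norm_num)]
    nlinarith
  linarith

/-- closeness on `[0, b]` -/
def Close (b ε : ℝ) (u v w : ℝ → ℝ → ℝ) : Prop :=
  ∀ t ∈ Icc 0 b, (∀ x, |w t x - u t x| ≤ ε) ∧ ∫ x, (w t x - u t x) ^ 2 ≤ ε ∧
      ∫ x, (deriv (w t) x - v t x) ^ 2 ≤ ε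

section
variable {T : ℝ} {u v : ℝ → ℝ → ℝ} {I : Set ℝ} {w : ℝ → ℝ → ℝ}

lemma SmoothSol.nice (h : SmoothSol I w) {t : ℝ} (ht : t ∈ I) :
    Nice (w t) (iteratedDeriv 1 (w t)) where
  d := fun x => by
    have := h.hasDerivAt_iter ht 0 x
    rwa [iteratedDeriv_zero] at this
  c := h.continuous_iter ht 1
  b := by
    obtain ⟨C0, h0, hC0⟩ := h.udec0
    obtain ⟨C1, h1, hC1⟩ := h.udec 1
    refine ⟨max C0 C1, fun x => ⟨(hC0 t ht x).trans ?_, (hC1 t ht x).trans ?_⟩⟩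
    · gcongr
      exact le_max_left _ _
    · gcongr
      exact le_max_right _ _

lemma Nice.memLp {f f' : ℝ → ℝ} (h : Nice f f') : MemLp f 2 volume := by
  rw [memLp_two_iff_integrable_sq h.cont.aestronglyMeasurable]
  have := h.integrable_mul (φ := fun _ => 1) continuous_const (B := 1) (by simp) 1
  simpa using this

lemma Nice.memLp' {f f' : ℝ → ℝ} (h : Nice f f') : MemLp f' 2 volume := by
  rw [memLp_two_iff_integrable_sq h.c.aestronglyMeasurable]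
  have := h.integrable_mul' (φ := fun _ => 1) continuous_const (B := 1) (by simp)
  simpa using this

lemma int_sq_le {f g : ℝ → ℝ} (hf : MemLp f 2 volume) (hg : MemLp g 2 volume) :
    ∫ x, g x ^ 2 ≤ 2 * (∫ x, f x ^ 2) + 2 * ∫ x, (f x - g x) ^ 2 := by
  have i1 := hf.integrable_sq
  have i2 := hg.integrable_sq
  have i3 : Integrable (fun x => (f x - g x) ^ 2) := (hf.sub hg).integrable_sq
  rw [← integral_const_mul, ← integral_const_mul, ← integral_add (i1.const_mul _)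
    (i3.const_mul _)]
  refine integral_mono i2 ((i1.const_mul _).add (i3.const_mul _)) fun x => ?_
  simp only
  nlinarith [sq_nonneg (2 * f x - g x)]

lemma UDec.int_sq {g : ℝ → ℝ → ℝ} (hg : UDec I g) (hc : ∀ t ∈ I, Continuous (g t)) :
    ∃ H, 0 ≤ H ∧ ∀ t ∈ I, ∫ x, g t x ^ 2 ≤ H := by
  obtain ⟨C, hC0, hC⟩ := hg.pow 1
  refine ⟨C * Real.pi, by positivity, fun t ht => ?_⟩
  have h1 : Integrable (fun x : ℝ => C * (1 + x ^ 2)⁻¹) := integrable_inv_one_add_sq.const_mul C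
  have h2 : ∫ x : ℝ, C * (1 + x ^ 2)⁻¹ = C * Real.pi := by
    rw [integral_const_mul, integral_univ_inv_one_add_sq]
  rw [← h2]
  refine integral_mono_of_nonneg (Eventually.of_forall fun x => sq_nonneg _) h1
    (Eventually.of_forall fun x => ?_)
  simp only
  have := hC t ht x
  rw [abs_of_nonneg (show 0 ≤ g t x ^ (1 + 1) from sq_nonneg _)] at this
  rwa [← div_eq_mul_inv]

/-- uniform bounds on `[0, b]` -/
lemma H1Sol.bounds (h : H1Sol T u v) {b : ℝ} (hb : b < T) :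
    ∃ K H : ℝ, 0 ≤ K ∧ 0 ≤ H ∧ ∀ t ∈ Icc 0 b, (∀ x, |u t x| ≤ K) ∧ ∫ x, u t x ^ 2 ≤ H ∧
      ∫ x, v t x ^ 2 ≤ H := by
  obtain ⟨I, w, hI, hw, hcl⟩ := h.approx b hb 1 one_pos
  obtain ⟨K0, hK0, hK⟩ := hw.udec0
  obtain ⟨H0, hH0, hH⟩ := hw.udec0.int_sq (fun t ht => by
    have := hw.continuous_iter ht 0
    rwa [iteratedDeriv_zero] at this)
  obtain ⟨H1, hH1, hH'⟩ := (hw.udec 1).int_sq (fun t ht => hw.continuous_iter ht 1)
  refine ⟨K0 + 1, 2 * H0 + 2 * H1 + 2, by positivity, by positivity, fun t ht => ?_⟩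
  obtain ⟨c1, c2, c3⟩ := hcl t ht
  have htT : t ∈ Ico 0 T := ⟨ht.1, ht.2.trans_lt hb⟩
  have n := hw.nice (hI ht)
  refine ⟨fun x => ?_, ?_, ?_⟩
  · have e : u t x = w t x - (w t x - u t x) := by ring
    rw [e]
    refine (abs_sub _ _).trans (add_le_add ?_ (c1 x))
    refine (hK t (hI ht) x).trans (div_le_self hK0 ?_)
    nlinarith [sq_nonneg x]
  · have := int_sq_le n.memLp (h.memU t htT)
    have h2 := hH t (hI ht)
    linarith
  · have := int_sq_le n.memLp' (h.memV t htT)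
    have h2 := hH' t (hI ht)
    rw [iteratedDeriv_one] at this h2
    linarith

lemma H1Sol.main_close (h : H1Sol T u v) {b : ℝ} (hb : b < T) {B τ : ℝ} (hB : 0 ≤ B)
    (hτ : 0 < τ) : ∃ ε > 0, ∀ (I : Set ℝ) (w : ℝ → ℝ → ℝ), Icc 0 b ⊆ I → SmoothSol I w →
      Close b ε u v w → ∀ t ∈ Icc 0 b, ∀ φ : ℝ → ℝ, AEStronglyMeasurable φ volume →
        (∀ x, |φ x| ≤ B) →
        |(∫ x, φ x * w t x ^ 2) - ∫ x, φ x * u t x ^ 2| ≤ τ ∧
        |(∫ x, φ x * iteratedDeriv 1 (w t) x ^ 2) - ∫ x, φ x * v t x ^ 2| ≤ τ ∧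
        |(∫ x, φ x * w t x ^ 4) - ∫ x, φ x * u t x ^ 4| ≤ τ ∧
        |(∫ x, φ x * w t x ^ 6) - ∫ x, φ x * u t x ^ 6| ≤ τ := by
  obtain ⟨K0, H, hK0, hH, hKH⟩ := h.bounds hb
  set K := K0 + 1 with hKdef
  have hK : 0 ≤ K := by positivity
  set L := (B + 1) * (1 + 2 * K ^ 2 + 3 * K ^ 4) with hL
  have hL0 : 0 < L := by positivity
  obtain ⟨δ, hδ, ε₀, hε₀, hδε⟩ := exists_err hH (show 0 < τ / L by positivity)
  refine ⟨min 1 ε₀, lt_min one_pos hε₀, fun I w hI hw hcl t ht φ hφ hφB => ?_⟩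
  obtain ⟨c1, c2, c3⟩ := hcl t ht
  obtain ⟨k1, k2, k3⟩ := hKH t ht
  have htT : t ∈ Ico 0 T := ⟨ht.1, ht.2.trans_lt hb⟩
  have n := hw.nice (hI ht)
  have mw := n.memLp
  have mw' := n.memLp'
  have mu := h.memU t htT
  have mv := h.memV t htT
  have uK : ∀ x, |u t x| ≤ K := fun x => (k1 x).trans (by simp [hKdef])
  have wK : ∀ x, |w t x| ≤ K := fun x => by
    have e : w t x = u t x + (w t x - u t x) := by ring
    rw [e]
    exact (abs_add_le _ _).trans (add_le_add (k1 x) ((c1 x).trans (min_le_left _ _)))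
  have e1 : err δ (w t) (u t) ≤ τ / L := hδε _ _ (c2.trans (min_le_right _ _)) k2
  have e2 : err δ (iteratedDeriv 1 (w t)) (v t) ≤ τ / L := by
    refine hδε _ _ ?_ k3
    rw [iteratedDeriv_one]
    exact c3.trans (min_le_right _ _)
  have e10 : 0 ≤ err δ (w t) (u t) := by
    rw [err]
    have : 0 ≤ ∫ x, (w t x - u t x) ^ 2 := integral_nonneg fun x => sq_nonneg _
    have : 0 ≤ ∫ x, (u t x) ^ 2 := integral_nonneg fun x => sq_nonneg _
    positivity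
  have e20 : 0 ≤ err δ (iteratedDeriv 1 (w t)) (v t) := by
    rw [err]
    have : 0 ≤ ∫ x, (iteratedDeriv 1 (w t) x - v t x) ^ 2 := integral_nonneg fun x => sq_nonneg _
    have : 0 ≤ ∫ x, (v t x) ^ 2 := integral_nonneg fun x => sq_nonneg _
    positivity
  have fin : ∀ {c e : ℝ}, 0 ≤ e → e ≤ τ / L → 0 ≤ c → c ≤ L → c * e ≤ τ := by
    intro c e he0 he hc0 hc
    calc c * e ≤ L * (τ / L) := mul_le_mul hc he he0 hL0.le
      _ = τ := by field_simp
  have p2 : 0 ≤ K ^ 2 := by positivity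
  have p4 : 0 ≤ K ^ 4 := by positivity
  refine ⟨(close_sq mw mu hδ hφ hφB).trans (fin e10 e1 hB ?_),
    (close_sq mw' mv hδ hφ hφB).trans (fin e20 e2 hB ?_),
    (close_four mw mu hδ hφ hφB wK uK).trans (fin e10 e1 (by positivity) ?_),
    (close_six mw mu hδ hφ hφB wK uK).trans (fin e10 e1 (by positivity) ?_)⟩
  all_goals rw [hL]; nlinarith [mul_nonneg hB p2, mul_nonneg hB p4]

/-- the local mass identity -/
lemma H1Sol.mass_deriv (h : H1Sol T u v) {ψ ψ1 ψ2 ψ3 : ℝ → ℝ} {K : ℝ}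
    (hψ : Wt ψ ψ1 ψ2 ψ3 K) {t : ℝ} (ht : t ∈ Ioo 0 T) :
    HasDerivAt (fun s => ∫ x, ψ x * u s x ^ 2) (massFlux ψ1 ψ3 (u t) (v t)) t := by
  set b := (t + T) / 2 with hb
  have hbT : b < T := by rw [hb]; linarith [ht.2]
  have htb : t < b := by rw [hb]; linarith [ht.2]
  have hK : 0 ≤ K := (abs_nonneg _).trans (hψ.b0 0)
  have hch : ∀ n : ℕ, ∃ (w : ℝ → ℝ → ℝ) (I : Set ℝ), Icc 0 b ⊆ I ∧ SmoothSol I w ∧
      ∀ s ∈ Icc 0 b, |massFlux ψ1 ψ3 (w s) (iteratedDeriv 1 (w s)) -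
        massFlux ψ1 ψ3 (u s) (v s)| ≤ 6 * (1 / ((n : ℝ) + 1)) ∧
        |(∫ x, ψ x * w s x ^ 2) - ∫ x, ψ x * u s x ^ 2| ≤ 1 / ((n : ℝ) + 1) := by
    intro n
    have hn : 0 < 1 / ((n : ℝ) + 1) := by positivity
    obtain ⟨ε, hε, hcl⟩ := h.main_close hbT hK hn
    obtain ⟨I, w, hI, hw, hc⟩ := h.approx b hbT ε hε
    refine ⟨w, I, hI, hw, fun s hs => ?_⟩
    have a0 := hcl I w hI hw hc s hs ψ hψ.c0.aestronglyMeasurable hψ.b0
    have a1 := hcl I w hI hw hc s hs ψ1 hψ.c1.aestronglyMeasurable hψ.b1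
    have a3 := hcl I w hI hw hc s hs ψ3 hψ.c3.aestronglyMeasurable hψ.b3
    refine ⟨?_, a0.1⟩
    have b1 := a1.2.1
    have b2 := a1.2.2.2
    have b3 := a3.1
    rw [abs_le] at b1 b2 b3 ⊢
    rw [massFlux, massFlux]
    constructor <;> linarith [b1.1, b1.2, b2.1, b2.2, b3.1, b3.2]
  choose wn In hIn hwn hcn using hch
  have hlim0 : Tendsto (fun n : ℕ => 1 / ((n : ℝ) + 1)) atTop (𝓝 0) :=
    tendsto_one_div_add_atTop_nhds_zero_nat
  have hss : ∀ {s}, s ∈ Ioo 0 b → s ∈ Icc 0 b := fun hs => ⟨hs.1.le, hs.2.le⟩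
  refine hasDerivAt_of_tendstoUniformlyOn (l := atTop) (s := Ioo 0 b) isOpen_Ioo
    (f := fun n s => ∫ x, ψ x * wn n s x ^ 2)
    (f' := fun n s => massFlux ψ1 ψ3 (wn n s) (iteratedDeriv 1 (wn n s)))
    (g' := fun s => massFlux ψ1 ψ3 (u s) (v s)) ?_ ?_ ?_ ⟨ht.1, htb⟩
  · rw [Metric.tendstoUniformlyOn_iff]
    intro e he
    have h6 : Tendsto (fun n : ℕ => 6 * (1 / ((n : ℝ) + 1))) atTop (𝓝 0) := by
      simpa using hlim0.const_mul 6
    filter_upwards [h6.eventually_lt_const he] with n hn s hs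
    rw [Real.dist_eq, abs_sub_comm]
    exact lt_of_le_of_lt (hcn n s (hss hs)).1 hn
  · filter_upwards with n s hs
    exact (hwn n).mass hψ (hIn n (hss hs))
  · intro s hs
    rw [tendsto_iff_norm_sub_tendsto_zero]
    refine squeeze_zero (fun n => norm_nonneg _) (fun n => ?_) hlim0
    rw [Real.norm_eq_abs]
    exact (hcn n s (hss hs)).2

/-- the energy -/
noncomputable def energy (u v : ℝ → ℝ) : ℝ :=
  1 / 2 * (∫ x, v x ^ 2) - 1 / 6 * ∫ x, u x ^ 6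

lemma H1Sol.energy_deriv (h : H1Sol T u v) {t : ℝ} (ht : t ∈ Ioo 0 T) :
    HasDerivAt (fun s => energy (u s) (v s)) 0 t := by
  set b := (t + T) / 2 with hb
  have hbT : b < T := by rw [hb]; linarith [ht.2]
  have htb : t < b := by rw [hb]; linarith [ht.2]
  have hch : ∀ n : ℕ, ∃ (w : ℝ → ℝ → ℝ) (I : Set ℝ), Icc 0 b ⊆ I ∧ SmoothSol I w ∧
      ∀ s ∈ Icc 0 b, |(∫ x, (1 / 2 * iteratedDeriv 1 (w s) x ^ 2 - 1 / 6 * w s x ^ 6)) -
        energy (u s) (v s)| ≤ 1 / ((n : ℝ) + 1) := by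
    intro n
    have hn : 0 < 1 / ((n : ℝ) + 1) := by positivity
    obtain ⟨ε, hε, hcl⟩ := h.main_close hbT zero_le_one hn
    obtain ⟨I, w, hI, hw, hc⟩ := h.approx b hbT ε hε
    refine ⟨w, I, hI, hw, fun s hs => ?_⟩
    have a0 := hcl I w hI hw hc s hs (fun _ => 1) aestronglyMeasurable_const (by simp)
    have n1 := hw.nice (hI hs)
    have i1 : Integrable (fun x => iteratedDeriv 1 (w s) x ^ 2) := n1.memLp'.integrable_sq
    have i2 : Integrable (fun x => w s x ^ 6) := by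
      have := n1.integrable_mul (φ := fun _ => 1) continuous_const (B := 1) (by simp) 5
      simpa using this
    rw [integral_sub (i1.const_mul _) (i2.const_mul _), integral_const_mul, integral_const_mul,
      energy]
    simp only [one_mul] at a0
    have b1 := a0.2.1
    have b2 := a0.2.2.2
    rw [abs_le] at b1 b2 ⊢
    constructor <;> linarith [b1.1, b1.2, b2.1, b2.2]
  choose wn In hIn hwn hcn using hch
  have hlim0 : Tendsto (fun n : ℕ => 1 / ((n : ℝ) + 1)) atTop (𝓝 0) :=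
    tendsto_one_div_add_atTop_nhds_zero_nat
  have hss : ∀ {s}, s ∈ Ioo 0 b → s ∈ Icc 0 b := fun hs => ⟨hs.1.le, hs.2.le⟩
  refine hasDerivAt_of_tendstoUniformlyOn (l := atTop) (s := Ioo 0 b) isOpen_Ioo
    (f := fun n s => ∫ x, (1 / 2 * iteratedDeriv 1 (wn n s) x ^ 2 - 1 / 6 * wn n s x ^ 6))
    (f' := fun _ _ => (0 : ℝ))
    (g' := fun _ => (0 : ℝ)) ?_ ?_ ?_ ⟨ht.1, htb⟩
  · rw [Metric.tendstoUniformlyOn_iff]
    intro e he
    filter_upwards with n s hs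
    simpa using he
  · filter_upwards with n s hs
    exact (hwn n).energy (hIn n (hss hs))
  · intro s hs
    rw [tendsto_iff_norm_sub_tendsto_zero]
    refine squeeze_zero (fun n => norm_nonneg _) (fun n => ?_) hlim0
    rw [Real.norm_eq_abs]
    exact hcn n s (hss hs)

lemma const_of_deriv_zero {f : ℝ → ℝ} (hf : ∀ t ∈ Ioo 0 T, HasDerivAt f 0 t) {s t : ℝ}
    (hs : s ∈ Ioo 0 T) (ht : t ∈ Ioo 0 T) : f s = f t :=
  isOpen_Ioo.is_const_of_deriv_eq_zero isPreconnected_Ioo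
    (fun x hx => (hf x hx).differentiableAt.differentiableWithinAt)
    (fun x hx => (hf x hx).deriv) hs ht

lemma H1Sol.mass_const (h : H1Sol T u v) {s t : ℝ} (hs : s ∈ Ioo 0 T) (ht : t ∈ Ioo 0 T) :
    ∫ x, u s x ^ 2 = ∫ x, u t x ^ 2 := by
  refine const_of_deriv_zero (T := T) (f := fun s => ∫ x, u s x ^ 2) (fun r hr => ?_) hs ht
  have := h.mass_deriv (Wt.const 1) hr
  simp only [one_mul] at this
  refine this.congr_deriv ?_
  simp [massFlux]

lemma H1Sol.energy_const (h : H1Sol T u v) {s t : ℝ} (hs : s ∈ Ioo 0 T) (ht : t ∈ Ioo 0 T) :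
    energy (u s) (v s) = energy (u t) (v t) :=
  const_of_deriv_zero (T := T) (fun r hr => h.energy_deriv hr) hs ht

/-- sharp inequality with a weight, if no interval of length `2ρ` which meets the support of the
weight carries more than `m` -/
lemma H1Sol.gnW (h : H1Sol T u v) {t : ℝ} (ht : t ∈ Ioo 0 T) {ρ m m' κ B : ℝ} (hρ : 0 < ρ)
    {ω ω' : ℝ → ℝ}
    (hω : ∀ x, HasDerivAt ω (ω' x) x) (hω' : Continuous ω') (hω0 : ∀ x, 0 ≤ ω x)
    (hω1 : ∀ x, ω x ≤ 1) (hB : ∀ x, |ω' x| ≤ B) (hm0 : 0 ≤ m)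
    (hm : ∀ y, (∀ x ∈ Icc y (y + 2 * ρ), ω x = 0) ∨ ∫ x in y..(y + 2 * ρ), u t x ^ 2 ≤ m)
    (hmm : m < m') (hκ : 0 < κ) (hκm : κ * m' < Real.pi) :
    κ ^ 2 * ∫ x, ω x * u t x ^ 6 ≤ 4 * (∫ x, ω x * v t x ^ 2) +
        κ * Real.tan (κ * m' / 2) * (Real.pi / ρ + 2 * B) * ∫ x, u t x ^ 4 := by
  have hm'0 : 0 ≤ m' := by linarith
  have ht0 : 0 ≤ Real.tan (κ * m' / 2) := Real.tan_nonneg_of_nonneg_of_le_pi_div_two
    (by positivity) (by linarith)
  have hB0 : 0 ≤ B := (abs_nonneg _).trans (hB 0)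
  have hωc : Continuous ω := continuous_iff_continuousAt.2 fun x => (hω x).continuousAt
  have hωb : ∀ x, |ω x| ≤ 1 := fun x => by rw [abs_of_nonneg (hω0 x)]; exact hω1 x
  set c := κ * Real.tan (κ * m' / 2) * (Real.pi / ρ + 2 * B) with hc
  have hc0 : 0 ≤ c := by positivity
  refine le_of_small (C := κ ^ 2 + 4 + c) (τ₀ := m' - m) (by positivity) (by linarith)
    fun τ hτ hτm => ?_
  obtain ⟨ε, hε, hcl⟩ := h.main_close ht.2 zero_le_one hτ
  obtain ⟨I, w, hI, hw, hcw⟩ := h.approx t ht.2 ε hε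
  have htt : t ∈ Icc 0 t := ⟨ht.1.le, le_refl _⟩
  have n := hw.nice (hI htt)
  have hm' : ∀ y, (∀ x ∈ Icc y (y + 2 * ρ), ω x = 0) ∨
      ∫ x in y..(y + 2 * ρ), w t x ^ 2 ≤ m' := by
    intro y
    rcases hm y with h1 | h1
    · exact Or.inl h1
    right
    have hy : y ≤ y + 2 * ρ := by linarith
    have a := (hcl I w hI hw hcw t htt (indicator (Ioc y (y + 2 * ρ)) fun _ => 1)
      ((measurable_const.indicator measurableSet_Ioc).aestronglyMeasurable)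
      (fun x => by
        by_cases hx : x ∈ Ioc y (y + 2 * ρ)
        · simp [hx]
        · simp [hx])).1
    have e : ∀ f : ℝ → ℝ, ∫ x, indicator (Ioc y (y + 2 * ρ)) (fun _ => (1 : ℝ)) x * f x ^ 2 =
        ∫ x in y..(y + 2 * ρ), f x ^ 2 := by
      intro f
      rw [intervalIntegral.integral_of_le hy, ← integral_indicator measurableSet_Ioc]
      congr 1
      ext x
      by_cases hx : x ∈ Ioc y (y + 2 * ρ)
      · simp [hx]
      · simp [hx]
    rw [e, e, abs_le] at a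
    linarith [a.2]
  have key := gn_weight n hρ hω hω' hω0 hω1 hB hm'0 hm' hκ hκm
  have a := hcl I w hI hw hcw t htt (fun _ => 1) aestronglyMeasurable_const (by simp)
  have b := hcl I w hI hw hcw t htt ω hωc.aestronglyMeasurable hωb
  simp only [one_mul] at a
  obtain ⟨-, -, a4, -⟩ := a
  obtain ⟨-, a2, -, a6⟩ := b
  rw [abs_le] at a2 a4 a6
  rw [← hc] at key
  have k6 := mul_le_mul_of_nonneg_left (show (∫ x, ω x * u t x ^ 6) - τ ≤
    ∫ x, ω x * w t x ^ 6 by linarith [a6.1]) (sq_nonneg κ)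
  have k4 := mul_le_mul_of_nonneg_left (show (∫ x, w t x ^ 4) ≤ (∫ x, u t x ^ 4) + τ by
    linarith [a4.2]) hc0
  nlinarith [a2.2]

end

end Pool.Agent.Lib_helper19.KdV
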