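import Pool.Agent.Lib_helper19.KdV.Bubble

/-!
The location of the bubble for solutions with mass less than twice the mass of the ground state.
-/

namespace Pool.Agent.Lib_helper19.KdV

open MeasureTheory Set Filter Topology

/-- the situation -/
structure Loc (T ν M d η₀ m μ Cs A₀ c₀ C₁ t₁ : ℝ) (u v : ℝ → ℝ → ℝ) (y : ℝ → ℝ) : Prop where
  hT : 0 < T
  hν : 1 / 3 < ν
  sol : H1Sol T u v
  hM : M = ∫ x, u (T / 2) x ^ 2
  hMpos : 0 < M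
  hd : d = 2 * massQ - M
  hd0 : 0 < d
  hη₀ : 0 < η₀
  hη₀d : η₀ ≤ d / 8
  hη₀Q : η₀ ≤ massQ / 8
  hm : M - (massQ - η₀) ≤ m
  hμ : 0 < μ
  hCs : 0 ≤ Cs
  hflux : ∀ t ∈ Ioo 0 T, ∀ a b σ : ℝ, a ≤ b → 0 < σ →
      ∫ x in (Icc a b)ᶜ, u t x ^ 2 ≤ m →
      μ * (∫ x, v t x ^ 2) - Cs * (1 + 1 / σ ^ 2) ≤
        massFlux (tht a b σ) (tht2 a b σ) (u t) (v t)
  hA₀ : 0 < A₀
  hc₀ : 0 < c₀
  hC₁ : 0 ≤ C₁
  ht₁ : 0 < t₁
  ht₁T : t₁ < T
  ht₁1 : T - t₁ ≤ 1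
  low : ∀ t ∈ Ioo t₁ T, c₀ * (T - t) ^ (-(2 * ν)) ≤ ∫ x, v t x ^ 2
  up : ∀ t ∈ Ioo t₁ T, ∫ x, v t x ^ 2 ≤ C₁ * (T - t) ^ (-(2 * ν))
  bub : ∀ t ∈ Ioo t₁ T,
    massQ - η₀ ≤ ∫ x in {x : ℝ | |x - y t| ≤ A₀ * (T - t) ^ ν}, u t x ^ 2

section
variable {T ν M d η₀ m μ Cs A₀ c₀ C₁ t₁ : ℝ} {u v : ℝ → ℝ → ℝ} {y : ℝ → ℝ}

lemma win_mono {f : ℝ → ℝ} (hf : Integrable f) (hf0 : ∀ x, 0 ≤ f x) {z r s : ℝ} (hrs : r ≤ s) :
    ∫ x in {x : ℝ | |x - z| ≤ r}, f x ≤ ∫ x in {x : ℝ | |x - z| ≤ s}, f x := by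
  have hsub : {x : ℝ | |x - z| ≤ r} ⊆ {x : ℝ | |x - z| ≤ s} := fun x hx => by
    simp only [mem_ofPred_eq] at hx ⊢
    linarith
  exact setIntegral_mono_set hf.integrableOn (Eventually.of_forall hf0) hsub.eventuallyLE

lemma Loc.mem (S : Loc T ν M d η₀ m μ Cs A₀ c₀ C₁ t₁ u v y) {t : ℝ} (ht : t ∈ Ioo t₁ T) :
    t ∈ Ioo 0 T := ⟨S.ht₁.trans ht.1, ht.2⟩

lemma Loc.pow_le (S : Loc T ν M d η₀ m μ Cs A₀ c₀ C₁ t₁ u v y) {t p q : ℝ} (ht : t ∈ Ioo t₁ T)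
    (hpq : p ≤ q) : (T - t) ^ q ≤ (T - t) ^ p :=
  Real.rpow_le_rpow_of_exponent_ge (sub_pos.2 ht.2) (by linarith [S.ht₁1, ht.1]) hpq

/-- bubble in a larger window, at later times -/
lemma Loc.bub' (S : Loc T ν M d η₀ m μ Cs A₀ c₀ C₁ t₁ u v y) {s τ ρ : ℝ} (hs : s ∈ Ioo t₁ T)
    (hτ : τ ∈ Ioo t₁ T) (hsτ : s ≤ τ) (hρ : A₀ * (T - s) ^ (1 / 3 : ℝ) ≤ ρ) :
    massQ - η₀ ≤ ∫ x in {x : ℝ | |x - y τ| ≤ ρ}, u τ x ^ 2 := by
  refine (S.bub τ hτ).trans (win_mono (S.sol.int_u (S.mem hτ)) (fun x => sq_nonneg _) ?_)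
  refine le_trans ?_ hρ
  refine mul_le_mul_of_nonneg_left ?_ S.hA₀.le
  have h1 := S.pow_le hτ (show (1 / 3 : ℝ) ≤ ν from S.hν.le)
  have h2 : (T - τ) ^ (1 / 3 : ℝ) ≤ (T - s) ^ (1 / 3 : ℝ) :=
    Real.rpow_le_rpow (sub_pos.2 hτ.2).le (by linarith) (by norm_num)
  linarith

lemma Loc.mono3 (S : Loc T ν M d η₀ m μ Cs A₀ c₀ C₁ t₁ u v y) :
    ∃ Λ > 0, ∀ s₁ ∈ Ioo t₁ T, ∀ s₂ ∈ Ioo t₁ T, s₁ ≤ s₂ →
      y s₁ - Λ * (T - s₁) ^ (1 / 3 : ℝ) ≤ y s₂ := by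
  have hd0 := S.hd0
  have hMpos := S.hMpos
  have hA₀ := S.hA₀
  have hCs := S.hCs
  set K := 2 * A₀ * M + Cs + 64 * Cs * M ^ 2 / d ^ 2 with hK
  have hK0 : 0 ≤ K := by positivity
  set Λ := 1 + 2 * A₀ + 2 / d * K with hΛ
  have hΛ1 : 1 ≤ Λ := by
    have : 0 ≤ 2 / d * K := by positivity
    rw [hΛ]; linarith
  have hΛA : 2 * A₀ ≤ Λ := by
    have : 0 ≤ 2 / d * K := by positivity
    rw [hΛ]; linarith
  have hΛK : K < d * Λ / 2 := by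
    have e : d * Λ / 2 = d / 2 + d * A₀ + K := by
      rw [hΛ]; field_simp
    rw [e]
    have : 0 < d * A₀ := by positivity
    linarith
  have hΛ0 : 0 < Λ := by linarith
  refine ⟨Λ, hΛ0, fun s₁ hs₁ s₂ hs₂ h12 => ?_⟩
  by_contra hcon
  push Not at hcon
  have hTs : 0 < T - s₁ := sub_pos.2 hs₁.2
  set X := (T - s₁) ^ (1 / 3 : ℝ) with hX
  have hX0 : 0 < X := Real.rpow_pos_of_pos hTs _
  have hX3 : X ^ 3 = T - s₁ := by
    rw [hX, ← Real.rpow_natCast, ← Real.rpow_mul hTs.le]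
    norm_num
  have hX1 : X ≤ 1 := Real.rpow_le_one hTs.le (by linarith [S.ht₁1, hs₁.1]) (by norm_num)
  have key := S.sol.mono S.hT S.hμ S.hCs S.hflux S.hM S.hMpos S.hd S.hd0 S.hη₀ S.hη₀d S.hη₀Q
    S.hm (s₁ := s₁) (s₂ := s₂) (ρ := A₀ * X) (L := Λ * X) (S.mem hs₁).1 h12 hs₂.2
    (by positivity) (y := y)
    (fun τ hτ => S.bub' hs₁ ⟨lt_of_lt_of_le hs₁.1 hτ.1, lt_of_le_of_lt hτ.2 hs₂.2⟩ hτ.1
      (le_refl _))
    (by positivity) (by nlinarith) (by linarith)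
  have h1 : Cs * (1 + 1 / (d * (Λ * X) / (8 * M)) ^ 2) * (s₂ - s₁) ≤
      Cs * (1 + 1 / (d * (Λ * X) / (8 * M)) ^ 2) * X ^ 3 := by
    refine mul_le_mul_of_nonneg_left ?_ (by positivity)
    rw [hX3]
    linarith [hs₂.2]
  have h2 : Cs * (1 + 1 / (d * (Λ * X) / (8 * M)) ^ 2) * X ^ 3 =
      Cs * X ^ 3 + 64 * Cs * M ^ 2 / d ^ 2 * (X / Λ ^ 2) := by
    field_simp
    ring
  have h3 : Cs * X ^ 3 ≤ Cs * X := by
    refine mul_le_mul_of_nonneg_left ?_ hCs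
    calc X ^ 3 = X ^ 2 * X := by ring
      _ ≤ 1 * X := by
        refine mul_le_mul_of_nonneg_right ?_ hX0.le
        exact pow_le_one₀ hX0.le hX1
      _ = X := one_mul X
  have h4 : 64 * Cs * M ^ 2 / d ^ 2 * (X / Λ ^ 2) ≤ 64 * Cs * M ^ 2 / d ^ 2 * X := by
    refine mul_le_mul_of_nonneg_left ?_ (by positivity)
    rw [div_le_iff₀ (by positivity)]
    have : 1 ≤ Λ ^ 2 := one_le_pow₀ hΛ1
    nlinarith
  have h5 : K * X < d * Λ / 2 * X := mul_lt_mul_of_pos_right hΛK hX0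
  have h6 : K * X = 2 * (A₀ * X) * M + Cs * X + 64 * Cs * M ^ 2 / d ^ 2 * X := by
    rw [hK]; ring
  have h7 : d * (Λ * X) / 2 = d * Λ / 2 * X := by ring
  linarith

lemma Loc.mass_lt (S : Loc T ν M d η₀ m μ Cs A₀ c₀ C₁ t₁ u v y) {t : ℝ} (ht : t ∈ Ioo t₁ T) :
    ∫ x, u t x ^ 2 < (massQ - η₀) + (massQ - η₀) := by
  rw [S.sol.mass_eq S.hT (S.mem ht), ← S.hM]
  have := S.hd
  have := S.hη₀d
  have := S.hd0
  linarith

/-- bubbles for all thresholds -/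
lemma Loc.all (S : Loc T ν M d η₀ m μ Cs A₀ c₀ C₁ t₁ u v y) {η : ℝ} (hη : 0 < η) :
    ∃ A > 0, ∀ᶠ t in 𝓝[<] T,
      massQ - η ≤ ∫ x in {x : ℝ | |x - y t| ≤ A * (T - t) ^ ν}, u t x ^ 2 := by
  have hQ := massQ_pos
  have hν0 : 0 < ν := by linarith [S.hν]
  obtain ⟨A', hA', hev⟩ := S.sol.concScale S.hT S.ht₁.le S.ht₁T S.hc₀ hν0 S.low
    (η := min η η₀) (lt_min hη S.hη₀)
    (lt_of_le_of_lt (min_le_right _ _) (by linarith [S.hη₀Q]))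
  have hA₀ := S.hA₀
  refine ⟨A₀ + 2 * A', by positivity, ?_⟩
  have hmem : ∀ᶠ t in 𝓝[<] T, t ∈ Ioo t₁ T := ev_iff.2 ⟨t₁, S.ht₁T, fun t ht => ht⟩
  filter_upwards [hev, hmem] with t ⟨z, hz⟩ ht
  have iu := S.sol.int_u (S.mem ht)
  have hz1 : massQ - η₀ ≤ ∫ x in {x : ℝ | |x - z| ≤ A' * (T - t) ^ ν}, u t x ^ 2 := by
    have := min_le_right η η₀
    linarith
  have hz2 : massQ - η ≤ ∫ x in {x : ℝ | |x - z| ≤ A' * (T - t) ^ ν}, u t x ^ 2 := by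
    have := min_le_left η η₀
    linarith
  have hov := overlap iu (fun x => sq_nonneg _) (S.bub t ht) hz1 (S.mass_lt ht)
  refine hz2.trans (setIntegral_mono_set iu.integrableOn
    (Eventually.of_forall fun x => sq_nonneg _) (HasSubset.Subset.eventuallyLE ?_))
  intro x hx
  simp only [mem_ofPred_eq] at hx ⊢
  have e : x - y t = (x - z) + (z - y t) := by ring
  rw [e]
  refine (abs_add_le _ _).trans ?_
  linarith

/-- finite point: the position for `ν < 1/2` -/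
lemma Loc.finite (S : Loc T ν M d η₀ m μ Cs A₀ c₀ C₁ t₁ u v y) (hν2 : ν < 1 / 2) :
    ∃ x₀ c A : ℝ, 0 < c ∧ ∀ᶠ t in 𝓝[<] T,
      c * (T - t) ^ (1 - 2 * ν) ≤ x₀ - y t ∧ x₀ - y t ≤ A * (T - t) ^ (1 - 2 * ν) := by
  have hν := S.hν
  set α := 1 - 2 * ν with hα
  have hα0 : 0 < α := by linarith
  have hα3 : 3 * α < 1 := by linarith
  have hMpos := S.hMpos
  have hA₀ := S.hA₀
  have hc₀ := S.hc₀
  have hμ := S.hμ
  have hCs := S.hCs
  have hG : ∀ t ∈ Ioo t₁ T, ∫ x, v t x ^ 2 ≤ C₁ * (T - t) ^ (α - 1) := by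
    intro t ht
    have e : α - 1 = -(2 * ν) := by rw [hα]; ring
    rw [e]
    exact S.up t ht
  have hinf : ∀ N : ℝ, ∀ᶠ t in 𝓝[<] T, N < ∫ x, v t x ^ 2 := by
    intro N
    have h1 : Tendsto (fun t => (T - t) ^ (-(2 * ν))) (𝓝[<] T) atTop :=
      (tendsto_rpow_neg_nhdsGT_zero (show -(2 * ν) < 0 by linarith)).comp tendsto_sub_nhdsGT
    have hmem : ∀ᶠ t in 𝓝[<] T, t ∈ Ioo t₁ T := ev_iff.2 ⟨t₁, S.ht₁T, fun t ht => ht⟩
    filter_upwards [(h1.const_mul_atTop hc₀).eventually_gt_atTop N, hmem] with t h2 h3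
    exact lt_of_lt_of_le h2 (S.low t h3)
  obtain ⟨x₀, hx₀⟩ := S.sol.point S.hT S.ht₁.le S.ht₁T S.hC₁ hα0 hG hinf
  obtain ⟨A₁, hA₁, hwin⟩ := S.sol.window S.hT S.ht₁.le S.ht₁T S.hC₁ hα0 hα3.le hG hx₀ S.hη₀
  have hmem : ∀ᶠ t in 𝓝[<] T, t ∈ Ioo t₁ T := ev_iff.2 ⟨t₁, S.ht₁T, fun t ht => ht⟩
  -- upper bound
  have hupper : ∀ᶠ t in 𝓝[<] T, |x₀ - y t| ≤ (A₀ + A₁) * (T - t) ^ α := by
    filter_upwards [hwin, hmem] with t h1 h2
    have hov := overlap (S.sol.int_u (S.mem h2)) (fun x => sq_nonneg _) (S.bub t h2) h1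
      (S.mass_lt h2)
    have h3 := S.pow_le h2 (show α ≤ ν by linarith)
    have h4 := mul_le_mul_of_nonneg_left h3 hA₀.le
    linarith
  have hylim : Tendsto y (𝓝[<] T) (𝓝 x₀) := by
    have h1 : Tendsto (fun t => (A₀ + A₁) * (T - t) ^ α) (𝓝[<] T) (𝓝 0) := by
      have h2 : Tendsto (fun t => T - t) (𝓝[<] T) (𝓝 0) :=
        tendsto_sub_nhdsGT.mono_right nhdsWithin_le_nhds
      have h3 := h2.rpow_const (p := α) (Or.inr hα0.le)
      rw [Real.zero_rpow hα0.ne'] at h3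
      simpa using h3.const_mul (A₀ + A₁)
    rw [tendsto_iff_norm_sub_tendsto_zero]
    refine squeeze_zero' (Eventually.of_forall fun t => norm_nonneg _) ?_ h1
    filter_upwards [hupper] with t ht
    rw [Real.norm_eq_abs, abs_sub_comm]
    exact ht
  obtain ⟨Λ, hΛ, hmono⟩ := S.mono3
  have hyle : ∀ s ∈ Ioo t₁ T, y s ≤ x₀ + Λ * (T - s) ^ (1 / 3 : ℝ) := by
    intro s hs
    have hev : ∀ᶠ t in 𝓝[<] T, y s - Λ * (T - s) ^ (1 / 3 : ℝ) ≤ y t := by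
      refine ev_iff.2 ⟨s, hs.2, fun t ht => hmono s hs t ⟨hs.1.trans ht.1, ht.2⟩ ht.1.le⟩
    have := ge_of_tendsto hylim hev
    linarith
  -- lower bound
  set K := μ * c₀ / (2 * α) with hK
  have hK0 : 0 < K := by positivity
  set ε₀ := K / (12 * M) with hε₀
  have hε₀0 : 0 < ε₀ := by positivity
  have hMε : 3 * (M * ε₀) = K / 4 := by rw [hε₀]; field_simp; ring
  have p1 := pow_small (T := T) (p := 1 / 3 - α) (e := K / (4 * (M * (2 * Λ + 2 * A₀))))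
    (by linarith) (by positivity)
  have p2 := pow_small (T := T) (p := 1 - 3 * α) (e := K / (4 * ((Cs + 1) * (1 + 1 / ε₀ ^ 2))))
    (by linarith) (by positivity)
  have hlower : ∀ᶠ t in 𝓝[<] T, ε₀ * (T - t) ^ α ≤ x₀ - y t := by
    filter_upwards [p1, p2, hmem] with t q1 q2 ht
    by_contra hcon
    push Not at hcon
    have hTt : 0 < T - t := sub_pos.2 ht.2
    have hTt1 : T - t ≤ 1 := by linarith [S.ht₁1, ht.1]
    set X := (T - t) ^ α with hX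
    set Z := (T - t) ^ (1 / 3 : ℝ) with hZ
    have hX0 : 0 < X := Real.rpow_pos_of_pos hTt _
    have hZ0 : 0 < Z := Real.rpow_pos_of_pos hTt _
    -- a later time
    obtain ⟨s, hs1, hs2⟩ := ((pow_small (T := T) (p := α) (e := X / 2) hα0 (by positivity)).and
      (ev_iff.2 ⟨t, ht.2, fun s hs => hs⟩ : ∀ᶠ s in 𝓝[<] T, s ∈ Ioo t T)).exists
    have hsm : s ∈ Ioo t₁ T := ⟨ht.1.trans hs2.1, hs2.2⟩
    have hτm : ∀ τ ∈ Icc t s, τ ∈ Ioo t₁ T := fun τ hτ =>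
      ⟨lt_of_lt_of_le ht.1 hτ.1, lt_of_le_of_lt hτ.2 hs2.2⟩
    have hZτ : ∀ τ ∈ Icc t s, (T - τ) ^ (1 / 3 : ℝ) ≤ Z := fun τ hτ =>
      Real.rpow_le_rpow (sub_pos.2 (hτm τ hτ).2).le (by linarith [hτ.1]) (by norm_num)
    have key := S.sol.growth S.hT hμ hCs S.hflux S.hM S.hm (s₁ := t) (s₂ := s)
      (ρ := A₀ * Z) (a := x₀ - ε₀ * X - Λ * Z) (b := x₀ + Λ * Z) (σ := ε₀ * X)
      (S.mem ht).1 hs2.1.le hs2.2 (by positivity) (by positivity)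
      (by have : 0 < ε₀ * X := by positivity
          have : 0 < Λ * Z := by positivity
          linarith)
      (y := y)
      (fun τ hτ => S.bub' ht (hτm τ hτ) hτ.1 (le_refl _))
      (fun τ hτ => by
        have h1 := hmono t ht τ (hτm τ hτ) hτ.1
        have h2 := hyle τ (hτm τ hτ)
        have h3 := mul_le_mul_of_nonneg_left (hZτ τ hτ) hΛ.le
        constructor
        · linarith
        · linarith)
      (g := fun τ => -(c₀ / α * (T - τ) ^ α))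
      (g' := fun τ => c₀ * (T - τ) ^ (-(2 * ν)))
      (fun τ hτ => by
        have h0 : 0 < T - τ := sub_pos.2 (hτm τ hτ).2
        have a1 : HasDerivAt (fun τ : ℝ => T - τ) (-1) τ := by
          simpa using (hasDerivAt_id τ).const_sub T
        have a2 : HasDerivAt (fun τ : ℝ => (T - τ) ^ α) (α * (T - τ) ^ (α - 1) * (-1)) τ :=
          (Real.hasDerivAt_rpow_const (Or.inl h0.ne')).comp τ a1
        refine ((a2.const_mul (c₀ / α)).neg).congr_deriv ?_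
        have e : α - 1 = -(2 * ν) := by rw [hα]; ring
        rw [e]
        field_simp)
      (fun τ hτ => S.low τ (hτm τ hτ))
    have k1 : μ * (-(c₀ / α * (T - s) ^ α) - -(c₀ / α * (T - t) ^ α)) ≥ K * X := by
      rw [← hX]
      have e1 : μ * (-(c₀ / α * (T - s) ^ α) - -(c₀ / α * X)) =
          μ * c₀ / α * (X - (T - s) ^ α) := by ring
      rw [e1, hK]
      have e2 : μ * c₀ / (2 * α) * X = μ * c₀ / α * (X / 2) := by
        field_simp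
      rw [e2]
      refine mul_le_mul_of_nonneg_left (by linarith) (by positivity)
    have k2 : M * (x₀ + Λ * Z - (x₀ - ε₀ * X - Λ * Z) + 2 * (A₀ * Z) + 2 * (ε₀ * X)) =
        3 * (M * ε₀) * X + M * (2 * Λ + 2 * A₀) * Z := by ring
    have k3 : M * (2 * Λ + 2 * A₀) * Z < K / 4 * X := by
      have e1 : Z = X * (T - t) ^ (1 / 3 - α) := by
        rw [hZ, hX, ← Real.rpow_add hTt]
        congr 1
        ring
      rw [lt_div_iff₀ (by positivity)] at q1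
      rw [e1]
      have : (T - t) ^ (1 / 3 - α) * (4 * (M * (2 * Λ + 2 * A₀))) * X < K * X :=
        mul_lt_mul_of_pos_right q1 hX0
      linarith
    have k4 : Cs * (1 + 1 / (ε₀ * X) ^ 2) * (s - t) ≤ K / 4 * X := by
      have e0 : Cs * (1 + 1 / (ε₀ * X) ^ 2) * (s - t) ≤
          Cs * (1 + 1 / (ε₀ * X) ^ 2) * (T - t) :=
        mul_le_mul_of_nonneg_left (by linarith [hs2.2]) (by positivity)
      have e1 : T - t = X ^ 3 * (T - t) ^ (1 - 3 * α) := by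
        rw [hX, ← Real.rpow_natCast, ← Real.rpow_mul hTt.le, ← Real.rpow_add hTt]
        have : α * ((3 : ℕ) : ℝ) + (1 - 3 * α) = 1 := by push_cast; ring
        rw [this, Real.rpow_one]
      set w := (T - t) ^ (1 - 3 * α) with hw
      have hw0 : 0 < w := Real.rpow_pos_of_pos hTt _
      have hX1 : X ≤ 1 := Real.rpow_le_one hTt.le hTt1 hα0.le
      have e2 : Cs * (1 + 1 / (ε₀ * X) ^ 2) * (T - t) =
          Cs * (X ^ 2 + 1 / ε₀ ^ 2) * w * X := by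
        rw [e1]
        field_simp
      have e3 : Cs * (X ^ 2 + 1 / ε₀ ^ 2) * w * X ≤ (Cs + 1) * (1 + 1 / ε₀ ^ 2) * w * X := by
        have h1 : X ^ 2 ≤ 1 := pow_le_one₀ hX0.le hX1
        gcongr
        linarith
      rw [lt_div_iff₀ (by positivity)] at q2
      have e4 : w * (4 * ((Cs + 1) * (1 + 1 / ε₀ ^ 2))) * X ≤ K * X :=
        mul_le_mul_of_nonneg_right q2.le hX0.le
      linarith
    have k5 : 3 * (M * ε₀) * X = K / 4 * X := by rw [hMε]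
    have k6 : 0 < K * X := by positivity
    rw [k2] at key
    linarith
  refine ⟨x₀, ε₀, A₀ + A₁, hε₀0, ?_⟩
  filter_upwards [hlower, hupper] with t h1 h2
  exact ⟨h1, (abs_le.1 h2).2⟩

end

end Pool.Agent.Lib_helper19.KdV
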