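import Pool.Agent.Lib_helper19.KdV.Location

/-!
The location of the bubble for rates `ν ≥ 1/2`.
-/

namespace Pool.Agent.Lib_helper19.KdV

open MeasureTheory Set Filter Topology

lemma gI_deriv {T p t : ℝ} (ht : t ∈ Ioo 0 T) :
    HasDerivAt (fun t => ∫ s in (0 : ℝ)..t, (T - s) ^ p) ((T - t) ^ p) t := by
  have hc : ∀ x, x < T → ContinuousAt (fun s : ℝ => (T - s) ^ p) x := by
    intro x hx
    have h0 : T - x ≠ 0 := (sub_pos.2 hx).ne'
    exact (continuousAt_const.sub continuousAt_id).rpow_const (Or.inl h0)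
  have hon : ContinuousOn (fun s : ℝ => (T - s) ^ p) (Iio T) := fun x hx =>
    (hc x hx).continuousWithinAt
  refine intervalIntegral.integral_hasDerivAt_right ?_
    (hon.stronglyMeasurableAtFilter isOpen_Iio t ht.2) (hc t ht.2)
  refine ContinuousOn.intervalIntegrable ?_
  rw [uIcc_of_le ht.1.le]
  exact fun x hx => (hc x (lt_of_le_of_lt hx.2 ht.2)).continuousWithinAt

lemma gI_tendsto {T p : ℝ} (hT : 0 < T) (hp : p ≤ -1) :
    Tendsto (fun t => ∫ s in (0 : ℝ)..t, (T - s) ^ p) (𝓝[<] T) atTop := by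
  have hlog : Tendsto (fun t => -Real.log (T - t)) (𝓝[<] T) atTop := by
    have h1 : Tendsto (fun t => Real.log (T - t)) (𝓝[<] T) atBot :=
      Real.tendsto_log_nhdsGT_zero.comp tendsto_sub_nhdsGT
    exact tendsto_neg_atBot_atTop.comp h1
  set s := max (T / 2) (T - 1) with hs
  have hs0 : 0 < s := lt_of_lt_of_le (by linarith) (le_max_left _ _)
  have hsT : s < T := max_lt (by linarith) (by linarith)
  have hs1 : T - s ≤ 1 := by
    have := le_max_right (T / 2) (T - 1)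
    linarith
  refine tendsto_atTop_mono' _ ?_ (hlog.atTop_add (tendsto_const_nhds (x :=
    Real.log (T - s) + ∫ r in (0 : ℝ)..s, (T - r) ^ p)))
  refine ev_iff.2 ⟨s, hsT, fun t ht => ?_⟩
  have key := mvt_le (F := fun t => ∫ r in (0 : ℝ)..t, (T - r) ^ p)
    (g := fun t => -Real.log (T - t)) (F' := fun t => (T - t) ^ p) (g' := fun t => 1 / (T - t))
    ht.1.le
    (fun x hx => gI_deriv ⟨lt_of_lt_of_le hs0 hx.1, lt_of_le_of_lt hx.2 ht.2⟩)
    (fun x hx => by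
      have h0 : T - x ≠ 0 := (sub_pos.2 (lt_of_le_of_lt hx.2 ht.2)).ne'
      have a1 : HasDerivAt (fun τ : ℝ => T - τ) (-1) x := by
        simpa using (hasDerivAt_id x).const_sub T
      refine ((a1.log h0).neg).congr_deriv ?_
      ring)
    (fun x hx => by
      have h0 : 0 < T - x := sub_pos.2 (lt_of_le_of_lt hx.2 ht.2)
      rw [one_div, ← Real.rpow_neg_one]
      exact Real.rpow_le_rpow_of_exponent_ge h0 (by linarith [hx.1]) hp)
  linarith

section
variable {T : ℝ} {u v : ℝ → ℝ → ℝ}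

/-- variation of local masses, general form -/
lemma H1Sol.variation' (h : H1Sol T u v) (hT : 0 < T) {C₁ : ℝ} {g g' : ℝ → ℝ}
    {ψ ψ1 ψ2 ψ3 : ℝ → ℝ} {K b1 b3 : ℝ} (hψ : Wt ψ ψ1 ψ2 ψ3 K)
    (h1 : ∀ x, |ψ1 x| ≤ b1) (h3 : ∀ x, |ψ3 x| ≤ b3) {s t : ℝ} (hs : 0 < s) (hst : s ≤ t)
    (ht : t < T) (hg : ∀ τ ∈ Icc s t, HasDerivAt g (g' τ) τ)
    (hG : ∀ τ ∈ Icc s t, ∫ x, v τ x ^ 2 ≤ C₁ * g' τ) :
    |(∫ x, ψ x * u t x ^ 2) - ∫ x, ψ x * u s x ^ 2| ≤
      b1 * (8 * (C₁ * (g t - g s)) + 10 * |energy (u (T / 2)) (v (T / 2))| * (t - s)) +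
        b3 * (∫ x, u (T / 2) x ^ 2) * (t - s) := by
  set E := energy (u (T / 2)) (v (T / 2)) with hE
  set M := ∫ x, u (T / 2) x ^ 2 with hM
  have hb1 : 0 ≤ b1 := (abs_nonneg _).trans (h1 0)
  have hmem0 : ∀ x ∈ Icc s t, x ∈ Ioo 0 T := fun x hx =>
    ⟨lt_of_lt_of_le hs hx.1, lt_of_le_of_lt hx.2 ht⟩
  have key := mvt_abs (F := fun τ => ∫ x, ψ x * u τ x ^ 2)
    (g := fun τ => b1 * (8 * (C₁ * g τ) + 10 * |E| * τ) + b3 * M * τ)
    (F' := fun τ => massFlux ψ1 ψ3 (u τ) (v τ))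
    (g' := fun τ => b1 * (8 * (C₁ * g' τ) + 10 * |E|) + b3 * M) hst
    (fun x hx => h.mass_deriv hψ (hmem0 x hx))
    (fun x hx => by
      have a3 := ((((hg x hx).const_mul C₁).const_mul 8).add
        ((hasDerivAt_id x).const_mul (10 * |E|))).const_mul b1
      refine (a3.add ((hasDerivAt_id x).const_mul (b3 * M))).congr_deriv ?_
      ring)
    (fun x hx => by
      refine (h.flux_le hT (hmem0 x hx) h1 h3).trans ?_
      have := hG x hx
      rw [← hE, ← hM]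
      refine add_le_add (mul_le_mul_of_nonneg_left ?_ hb1) (le_refl _)
      linarith)
  refine key.trans (le_of_eq ?_)
  ring

/-- small tails -/
lemma tail_exists {f : ℝ → ℝ} (hf : Integrable f) (hf0 : ∀ x, 0 ≤ f x) {ε : ℝ} (hε : 0 < ε) :
    ∃ R > 0, ∫ x in {x : ℝ | R < |x|}, f x ≤ ε := by
  have a1 := tail_small hf
  obtain ⟨n, hn⟩ := (a1.eventually_const_lt (show (∫ x, f x) - ε < ∫ x, f x by linarith)).exists
  have hr : (0 : ℝ) < (n : ℝ) + 1 := by positivity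
  refine ⟨2 * ((n : ℝ) + 1), by positivity, ?_⟩
  have b := le_win hf hf0 0 hr
  rw [outside_eq hf]
  linarith

end

section
variable {T ν M d η₀ m μ Cs A₀ c₀ C₁ t₁ : ℝ} {u v : ℝ → ℝ → ℝ} {y : ℝ → ℝ}

/-- the position for `ν ≥ 1/2` -/
lemma Loc.infinite (S : Loc T ν M d η₀ m μ Cs A₀ c₀ C₁ t₁ u v y) (hν2 : 1 / 2 ≤ ν) :
    ∃ c A : ℝ, 0 < c ∧ ∀ᶠ t in 𝓝[<] T,
      c * (∫ s in (0 : ℝ)..t, (T - s) ^ (-(2 * ν))) ≤ y t ∧
      y t ≤ A * ∫ s in (0 : ℝ)..t, (T - s) ^ (-(2 * ν)) := by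
  have hν := S.hν
  have hMpos := S.hMpos
  have hA₀ := S.hA₀
  have hc₀ := S.hc₀
  have hμ := S.hμ
  have hCs := S.hCs
  have hC₁ := S.hC₁
  have hT := S.hT
  have hQ := massQ_pos
  have hKC := KC_nonneg
  obtain ⟨Λ, hΛ, hmono⟩ := S.mono3
  set g : ℝ → ℝ := fun t => ∫ s in (0 : ℝ)..t, (T - s) ^ (-(2 * ν)) with hg
  have hglim : Tendsto g (𝓝[<] T) atTop := gI_tendsto hT (by linarith)
  have hgd : ∀ t ∈ Ioo 0 T, HasDerivAt g ((T - t) ^ (-(2 * ν))) t := fun t ht => gI_deriv ht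
  set t₃ := (t₁ + T) / 2 with ht₃
  have h3m : t₃ ∈ Ioo t₁ T := ⟨by rw [ht₃]; linarith [S.ht₁T], by rw [ht₃]; linarith [S.ht₁T]⟩
  have h30 : t₃ ∈ Ioo 0 T := S.mem h3m
  have hg3 : 0 ≤ g t₃ := by
    simp only [hg]
    refine intervalIntegral.integral_nonneg h30.1.le fun s hs => ?_
    exact Real.rpow_nonneg (by linarith [hs.2, h30.2]) _
  have hx13 : ∀ t ∈ Ioo t₁ T, (T - t) ^ (1 / 3 : ℝ) ≤ 1 := fun t ht =>
    Real.rpow_le_one (sub_pos.2 ht.2).le (by linarith [S.ht₁1, ht.1]) (by norm_num)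
  have hmem : ∀ᶠ t in 𝓝[<] T, t ∈ Ioo t₃ T := ev_iff.2 ⟨t₃, h3m.2, fun t ht => ht⟩
  -- lower bound
  set K₁ := (μ * (c₀ * g t₃) + 2 * Cs * T) / M + (2 * Λ + 2 * A₀ + 2) - y t₃ with hK₁
  have hlow : ∀ t ∈ Ioo t₃ T, μ * c₀ / M * g t - K₁ ≤ y t := by
    intro t ht
    have htm : t ∈ Ioo t₁ T := ⟨h3m.1.trans ht.1, ht.2⟩
    have hτm : ∀ τ ∈ Icc t₃ t, τ ∈ Ioo t₁ T := fun τ hτ =>
      ⟨lt_of_lt_of_le h3m.1 hτ.1, lt_of_le_of_lt hτ.2 ht.2⟩
    have m1 : ∀ τ ∈ Icc t₃ t, y t₃ - Λ ≤ y τ := fun τ hτ => by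
      have h1 := hmono t₃ h3m τ (hτm τ hτ) hτ.1
      have h2 := mul_le_mul_of_nonneg_left (hx13 t₃ h3m) hΛ.le
      linarith
    have m2 : ∀ τ ∈ Icc t₃ t, y τ ≤ y t + Λ := fun τ hτ => by
      have h1 := hmono τ (hτm τ hτ) t htm hτ.2
      have h2 := mul_le_mul_of_nonneg_left (hx13 τ (hτm τ hτ)) hΛ.le
      linarith
    have m3 := m1 t ⟨ht.1.le, le_refl _⟩
    have key := S.sol.growth S.hT hμ hCs S.hflux S.hM S.hm (s₁ := t₃) (s₂ := t)
      (ρ := A₀) (a := y t₃ - Λ) (b := y t + Λ) (σ := 1)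
      h30.1 ht.1.le ht.2 hA₀ one_pos (by linarith) (y := y)
      (fun τ hτ => S.bub' h3m (hτm τ hτ) hτ.1 (by
        have := mul_le_mul_of_nonneg_left (hx13 t₃ h3m) hA₀.le
        linarith))
      (fun τ hτ => ⟨m1 τ hτ, m2 τ hτ⟩)
      (g := fun τ => c₀ * g τ) (g' := fun τ => c₀ * (T - τ) ^ (-(2 * ν)))
      (fun τ hτ => (hgd τ (S.mem (hτm τ hτ))).const_mul c₀)
      (fun τ hτ => S.low τ (hτm τ hτ))
    have k1 : Cs * (1 + 1 / (1 : ℝ) ^ 2) * (t - t₃) ≤ 2 * Cs * T := by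
      have : Cs * (t - t₃) ≤ Cs * T :=
        mul_le_mul_of_nonneg_left (by linarith [h30.1, ht.2]) hCs
      norm_num
      linarith
    have k2 : μ * c₀ * g t ≤ M * (y t - y t₃ + (2 * Λ + 2 * A₀ + 2)) +
        (μ * (c₀ * g t₃) + 2 * Cs * T) := by
      linarith
    have k3 : μ * c₀ / M * g t ≤ (y t - y t₃ + (2 * Λ + 2 * A₀ + 2)) +
        (μ * (c₀ * g t₃) + 2 * Cs * T) / M := by
      rw [div_mul_eq_mul_div, div_le_iff₀ hMpos]
      have : ((y t - y t₃ + (2 * Λ + 2 * A₀ + 2)) + (μ * (c₀ * g t₃) + 2 * Cs * T) / M) * M =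
          M * (y t - y t₃ + (2 * Λ + 2 * A₀ + 2)) + (μ * (c₀ * g t₃) + 2 * Cs * T) := by
        field_simp
      linarith
    rw [hK₁]
    linarith
  have hlower : ∀ᶠ t in 𝓝[<] T, μ * c₀ / (2 * M) * g t ≤ y t := by
    filter_upwards [hmem, hglim.eventually_ge_atTop (K₁ / (μ * c₀ / (2 * M)))] with t h1 h2
    have h3 := hlow t h1
    rw [div_le_iff₀ (by positivity)] at h2
    have e : μ * c₀ / M * g t = μ * c₀ / (2 * M) * g t + g t * (μ * c₀ / (2 * M)) := by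
      field_simp
      ring
    linarith
  -- upper bound
  obtain ⟨R₀, hR₀, hR₀t⟩ := tail_exists (S.sol.int_u h30) (fun x => sq_nonneg _)
    (show 0 < massQ / 4 by positivity)
  set E := energy (u (T / 2)) (v (T / 2)) with hE
  set K₂ := 10 * |E| * T + M * T with hK₂
  have hK₂0 : 0 ≤ K₂ := by positivity
  set A := 1 + 8 * KC / massQ * (8 * C₁ + K₂) with hA
  set Y₁ := max (2 * R₀) (4 * (A₀ + 1)) with hY₁
  have hupper : ∀ᶠ t in 𝓝[<] T, y t ≤ A * g t := by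
    filter_upwards [hmem, hglim.eventually_ge_atTop (max 1 Y₁)] with t ht hgt
    have hg1 : 1 ≤ g t := (le_max_left _ _).trans hgt
    have hgY : Y₁ ≤ g t := (le_max_right _ _).trans hgt
    have hA1 : 0 ≤ 8 * KC / massQ * (8 * C₁ + K₂) := by positivity
    rcases le_or_gt (y t) Y₁ with hle | hlt
    · rw [hA]
      nlinarith
    · have hy1 : 2 * R₀ < y t := lt_of_le_of_lt (le_max_left _ _) hlt
      have hy2 : 4 * (A₀ + 1) < y t := lt_of_le_of_lt (le_max_right _ _) hlt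
      set r := y t / 4 with hr
      have hr1 : 1 ≤ r := by rw [hr]; linarith
      have hrA : A₀ ≤ r := by rw [hr]; linarith
      have hr0 : 0 < r := by linarith
      have htm : t ∈ Ioo t₁ T := ⟨h3m.1.trans ht.1, ht.2⟩
      have hwt := chi_wt'.scale (y t) hr0
      have hv := S.sol.variation' hT (C₁ := C₁) (g := g)
        (g' := fun τ => (T - τ) ^ (-(2 * ν))) hwt (b1 := KC / r) (b3 := KC / r ^ 3)
        (fun x => by
          rw [abs_div, abs_of_pos hr0]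
          gcongr
          exact chi_wt'.b1 _)
        (fun x => by
          rw [abs_div, abs_of_pos (show 0 < r ^ 3 by positivity)]
          gcongr
          exact chi_wt'.b3 _) h30.1 ht.1.le ht.2
        (fun τ hτ => hgd τ ⟨lt_of_lt_of_le h30.1 hτ.1, lt_of_le_of_lt hτ.2 ht.2⟩)
        (fun τ hτ => S.up τ ⟨lt_of_lt_of_le h3m.1 hτ.1, lt_of_le_of_lt hτ.2 ht.2⟩)
      rw [← hE, ← S.hM] at hv
      have f1 : massQ - η₀ ≤ ∫ x, chi ((x - y t) / r) * u t x ^ 2 := by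
        refine (S.bub' htm htm (le_refl t) (ρ := r) ?_).trans
          (win_le (S.sol.int_u (S.mem htm)) (fun x => sq_nonneg _) (y t) hr0)
        have := mul_le_mul_of_nonneg_left (hx13 t htm) hA₀.le
        linarith
      have f2 : ∫ x, chi ((x - y t) / r) * u t₃ x ^ 2 ≤ massQ / 4 := by
        refine (le_win (S.sol.int_u h30) (fun x => sq_nonneg _) (y t) hr0).trans ?_
        refine le_trans ?_ hR₀t
        refine setIntegral_mono_set (S.sol.int_u h30).integrableOn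
          (Eventually.of_forall fun x => sq_nonneg _) (HasSubset.Subset.eventuallyLE ?_)
        intro x hx
        simp only [mem_ofPred_eq] at hx ⊢
        have := (abs_le.1 hx).1
        have h5 : R₀ < x := by rw [hr] at this; linarith
        exact lt_of_lt_of_le h5 (le_abs_self x)
      have f3 := (abs_le.1 hv).2
      have hη := S.hη₀Q
      have f4 : massQ / 2 ≤ KC / r * (8 * (C₁ * (g t - g t₃)) + 10 * |E| * (t - t₃)) +
          KC / r ^ 3 * M * (t - t₃) := by linarith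
      have f5 : KC / r * (8 * (C₁ * (g t - g t₃)) + 10 * |E| * (t - t₃)) ≤
          KC / r * (8 * (C₁ * g t) + 10 * |E| * T) := by
        refine mul_le_mul_of_nonneg_left ?_ (by positivity)
        have h1 : C₁ * (g t - g t₃) ≤ C₁ * g t := mul_le_mul_of_nonneg_left (by linarith) hC₁
        have h2 : 10 * |E| * (t - t₃) ≤ 10 * |E| * T :=
          mul_le_mul_of_nonneg_left (by linarith [h30.1, ht.2]) (by positivity)
        linarith
      have f6 : KC / r ^ 3 * M * (t - t₃) ≤ KC / r * (M * T) := by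
        have h1 : KC / r ^ 3 ≤ KC / r :=
          div_le_div_of_nonneg_left hKC hr0 (le_self_pow₀ hr1 (by norm_num))
        have h2 : M * (t - t₃) ≤ M * T :=
          mul_le_mul_of_nonneg_left (by linarith [h30.1, ht.2]) hMpos.le
        have h3 : 0 ≤ M * (t - t₃) := mul_nonneg hMpos.le (by linarith [ht.1])
        calc KC / r ^ 3 * M * (t - t₃) = KC / r ^ 3 * (M * (t - t₃)) := by ring
          _ ≤ KC / r * (M * T) := mul_le_mul h1 h2 h3 (by positivity)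
      have f7 : massQ / 2 ≤ KC / r * (8 * (C₁ * g t) + K₂) := by
        rw [hK₂]
        linarith
      have f8 : massQ / 2 * r ≤ KC * (8 * (C₁ * g t) + K₂) := by
        have e : KC / r * (8 * (C₁ * g t) + K₂) = KC * (8 * (C₁ * g t) + K₂) / r := by ring
        rw [e, le_div_iff₀ hr0] at f7
        exact f7
      have f9 : KC * (8 * (C₁ * g t) + K₂) ≤ KC * ((8 * C₁ + K₂) * g t) := by
        refine mul_le_mul_of_nonneg_left ?_ hKC
        nlinarith
      have f10 : y t ≤ 8 * KC / massQ * (8 * C₁ + K₂) * g t := by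
        have e : 8 * KC / massQ * (8 * C₁ + K₂) * g t =
            8 * (KC * ((8 * C₁ + K₂) * g t)) / massQ := by ring
        rw [e, le_div_iff₀ hQ]
        rw [hr] at f8
        linarith
      rw [hA]
      linarith
  refine ⟨μ * c₀ / (2 * M), A, by positivity, ?_⟩
  filter_upwards [hlower, hupper] with t h1 h2
  exact ⟨h1, h2⟩

end

end Pool.Agent.Lib_helper19.KdV
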