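import Pool.Agent.Lib_helper19.KdV.Limit

/-!
The mass of the ground state is `√3 π / 2`; cut-off functions; mean value inequalities.
-/

namespace Pool.Agent.Lib_helper19.KdV

open MeasureTheory Set Filter Topology

lemma Q_sq (x : ℝ) : Q x ^ 2 = Real.sqrt 3 / Real.cosh (2 * x) := by
  have hc : 0 < Real.cosh (2 * x) := Real.cosh_pos _
  have h1 : (0 : ℝ) ≤ 3 / Real.cosh (2 * x) ^ 2 := by positivity
  rw [Q, ← Real.rpow_natCast, ← Real.rpow_mul h1]
  norm_num
  rw [← Real.sqrt_eq_rpow, Real.sqrt_div (by norm_num), Real.sqrt_sq hc.le]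

lemma cosh_ge (x : ℝ) : (1 + x ^ 2) / 2 ≤ Real.cosh (2 * x) := by
  rw [← Real.cosh_abs]
  have h1 := Real.quadratic_le_exp_of_nonneg (abs_nonneg (2 * x))
  have h2 : 0 < Real.exp (-|2 * x|) := Real.exp_pos _
  rw [Real.cosh_eq]
  have h3 : |2 * x| ^ 2 = 4 * x ^ 2 := by rw [sq_abs]; ring
  rw [h3] at h1
  nlinarith [abs_nonneg (2 * x), sq_nonneg x]

lemma massQ_eq : massQ = Real.sqrt 3 * Real.pi / 2 := by
  rw [massQ]
  have e : (fun x => Q x ^ 2) = fun x => Real.sqrt 3 / Real.cosh (2 * x) := by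
    ext x; exact Q_sq x
  rw [e]
  have hd : ∀ x : ℝ, HasDerivAt (fun x => Real.sqrt 3 * Real.arctan (Real.exp (2 * x)))
      (Real.sqrt 3 / Real.cosh (2 * x)) x := by
    intro x
    have h1 : HasDerivAt (fun x : ℝ => 2 * x) 2 x := by
      simpa using (hasDerivAt_id x).const_mul 2
    refine ((h1.exp.arctan).const_mul (Real.sqrt 3)).congr_deriv ?_
    rw [Real.cosh_eq]
    have h2 : Real.exp (-(2 * x)) = (Real.exp (2 * x))⁻¹ := Real.exp_neg _
    rw [h2]
    have h3 : 0 < Real.exp (2 * x) := Real.exp_pos _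
    field_simp
    ring
  have hi : Integrable (fun x : ℝ => Real.sqrt 3 / Real.cosh (2 * x)) := by
    refine integrable_of_decay (C := 2 * Real.sqrt 3)
      (Continuous.aestronglyMeasurable (by
        apply Continuous.div continuous_const (by fun_prop)
        intro x; exact (Real.cosh_pos _).ne')) fun x => ?_
    have h1 := cosh_ge x
    have h2 := Real.cosh_pos (2 * x)
    rw [abs_of_nonneg (by positivity), div_le_div_iff₀ h2 (by positivity)]
    have h3 : 0 ≤ Real.sqrt 3 := Real.sqrt_nonneg _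
    nlinarith
  have h1 : Tendsto (fun x : ℝ => Real.sqrt 3 * Real.arctan (Real.exp (2 * x))) atBot
      (𝓝 (Real.sqrt 3 * Real.arctan 0)) := by
    refine Tendsto.const_mul _ ?_
    refine (Real.continuous_arctan.tendsto 0).comp ?_
    refine Real.tendsto_exp_atBot.comp ?_
    exact tendsto_id.const_mul_atBot (by norm_num)
  have h2 : Tendsto (fun x : ℝ => Real.sqrt 3 * Real.arctan (Real.exp (2 * x))) atTop
      (𝓝 (Real.sqrt 3 * (Real.pi / 2))) := by
    refine Tendsto.const_mul _ ?_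
    refine (tendsto_nhds_of_tendsto_nhdsWithin Real.tendsto_arctan_atTop).comp ?_
    refine Real.tendsto_exp_atTop.comp ?_
    exact tendsto_id.const_mul_atTop (by norm_num)
  rw [integral_of_hasDerivAt_of_tendsto hd hi h1 h2, Real.arctan_zero]
  ring

lemma exists_kappa {m : ℝ} (hm0 : 0 < m) (hm : m < massQ) :
    ∃ κ, 0 < κ ∧ 4 < 3 * κ ^ 2 ∧ κ * m < Real.pi := by
  rw [massQ_eq] at hm
  have hs : 0 < Real.sqrt 3 := Real.sqrt_pos.2 (by norm_num)
  have hs2 : Real.sqrt 3 ^ 2 = 3 := Real.sq_sqrt (by norm_num)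
  have h1 : 2 / Real.sqrt 3 < Real.pi / m := by
    rw [div_lt_div_iff₀ hs hm0]
    nlinarith [Real.pi_pos]
  obtain ⟨κ, hκ1, hκ2⟩ := exists_between h1
  have hκ0 : 0 < κ := lt_trans (by positivity) hκ1
  refine ⟨κ, hκ0, ?_, ?_⟩
  · rw [div_lt_iff₀ hs] at hκ1
    have : (2 : ℝ) ^ 2 < (κ * Real.sqrt 3) ^ 2 := by
      apply pow_lt_pow_left₀ hκ1 (by norm_num) (by norm_num)
    rw [mul_pow, hs2] at this
    linarith
  · rwa [lt_div_iff₀ hm0] at hκ2

/-! ### Cut-offs -/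

/-- `1` on `[-1,1]`, `0` outside `[-2,2]` -/
noncomputable def bump : ContDiffBump (0 : ℝ) := ⟨1, 2, one_pos, one_lt_two⟩

noncomputable def chi (x : ℝ) : ℝ := bump x
noncomputable def chi1 (x : ℝ) : ℝ := deriv chi x
noncomputable def chi2 (x : ℝ) : ℝ := deriv chi1 x
noncomputable def chi3 (x : ℝ) : ℝ := deriv chi2 x

lemma chi_nonneg (x : ℝ) : 0 ≤ chi x := bump.nonneg

lemma chi_le_one (x : ℝ) : chi x ≤ 1 := bump.le_one

lemma chi_one {x : ℝ} (hx : |x| ≤ 1) : chi x = 1 :=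
  bump.one_of_mem_closedBall (by
    rw [mem_closedBall_zero_iff, Real.norm_eq_abs]; exact hx)

lemma chi_zero {x : ℝ} (hx : 2 ≤ |x|) : chi x = 0 :=
  bump.zero_of_le_dist (by
    rw [dist_zero_right, Real.norm_eq_abs]; exact hx)

lemma smooth_wt {ψ : ℝ → ℝ} (hψ : ContDiff ℝ ((⊤ : ℕ∞) : WithTop ℕ∞) ψ)
    (hc : HasCompactSupport ψ) :
    ∃ K, Wt ψ (deriv ψ) (deriv (deriv ψ)) (deriv (deriv (deriv ψ))) K := by
  obtain ⟨d0, s1⟩ := contDiff_infty_iff_deriv.1 hψ
  obtain ⟨d1, s2⟩ := contDiff_infty_iff_deriv.1 s1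
  obtain ⟨d2, s3⟩ := contDiff_infty_iff_deriv.1 s2
  obtain ⟨C0, h0⟩ := hc.exists_bound_of_continuous hψ.continuous
  obtain ⟨C1, h1⟩ := hc.deriv.exists_bound_of_continuous s1.continuous
  obtain ⟨C2, h2⟩ := hc.deriv.deriv.exists_bound_of_continuous s2.continuous
  obtain ⟨C3, h3⟩ := hc.deriv.deriv.deriv.exists_bound_of_continuous s3.continuous
  simp only [Real.norm_eq_abs] at h0 h1 h2 h3
  refine ⟨max (max C0 C1) (max C2 C3), ?_⟩
  exact
    { d0 := fun x => (d0 x).hasDerivAt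
      d1 := fun x => (d1 x).hasDerivAt
      d2 := fun x => (d2 x).hasDerivAt
      c3 := s3.continuous
      b0 := fun x => (h0 x).trans ((le_max_left _ _).trans (le_max_left _ _))
      b1 := fun x => (h1 x).trans ((le_max_right _ _).trans (le_max_left _ _))
      b2 := fun x => (h2 x).trans ((le_max_left _ _).trans (le_max_right _ _))
      b3 := fun x => (h3 x).trans ((le_max_right _ _).trans (le_max_right _ _)) }

lemma chi_wt : ∃ K, Wt chi chi1 chi2 chi3 K := by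
  have h1 : chi = (bump : ℝ → ℝ) := rfl
  have := smooth_wt (ψ := chi) (by rw [h1]; exact bump.contDiff)
    (by rw [h1]; exact bump.hasCompactSupport)
  exact this

/-- the constant of the cut-off -/
noncomputable def KC : ℝ := Classical.choose chi_wt

lemma chi_wt' : Wt chi chi1 chi2 chi3 KC := Classical.choose_spec chi_wt

lemma KC_nonneg : 0 ≤ KC := (abs_nonneg _).trans (chi_wt'.b0 0)

/-- translation and scaling -/
lemma Wt.scale {ψ ψ1 ψ2 ψ3 : ℝ → ℝ} {K : ℝ} (h : Wt ψ ψ1 ψ2 ψ3 K) (x₀ : ℝ) {r : ℝ}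
    (hr : 0 < r) :
    Wt (fun x => ψ ((x - x₀) / r)) (fun x => ψ1 ((x - x₀) / r) / r)
      (fun x => ψ2 ((x - x₀) / r) / r ^ 2) (fun x => ψ3 ((x - x₀) / r) / r ^ 3)
      (K * (1 + 1 / r + 1 / r ^ 2 + 1 / r ^ 3)) := by
  have hK : 0 ≤ K := (abs_nonneg _).trans (h.b0 0)
  have ha : ∀ x, HasDerivAt (fun x : ℝ => (x - x₀) / r) (1 / r) x := fun x => by
    simpa using ((hasDerivAt_id x).sub_const x₀).div_const r
  have p1 : 0 < 1 / r := by positivity
  have p2 : 0 < 1 / r ^ 2 := by positivity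
  have p3 : 0 < 1 / r ^ 3 := by positivity
  refine ⟨fun x => ?_, fun x => ?_, fun x => ?_, ?_, fun x => ?_, fun x => ?_, fun x => ?_,
    fun x => ?_⟩
  · refine ((h.d0 _).comp x (ha x)).congr_deriv ?_
    ring
  · refine (((h.d1 _).comp x (ha x)).div_const r).congr_deriv ?_
    field_simp
  · refine (((h.d2 _).comp x (ha x)).div_const (r ^ 2)).congr_deriv ?_
    field_simp
  · have := h.c3
    fun_prop
  · refine (h.b0 _).trans ?_
    nlinarith [mul_nonneg hK p1.le, mul_nonneg hK p2.le, mul_nonneg hK p3.le]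
  · rw [abs_div, abs_of_pos hr]
    calc |ψ1 ((x - x₀) / r)| / r ≤ K / r := by gcongr; exact h.b1 _
      _ = K * (1 / r) := by ring
      _ ≤ _ := by nlinarith [mul_nonneg hK p1.le, mul_nonneg hK p2.le, mul_nonneg hK p3.le]
  · rw [abs_div, abs_of_pos (show 0 < r ^ 2 by positivity)]
    calc |ψ2 ((x - x₀) / r)| / r ^ 2 ≤ K / r ^ 2 := by gcongr; exact h.b2 _
      _ = K * (1 / r ^ 2) := by ring
      _ ≤ _ := by nlinarith [mul_nonneg hK p1.le, mul_nonneg hK p2.le, mul_nonneg hK p3.le]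
  · rw [abs_div, abs_of_pos (show 0 < r ^ 3 by positivity)]
    calc |ψ3 ((x - x₀) / r)| / r ^ 3 ≤ K / r ^ 3 := by gcongr; exact h.b3 _
      _ = K * (1 / r ^ 3) := by ring
      _ ≤ _ := by nlinarith [mul_nonneg hK p1.le, mul_nonneg hK p2.le, mul_nonneg hK p3.le]

/-! ### Mean value inequalities -/

lemma mvt_le {F g F' g' : ℝ → ℝ} {s t : ℝ} (hst : s ≤ t)
    (hF : ∀ x ∈ Icc s t, HasDerivAt F (F' x) x) (hg : ∀ x ∈ Icc s t, HasDerivAt g (g' x) x)
    (h : ∀ x ∈ Icc s t, g' x ≤ F' x) : g t - g s ≤ F t - F s := by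
  have hm : MonotoneOn (fun x => F x - g x) (Icc s t) := by
    refine monotoneOn_of_deriv_nonneg (convex_Icc s t)
      (fun x hx => ((hF x hx).sub (hg x hx)).continuousAt.continuousWithinAt)
      (fun x hx => ?_) (fun x hx => ?_)
    · rw [interior_Icc] at hx
      have hx' : x ∈ Icc s t := ⟨hx.1.le, hx.2.le⟩
      exact ((hF x hx').sub (hg x hx')).differentiableAt.differentiableWithinAt
    · rw [interior_Icc] at hx
      have hx' : x ∈ Icc s t := ⟨hx.1.le, hx.2.le⟩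
      have := ((hF x hx').sub (hg x hx')).deriv
      have e : (fun x => F x - g x) = F - g := rfl
      rw [e, this]
      linarith [h x hx']
  have := hm ⟨le_refl _, hst⟩ ⟨hst, le_refl _⟩ hst
  simp only at this
  linarith

lemma mvt_abs {F g F' g' : ℝ → ℝ} {s t : ℝ} (hst : s ≤ t)
    (hF : ∀ x ∈ Icc s t, HasDerivAt F (F' x) x) (hg : ∀ x ∈ Icc s t, HasDerivAt g (g' x) x)
    (h : ∀ x ∈ Icc s t, |F' x| ≤ g' x) : |F t - F s| ≤ g t - g s := by
  rw [abs_le]
  constructor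
  · have := mvt_le hst hF (fun x hx => (hg x hx).neg)
      (fun x hx => by have := (abs_le.1 (h x hx)).1; linarith)
    simp only [Pi.neg_apply] at this
    linarith
  · have := mvt_le hst hg hF (fun x hx => (abs_le.1 (h x hx)).2)
    linarith

lemma flux_bound {u v ψ1 ψ3 : ℝ → ℝ} {b1 b3 K : ℝ} (mu : MemLp u 2 volume)
    (mv : MemLp v 2 volume) (hK : ∀ x, |u x| ≤ K) (h1 : ∀ x, |ψ1 x| ≤ b1)
    (h3 : ∀ x, |ψ3 x| ≤ b3) :
    |massFlux ψ1 ψ3 u v| ≤ b1 * (3 * (∫ x, v x ^ 2) + 5 / 3 * ∫ x, u x ^ 6) +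
      b3 * ∫ x, u x ^ 2 := by
  have i2 : Integrable (fun x => u x ^ 2) := mu.integrable_sq
  have iv : Integrable (fun x => v x ^ 2) := mv.integrable_sq
  have i6 : Integrable (fun x => u x ^ 6) := by
    have := integrable_pow_bdd mu hK (φ := fun _ => 1) aestronglyMeasurable_const (B := 1)
      (by simp) 4
    simpa using this
  have gen : ∀ {φ g : ℝ → ℝ} {b : ℝ}, Integrable g → (∀ x, 0 ≤ g x) → (∀ x, |φ x| ≤ b) →
      |∫ x, φ x * g x| ≤ b * ∫ x, g x := by
    intro φ g b hg hg0 hφ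
    rw [← integral_const_mul, ← Real.norm_eq_abs]
    refine norm_integral_le_of_norm_le (hg.const_mul b) ?_
    filter_upwards with x
    rw [Real.norm_eq_abs, abs_mul, abs_of_nonneg (hg0 x)]
    exact mul_le_mul_of_nonneg_right (hφ x) (hg0 x)
  have a1 := gen iv (fun x => sq_nonneg _) h1
  have a2 := gen i6 (fun x => by positivity) h1
  have a3 := gen i2 (fun x => sq_nonneg _) h3
  rw [massFlux, abs_le]
  rw [abs_le] at a1 a2 a3
  constructor
  · linarith [a1.1, a1.2, a2.1, a2.2, a3.1, a3.2]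
  · linarith [a1.1, a1.2, a2.1, a2.2, a3.1, a3.2]

end Pool.Agent.Lib_helper19.KdV
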