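import Pool.Agent.Lib_helper19.KdV.MassQ

/-!
Rates, Cauchy property of local masses, tightness, concentration in moving windows.
-/

namespace Pool.Agent.Lib_helper19.KdV

open MeasureTheory Set Filter Topology

lemma ev_iff {T : ℝ} {P : ℝ → Prop} :
    (∀ᶠ t in 𝓝[<] T, P t) ↔ ∃ l < T, ∀ t ∈ Ioo l T, P t := by
  constructor
  · intro h
    obtain ⟨l, hl, hs⟩ := mem_nhdsLT_iff_exists_Ioo_subset.1 h
    exact ⟨l, hl, fun t ht => hs ht⟩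
  · rintro ⟨l, hl, hs⟩
    exact mem_nhdsLT_iff_exists_Ioo_subset.2 ⟨l, hl, fun t ht => hs t ht⟩

lemma rate_upper {G : ℝ → ℝ} {T ν C : ℝ} (hC : 0 < C) (hG : ∀ t, 0 ≤ G t)
    (hlim : Tendsto (fun t => (T - t) ^ ν * Real.sqrt (G t)) (𝓝[<] T) (𝓝 C)) :
    ∀ᶠ t in 𝓝[<] T, G t ≤ 4 * C ^ 2 * (T - t) ^ (-(2 * ν)) := by
  filter_upwards [hlim.eventually_lt_const (show C < 2 * C by linarith),
    self_mem_nhdsWithin] with t ht htT
  have h0 : 0 < T - t := sub_pos.2 htT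
  have h1 : 0 < (T - t) ^ ν := Real.rpow_pos_of_pos h0 _
  have h2 : (T - t) ^ (-(2 * ν)) * ((T - t) ^ ν) ^ 2 = 1 := by
    rw [← Real.rpow_natCast ((T - t) ^ ν) 2, ← Real.rpow_mul h0.le, ← Real.rpow_add h0]
    norm_num
    ring_nf
    simp
  have h3 : ((T - t) ^ ν) ^ 2 * G t ≤ 4 * C ^ 2 := by
    have h4 : ((T - t) ^ ν * Real.sqrt (G t)) ^ 2 ≤ (2 * C) ^ 2 :=
      pow_le_pow_left₀ (by positivity) ht.le 2
    rw [mul_pow, Real.sq_sqrt (hG t)] at h4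
    linarith
  have h5 : 0 < (T - t) ^ (-(2 * ν)) := Real.rpow_pos_of_pos h0 _
  calc G t = (T - t) ^ (-(2 * ν)) * ((T - t) ^ ν) ^ 2 * G t := by rw [h2, one_mul]
    _ = (T - t) ^ (-(2 * ν)) * (((T - t) ^ ν) ^ 2 * G t) := by ring
    _ ≤ (T - t) ^ (-(2 * ν)) * (4 * C ^ 2) := by gcongr
    _ = _ := by ring

lemma rate_lower {G : ℝ → ℝ} {T ν C : ℝ} (hC : 0 < C) (hG : ∀ t, 0 ≤ G t)
    (hlim : Tendsto (fun t => (T - t) ^ ν * Real.sqrt (G t)) (𝓝[<] T) (𝓝 C)) :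
    ∀ᶠ t in 𝓝[<] T, C ^ 2 / 4 * (T - t) ^ (-(2 * ν)) ≤ G t := by
  filter_upwards [hlim.eventually_const_lt (show C / 2 < C by linarith),
    self_mem_nhdsWithin] with t ht htT
  have h0 : 0 < T - t := sub_pos.2 htT
  have h1 : 0 < (T - t) ^ ν := Real.rpow_pos_of_pos h0 _
  have h2 : (T - t) ^ (-(2 * ν)) * ((T - t) ^ ν) ^ 2 = 1 := by
    rw [← Real.rpow_natCast ((T - t) ^ ν) 2, ← Real.rpow_mul h0.le, ← Real.rpow_add h0]
    norm_num
    ring_nf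
    simp
  have h3 : C ^ 2 / 4 ≤ ((T - t) ^ ν) ^ 2 * G t := by
    have h4 : (C / 2) ^ 2 ≤ ((T - t) ^ ν * Real.sqrt (G t)) ^ 2 :=
      pow_le_pow_left₀ (by positivity) ht.le 2
    rw [mul_pow, Real.sq_sqrt (hG t)] at h4
    linarith
  have h5 : 0 < (T - t) ^ (-(2 * ν)) := Real.rpow_pos_of_pos h0 _
  calc C ^ 2 / 4 * (T - t) ^ (-(2 * ν)) = (T - t) ^ (-(2 * ν)) * (C ^ 2 / 4) := by ring
    _ ≤ (T - t) ^ (-(2 * ν)) * (((T - t) ^ ν) ^ 2 * G t) := by gcongr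
    _ = (T - t) ^ (-(2 * ν)) * ((T - t) ^ ν) ^ 2 * G t := by ring
    _ = G t := by rw [h2, one_mul]

lemma tendsto_sub_nhdsGT {T : ℝ} : Tendsto (fun t => T - t) (𝓝[<] T) (𝓝[>] 0) := by
  refine tendsto_nhdsWithin_iff.2 ⟨?_, ?_⟩
  · have h : Tendsto (fun t => T - t) (𝓝 T) (𝓝 (T - T)) := by
      exact tendsto_const_nhds.sub tendsto_id
    rw [sub_self] at h
    exact h.mono_left nhdsWithin_le_nhds
  · filter_upwards [self_mem_nhdsWithin] with t ht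
    exact sub_pos.2 (mem_Iio.1 ht)

lemma rate_infty {G : ℝ → ℝ} {T ν C : ℝ} (hν : 0 < ν) (hC : 0 < C) (hG : ∀ t, 0 ≤ G t)
    (hlim : Tendsto (fun t => (T - t) ^ ν * Real.sqrt (G t)) (𝓝[<] T) (𝓝 C)) (N : ℝ) :
    ∀ᶠ t in 𝓝[<] T, N < G t := by
  have h1 : Tendsto (fun t => (T - t) ^ (-(2 * ν))) (𝓝[<] T) atTop :=
    (tendsto_rpow_neg_nhdsGT_zero (show -(2 * ν) < 0 by linarith)).comp tendsto_sub_nhdsGT
  have h2 : Tendsto (fun t => C ^ 2 / 4 * (T - t) ^ (-(2 * ν))) (𝓝[<] T) atTop :=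
    h1.const_mul_atTop (by positivity)
  filter_upwards [h2.eventually_gt_atTop N, rate_lower hC hG hlim] with t h3 h4
  linarith

section
variable {T : ℝ} {u v : ℝ → ℝ → ℝ}

lemma H1Sol.int_u (h : H1Sol T u v) {t : ℝ} (ht : t ∈ Ioo 0 T) :
    Integrable (fun x => u t x ^ 2) := (h.memU t ⟨ht.1.le, ht.2⟩).integrable_sq

lemma H1Sol.int_v (h : H1Sol T u v) {t : ℝ} (ht : t ∈ Ioo 0 T) :
    Integrable (fun x => v t x ^ 2) := (h.memV t ⟨ht.1.le, ht.2⟩).integrable_sq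

lemma H1Sol.exists_bound (h : H1Sol T u v) {t : ℝ} (ht : t ∈ Ioo 0 T) :
    ∃ K, ∀ x, |u t x| ≤ K := by
  obtain ⟨K, H, -, -, hb⟩ := h.bounds ht.2
  exact ⟨K, (hb t ⟨ht.1.le, le_refl _⟩).1⟩

lemma H1Sol.int_u6 (h : H1Sol T u v) {t : ℝ} (ht : t ∈ Ioo 0 T) :
    Integrable (fun x => u t x ^ 6) := by
  obtain ⟨K, hK⟩ := h.exists_bound ht
  have := integrable_pow_bdd (h.memU t ⟨ht.1.le, ht.2⟩) hK (φ := fun _ => 1)
    aestronglyMeasurable_const (B := 1) (by simp) 4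
  simpa using this

lemma H1Sol.int_u4 (h : H1Sol T u v) {t : ℝ} (ht : t ∈ Ioo 0 T) :
    Integrable (fun x => u t x ^ 4) := by
  obtain ⟨K, hK⟩ := h.exists_bound ht
  have := integrable_pow_bdd (h.memU t ⟨ht.1.le, ht.2⟩) hK (φ := fun _ => 1)
    aestronglyMeasurable_const (B := 1) (by simp) 2
  simpa using this

lemma half_mem {T : ℝ} (hT : 0 < T) : T / 2 ∈ Ioo 0 T := ⟨by linarith, by linarith⟩

lemma H1Sol.mass_eq (h : H1Sol T u v) (hT : 0 < T) {t : ℝ} (ht : t ∈ Ioo 0 T) :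
    ∫ x, u t x ^ 2 = ∫ x, u (T / 2) x ^ 2 := h.mass_const ht (half_mem hT)

lemma H1Sol.six (h : H1Sol T u v) (hT : 0 < T) {t : ℝ} (ht : t ∈ Ioo 0 T) :
    ∫ x, u t x ^ 6 = 3 * (∫ x, v t x ^ 2) - 6 * energy (u (T / 2)) (v (T / 2)) := by
  have := h.energy_const ht (half_mem hT)
  rw [← this, energy]
  ring

lemma H1Sol.flux_le (h : H1Sol T u v) (hT : 0 < T) {t : ℝ} (ht : t ∈ Ioo 0 T)
    {ψ1 ψ3 : ℝ → ℝ} {b1 b3 : ℝ} (h1 : ∀ x, |ψ1 x| ≤ b1) (h3 : ∀ x, |ψ3 x| ≤ b3) :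
    |massFlux ψ1 ψ3 (u t) (v t)| ≤
      b1 * (8 * (∫ x, v t x ^ 2) + 10 * |energy (u (T / 2)) (v (T / 2))|) +
        b3 * ∫ x, u (T / 2) x ^ 2 := by
  obtain ⟨K, hK⟩ := h.exists_bound ht
  have hb1 : 0 ≤ b1 := (abs_nonneg _).trans (h1 0)
  have key := flux_bound (h.memU t ⟨ht.1.le, ht.2⟩) (h.memV t ⟨ht.1.le, ht.2⟩) hK h1 h3
  rw [h.six hT ht, h.mass_eq hT ht] at key
  refine key.trans ?_
  have := neg_abs_le (energy (u (T / 2)) (v (T / 2)))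
  refine add_le_add (mul_le_mul_of_nonneg_left ?_ hb1) (le_refl _)
  linarith

/-- the bound of the variation of local masses on `[s, T)` -/
noncomputable def vb (T A α E M b1 b3 s : ℝ) : ℝ :=
  b1 * (8 * A / α * (T - s) ^ α + 10 * |E| * (T - s)) + b3 * M * (T - s)

lemma H1Sol.variation (h : H1Sol T u v) (hT : 0 < T) {A α t₀ : ℝ} (ht₀ : 0 ≤ t₀)
    (hA : 0 ≤ A) (hα : 0 < α)
    (hG : ∀ t ∈ Ioo t₀ T, ∫ x, v t x ^ 2 ≤ A * (T - t) ^ (α - 1))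
    {ψ ψ1 ψ2 ψ3 : ℝ → ℝ} {K b1 b3 : ℝ} (hψ : Wt ψ ψ1 ψ2 ψ3 K)
    (h1 : ∀ x, |ψ1 x| ≤ b1) (h3 : ∀ x, |ψ3 x| ≤ b3) {s t : ℝ} (hs : s ∈ Ioo t₀ T)
    (ht : t ∈ Ioo t₀ T) (hst : s ≤ t) :
    |(∫ x, ψ x * u t x ^ 2) - ∫ x, ψ x * u s x ^ 2| ≤
      vb T A α (energy (u (T / 2)) (v (T / 2))) (∫ x, u (T / 2) x ^ 2) b1 b3 s := by
  set E := energy (u (T / 2)) (v (T / 2)) with hE
  set M := ∫ x, u (T / 2) x ^ 2 with hM
  have hM0 : 0 ≤ M := integral_nonneg fun x => sq_nonneg _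
  have hb1 : 0 ≤ b1 := (abs_nonneg _).trans (h1 0)
  have hb3 : 0 ≤ b3 := (abs_nonneg _).trans (h3 0)
  set g : ℝ → ℝ := fun τ => b1 * (-(8 * A / α * (T - τ) ^ α) + 10 * |E| * τ) + b3 * M * τ with hg
  set g' : ℝ → ℝ := fun τ => b1 * (8 * A * (T - τ) ^ (α - 1) + 10 * |E|) + b3 * M with hg'
  have hmem : ∀ x ∈ Icc s t, x ∈ Ioo t₀ T := fun x hx =>
    ⟨lt_of_lt_of_le hs.1 hx.1, lt_of_le_of_lt hx.2 ht.2⟩
  have hmem0 : ∀ x ∈ Icc s t, x ∈ Ioo 0 T := fun x hx =>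
    ⟨lt_of_le_of_lt ht₀ (hmem x hx).1, (hmem x hx).2⟩
  have key := mvt_abs (F := fun τ => ∫ x, ψ x * u τ x ^ 2) (g := g)
    (F' := fun τ => massFlux ψ1 ψ3 (u τ) (v τ)) (g' := g') hst
    (fun x hx => h.mass_deriv hψ (hmem0 x hx))
    (fun x hx => by
      have h0 : 0 < T - x := sub_pos.2 (hmem x hx).2
      have a1 : HasDerivAt (fun τ : ℝ => T - τ) (-1) x := by
        simpa using (hasDerivAt_id x).const_sub T
      have a2 : HasDerivAt (fun τ : ℝ => (T - τ) ^ α) (α * (T - x) ^ (α - 1) * (-1)) x :=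
        (Real.hasDerivAt_rpow_const (Or.inl h0.ne')).comp x a1
      have a3 := ((((a2.const_mul (8 * A / α)).neg).add
        ((hasDerivAt_id x).const_mul (10 * |E|))).const_mul b1).add
          ((hasDerivAt_id x).const_mul (b3 * M))
      refine a3.congr_deriv ?_
      simp only [hg']
      field_simp)
    (fun x hx => by
      refine (h.flux_le hT (hmem0 x hx) h1 h3).trans ?_
      have := hG x (hmem x hx)
      simp only [hg']
      rw [← hE, ← hM]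
      refine add_le_add (mul_le_mul_of_nonneg_left ?_ hb1) (le_refl _)
      linarith)
  refine key.trans ?_
  simp only [hg, vb]
  have p1 : 0 ≤ (T - t) ^ α := Real.rpow_nonneg (sub_pos.2 ht.2).le _
  have p2 : 0 ≤ 8 * A / α := by positivity
  have p3 : t - s ≤ T - s := by linarith [ht.2]
  have q1 : 0 ≤ b1 * (8 * A / α * (T - t) ^ α) := by positivity
  have q2 : b1 * (10 * |E|) * (t - s) ≤ b1 * (10 * |E|) * (T - s) :=
    mul_le_mul_of_nonneg_left p3 (by positivity)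
  have q3 : b3 * M * (t - s) ≤ b3 * M * (T - s) :=
    mul_le_mul_of_nonneg_left p3 (by positivity)
  nlinarith

lemma vb_tendsto {T A α E M b1 b3 : ℝ} (hα : 0 < α) :
    Tendsto (fun s => vb T A α E M b1 b3 s) (𝓝[<] T) (𝓝 0) := by
  have h1 : Tendsto (fun s => T - s) (𝓝[<] T) (𝓝 0) :=
    tendsto_sub_nhdsGT.mono_right nhdsWithin_le_nhds
  have h2 : Tendsto (fun s => (T - s) ^ α) (𝓝[<] T) (𝓝 0) := by
    have := h1.rpow_const (p := α) (Or.inr hα.le)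
    rwa [Real.zero_rpow hα.ne'] at this
  have := (((h2.const_mul (8 * A / α)).add (h1.const_mul (10 * |E|))).const_mul b1).add
    (h1.const_mul (b3 * M))
  simpa [vb] using this

lemma H1Sol.cauchy (h : H1Sol T u v) (hT : 0 < T) {A α t₀ : ℝ} (ht₀ : 0 ≤ t₀) (ht₀T : t₀ < T)
    (hA : 0 ≤ A) (hα : 0 < α)
    (hG : ∀ t ∈ Ioo t₀ T, ∫ x, v t x ^ 2 ≤ A * (T - t) ^ (α - 1))
    {ψ ψ1 ψ2 ψ3 : ℝ → ℝ} {K : ℝ} (hψ : Wt ψ ψ1 ψ2 ψ3 K) {η : ℝ} (hη : 0 < η) :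
    ∃ l, t₀ ≤ l ∧ l < T ∧ ∀ s ∈ Ioo l T, ∀ t ∈ Ioo l T,
      |(∫ x, ψ x * u t x ^ 2) - ∫ x, ψ x * u s x ^ 2| ≤ η := by
  have hlim := vb_tendsto (T := T) (A := A) (E := energy (u (T / 2)) (v (T / 2)))
    (M := ∫ x, u (T / 2) x ^ 2) (b1 := K) (b3 := K) hα
  obtain ⟨l, hl, hs⟩ := ev_iff.1 (hlim.eventually_lt_const hη)
  refine ⟨max l t₀, le_max_right _ _, max_lt hl ht₀T, ?_⟩
  have gen : ∀ s ∈ Ioo (max l t₀) T, ∀ t ∈ Ioo (max l t₀) T, s ≤ t →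
      |(∫ x, ψ x * u t x ^ 2) - ∫ x, ψ x * u s x ^ 2| ≤ η := by
    intro s hs' t ht' hst
    have a1 : s ∈ Ioo t₀ T := ⟨lt_of_le_of_lt (le_max_right _ _) hs'.1, hs'.2⟩
    have a2 : t ∈ Ioo t₀ T := ⟨lt_of_le_of_lt (le_max_right _ _) ht'.1, ht'.2⟩
    have a3 : s ∈ Ioo l T := ⟨lt_of_le_of_lt (le_max_left _ _) hs'.1, hs'.2⟩
    exact (h.variation hT ht₀ hA hα hG hψ hψ.b1 hψ.b3 a1 a2 hst).trans (hs s a3).le
  intro s hs' t ht'
  rcases le_total s t with hst | hst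
  · exact gen s hs' t ht' hst
  · rw [abs_sub_comm]
    exact gen t ht' s hs' hst

/-! ### windows -/

lemma measurableSet_win (x₀ r : ℝ) : MeasurableSet {x : ℝ | |x - x₀| ≤ r} :=
  measurableSet_le (by fun_prop) measurable_const

lemma win_le {f : ℝ → ℝ} (hf : Integrable f) (hf0 : ∀ x, 0 ≤ f x) (x₀ : ℝ) {r : ℝ}
    (hr : 0 < r) :
    ∫ x in {x : ℝ | |x - x₀| ≤ r}, f x ≤ ∫ x, chi ((x - x₀) / r) * f x := by
  rw [← integral_indicator (measurableSet_win x₀ r)]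
  have hc : Continuous (fun x => chi ((x - x₀) / r)) := (chi_wt'.scale x₀ hr).c0
  refine integral_mono (hf.indicator (measurableSet_win x₀ r))
    (hf.bdd_mul hc.aestronglyMeasurable (c := 1) (Eventually.of_forall fun x => ?_)) fun x => ?_
  · rw [Real.norm_eq_abs, abs_of_nonneg (chi_nonneg _)]
    exact chi_le_one _
  · by_cases hx : x ∈ {x : ℝ | |x - x₀| ≤ r}
    · rw [indicator_of_mem hx, chi_one, one_mul]
      rw [abs_div, abs_of_pos hr, div_le_one hr]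
      exact hx
    · rw [indicator_of_notMem hx]
      exact mul_nonneg (chi_nonneg _) (hf0 x)

lemma le_win {f : ℝ → ℝ} (hf : Integrable f) (hf0 : ∀ x, 0 ≤ f x) (x₀ : ℝ) {r : ℝ}
    (hr : 0 < r) :
    ∫ x, chi ((x - x₀) / r) * f x ≤ ∫ x in {x : ℝ | |x - x₀| ≤ 2 * r}, f x := by
  rw [← integral_indicator (measurableSet_win x₀ (2 * r))]
  have hc : Continuous (fun x => chi ((x - x₀) / r)) := (chi_wt'.scale x₀ hr).c0
  refine integral_mono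
    (hf.bdd_mul hc.aestronglyMeasurable (c := 1) (Eventually.of_forall fun x => ?_))
    (hf.indicator (measurableSet_win x₀ (2 * r))) fun x => ?_
  · rw [Real.norm_eq_abs, abs_of_nonneg (chi_nonneg _)]
    exact chi_le_one _
  · by_cases hx : x ∈ {x : ℝ | |x - x₀| ≤ 2 * r}
    · rw [indicator_of_mem hx]
      nlinarith [chi_le_one ((x - x₀) / r), hf0 x]
    · rw [indicator_of_notMem hx, chi_zero, zero_mul]
      rw [abs_div, abs_of_pos hr, le_div_iff₀ hr]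
      simp only [mem_ofPred_eq, not_le] at hx
      exact hx.le

lemma outside_eq {f : ℝ → ℝ} (hf : Integrable f) (R : ℝ) :
    ∫ x in {x : ℝ | R < |x|}, f x = (∫ x, f x) - ∫ x in {x : ℝ | |x - 0| ≤ R}, f x := by
  have e : {x : ℝ | R < |x|} = {x : ℝ | |x - 0| ≤ R}ᶜ := by
    ext x
    simp only [sub_zero, mem_ofPred_eq, mem_compl_iff, not_le]
  rw [e, ← integral_add_compl (measurableSet_win 0 R) hf]
  ring

lemma tail_small {f : ℝ → ℝ} (hf : Integrable f) :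
    Tendsto (fun n : ℕ => ∫ x, chi ((x - 0) / ((n : ℝ) + 1)) * f x) atTop
      (𝓝 (∫ x, f x)) := by
  refine tendsto_integral_of_dominated_convergence (fun x => |f x|) (fun n => ?_) hf.abs
    (fun n => ?_) ?_
  · have hc : Continuous (fun x => chi ((x - 0) / ((n : ℝ) + 1))) :=
      (chi_wt'.scale 0 (by positivity)).c0
    exact hc.aestronglyMeasurable.mul hf.1
  · filter_upwards with x
    rw [Real.norm_eq_abs, abs_mul, abs_of_nonneg (chi_nonneg _)]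
    nlinarith [chi_le_one ((x - 0) / ((n : ℝ) + 1)), abs_nonneg (f x)]
  · filter_upwards with x
    have h1 : ∀ᶠ n : ℕ in atTop, |x| ≤ (n : ℝ) + 1 := by
      filter_upwards [tendsto_natCast_atTop_atTop.eventually_ge_atTop |x|] with n hn
      linarith
    refine tendsto_const_nhds.congr' ?_
    filter_upwards [h1] with n hn
    rw [chi_one, one_mul]
    have h2 : (0 : ℝ) < (n : ℝ) + 1 := by positivity
    rw [sub_zero, abs_div, abs_of_pos h2, div_le_one h2]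
    exact hn

/-- no mass escapes to infinity if `ν < 1/2` -/
lemma H1Sol.tight (h : H1Sol T u v) (hT : 0 < T) {A α t₀ : ℝ} (ht₀ : 0 ≤ t₀) (ht₀T : t₀ < T)
    (hA : 0 ≤ A) (hα : 0 < α)
    (hG : ∀ t ∈ Ioo t₀ T, ∫ x, v t x ^ 2 ≤ A * (T - t) ^ (α - 1)) {ε : ℝ} (hε : 0 < ε) :
    ∃ R > 0, ∀ᶠ t in 𝓝[<] T, ∫ x in {x : ℝ | R < |x|}, u t x ^ 2 ≤ ε := by
  set t₁ := (t₀ + T) / 2 with ht₁
  have h₁ : t₁ ∈ Ioo t₀ T := ⟨by rw [ht₁]; linarith, by rw [ht₁]; linarith⟩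
  have h₁0 : t₁ ∈ Ioo 0 T := ⟨lt_of_le_of_lt ht₀ h₁.1, h₁.2⟩
  set E := energy (u (T / 2)) (v (T / 2)) with hE
  set M := ∫ x, u (T / 2) x ^ 2 with hM
  have hM0 : 0 ≤ M := integral_nonneg fun x => sq_nonneg _
  have hKC := KC_nonneg
  have a1 := tail_small (h.int_u h₁0)
  have a2 : ∀ᶠ n : ℕ in atTop, M - ε / 2 <
      ∫ x, chi ((x - 0) / ((n : ℝ) + 1)) * u t₁ x ^ 2 := by
    apply a1.eventually_const_lt
    rw [h.mass_eq hT h₁0]
    linarith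
  have hn1 : Tendsto (fun n : ℕ => 1 / ((n : ℝ) + 1)) atTop (𝓝 0) :=
    tendsto_one_div_add_atTop_nhds_zero_nat
  have a3 : Tendsto (fun n : ℕ => vb T A α E M (KC * (1 / ((n : ℝ) + 1)))
      (KC * (1 / ((n : ℝ) + 1)) ^ 3) t₁) atTop (𝓝 0) := by
    have b1 := (hn1.const_mul KC).mul_const
      (8 * A / α * (T - t₁) ^ α + 10 * |E| * (T - t₁))
    have b2 := (((hn1.pow 3).const_mul KC).mul_const M).mul_const (T - t₁)
    have := b1.add b2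
    simpa [vb] using this
  obtain ⟨n, hn⟩ := (a2.and (a3.eventually_lt_const (show 0 < ε / 2 by positivity))).exists
  obtain ⟨hn2, hn3⟩ := hn
  have hr : (0 : ℝ) < (n : ℝ) + 1 := by positivity
  have hwt := chi_wt'.scale 0 hr
  refine ⟨2 * ((n : ℝ) + 1), by positivity, ev_iff.2 ⟨t₁, h₁.2, fun t ht => ?_⟩⟩
  have ht' : t ∈ Ioo t₀ T := ⟨h₁.1.trans ht.1, ht.2⟩
  have ht0 : t ∈ Ioo 0 T := ⟨lt_of_le_of_lt ht₀ ht'.1, ht.2⟩
  have hv := h.variation hT ht₀ hA hα hG hwt (b1 := KC * (1 / ((n : ℝ) + 1)))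
    (b3 := KC * (1 / ((n : ℝ) + 1)) ^ 3)
    (fun x => by
      rw [abs_div, abs_of_pos hr, mul_one_div]
      gcongr
      exact chi_wt'.b1 _)
    (fun x => by
      rw [abs_div, abs_of_pos (show 0 < ((n : ℝ) + 1) ^ 3 by positivity), div_pow, one_pow,
        mul_one_div]
      gcongr
      exact chi_wt'.b3 _) h₁ ht' ht.1.le
  have hv2 := (abs_le.1 (hv.trans hn3.le)).1
  have b := le_win (h.int_u ht0) (fun x => sq_nonneg _) 0 hr
  rw [outside_eq (h.int_u ht0), h.mass_eq hT ht0]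
  linarith

end

end Pool.Agent.Lib_helper19.KdV
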