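import Pool.Agent.Lib_helper19.KdV.Defs
import Pool.Agent.Lib_helper19.KdV.Approx

/-!
Smooth solutions: derivatives, local mass identity, conservation of energy.
-/

namespace Pool.Agent.Lib_helper19.KdV

open MeasureTheory Set Filter Topology
open scoped ContDiff

variable {I : Set ℝ} {w : ℝ → ℝ → ℝ}

lemma SmoothSol.contDiffAt (h : SmoothSol I w) {t : ℝ} (ht : t ∈ I) (x : ℝ) :
    ContDiffAt ℝ ∞ (fun p : ℝ × ℝ => w p.1 p.2) (t, x) :=
  h.smooth.contDiffAt ((h.isOpen.prod isOpen_univ).mem_nhds ⟨ht, mem_univ _⟩)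

lemma SmoothSol.contDiff (h : SmoothSol I w) {t : ℝ} (ht : t ∈ I) : ContDiff ℝ ∞ (w t) := by
  rw [contDiff_iff_contDiffAt]
  intro x
  exact (h.contDiffAt ht x).comp x (contDiffAt_const.prodMk contDiffAt_id)

lemma SmoothSol.hasDerivAt_iter (h : SmoothSol I w) {t : ℝ} (ht : t ∈ I) (n : ℕ) (x : ℝ) :
    HasDerivAt (iteratedDeriv n (w t)) (iteratedDeriv (n + 1) (w t) x) x := by
  rw [iteratedDeriv_succ]
  have h1 : Differentiable ℝ (iteratedDeriv n (w t)) :=
    (h.contDiff ht).differentiable_iteratedDeriv n (by exact_mod_cast WithTop.coe_lt_top _)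
  exact (h1 x).hasDerivAt

lemma SmoothSol.continuous_iter (h : SmoothSol I w) {t : ℝ} (ht : t ∈ I) (n : ℕ) :
    Continuous (iteratedDeriv n (w t)) :=
  continuous_iff_continuousAt.2 fun x => (h.hasDerivAt_iter ht n x).continuousAt

lemma SmoothSol.bound (h : SmoothSol I w) (n : ℕ) :
    ∃ C : ℝ, 0 ≤ C ∧ ∀ t ∈ I, ∀ x, |iteratedDeriv n (w t) x| ≤ C / (1 + x ^ 2) := by
  obtain ⟨C0, h0⟩ := h.decay n 0
  obtain ⟨C2, h2⟩ := h.decay n 2
  refine ⟨max (C0 + C2) 0, le_max_right _ _, fun t ht x => ?_⟩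
  have a := h0 t ht x
  have b := h2 t ht x
  rw [le_div_iff₀ (by positivity)]
  refine le_trans ?_ (le_max_left _ _)
  rw [pow_zero, one_mul] at a
  rw [sq_abs] at b
  nlinarith

/-- the right side of the equation -/
lemma SmoothSol.hasDerivAt_time (h : SmoothSol I w) {t : ℝ} (ht : t ∈ I) (x : ℝ) :
    HasDerivAt (fun s => w s x)
      (-(iteratedDeriv 3 (w t) x + 5 * w t x ^ 4 * iteratedDeriv 1 (w t) x)) t := by
  have h1 : DifferentiableAt ℝ (fun s => w s x) t := by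
    have : ContDiffAt ℝ ∞ (fun s => w s x) t :=
      (h.contDiffAt ht x).comp t (contDiffAt_id.prodMk contDiffAt_const)
    exact this.differentiableAt (by simp)
  have h2 := h.eqn t ht x
  have h3 : HasDerivAt (fun y => iteratedDeriv 2 (w t) y + w t y ^ 5)
      (iteratedDeriv 3 (w t) x + 5 * w t x ^ 4 * iteratedDeriv 1 (w t) x) x := by
    have a := h.hasDerivAt_iter ht 2 x
    have b := h.hasDerivAt_iter ht 0 x
    rw [iteratedDeriv_zero] at b
    refine (a.add (b.pow 5)).congr_deriv ?_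
    push_cast
    ring
  rw [h3.deriv] at h2
  refine h1.hasDerivAt.congr_deriv ?_
  linarith

lemma mixed {f : ℝ × ℝ → ℝ} {t x : ℝ} (hf : ContDiffAt ℝ 2 f (t, x)) (e1 e2 : ℝ × ℝ) :
    HasFDerivAt (fun p => fderiv ℝ f p e2)
      ((ContinuousLinearMap.apply ℝ ℝ e2).comp (fderiv ℝ (fderiv ℝ f) (t, x))) (t, x) := by
  have h1 : ContDiffAt ℝ 1 (fderiv ℝ f) (t, x) := hf.fderiv_right (by norm_num)
  have h2 := (h1.differentiableAt (by norm_num)).hasFDerivAt
  exact (ContinuousLinearMap.apply ℝ ℝ e2).hasFDerivAt.comp (t, x) h2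

lemma SmoothSol.hasDerivAt_time1 (h : SmoothSol I w) {t : ℝ} (ht : t ∈ I) (x : ℝ) :
    HasDerivAt (fun s => iteratedDeriv 1 (w s) x)
      (-(iteratedDeriv 4 (w t) x + 20 * w t x ^ 3 * iteratedDeriv 1 (w t) x ^ 2 +
        5 * w t x ^ 4 * iteratedDeriv 2 (w t) x)) t := by
  set f : ℝ × ℝ → ℝ := fun p => w p.1 p.2 with hf
  have hd : ∀ s ∈ I, ∀ y, HasFDerivAt f (fderiv ℝ f (s, y)) (s, y) := fun s hs y =>
    ((h.contDiffAt hs y).differentiableAt (by simp)).hasFDerivAt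
  -- the two partial derivatives
  have px : ∀ s ∈ I, ∀ y, fderiv ℝ f (s, y) (0, 1) = iteratedDeriv 1 (w s) y := by
    intro s hs y
    have a : HasDerivAt (fun z : ℝ => (s, z)) ((0 : ℝ), (1 : ℝ)) y :=
      (hasDerivAt_const y s).prodMk (hasDerivAt_id y)
    have b := (hd s hs y).comp_hasDerivAt y a
    have c := h.hasDerivAt_iter hs 0 y
    rw [iteratedDeriv_zero] at c
    exact b.unique c
  have pt : ∀ s ∈ I, ∀ y, fderiv ℝ f (s, y) (1, 0) =
      -(iteratedDeriv 3 (w s) y + 5 * w s y ^ 4 * iteratedDeriv 1 (w s) y) := by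
    intro s hs y
    have a : HasDerivAt (fun z : ℝ => (z, y)) ((1 : ℝ), (0 : ℝ)) s :=
      (hasDerivAt_id s).prodMk (hasDerivAt_const s y)
    have b := (hd s hs y).comp_hasDerivAt s a
    exact b.unique (h.hasDerivAt_time hs y)
  have h2 : ContDiffAt ℝ 2 f (t, x) := (h.contDiffAt ht x).of_le
    (show ((2 : ℕ∞) : WithTop ℕ∞) ≤ ((⊤ : ℕ∞) : WithTop ℕ∞) from WithTop.coe_le_coe.2 le_top)
  have m1 := mixed h2 (1, 0) (0, 1)
  have m2 := mixed h2 (0, 1) (1, 0)
  have sym : IsSymmSndFDerivAt ℝ f (t, x) := h2.isSymmSndFDerivAt (by simp)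
  -- time derivative of the first
  have a1 : HasDerivAt (fun s : ℝ => fderiv ℝ f (s, x) (0, 1))
      (fderiv ℝ (fderiv ℝ f) (t, x) (1, 0) (0, 1)) t := by
    have a : HasDerivAt (fun z : ℝ => (z, x)) ((1 : ℝ), (0 : ℝ)) t :=
      (hasDerivAt_id t).prodMk (hasDerivAt_const t x)
    exact m1.comp_hasDerivAt t a
  have a2 : HasDerivAt (fun y : ℝ => fderiv ℝ f (t, y) (1, 0))
      (fderiv ℝ (fderiv ℝ f) (t, x) (0, 1) (1, 0)) x := by
    have a : HasDerivAt (fun z : ℝ => (t, z)) ((0 : ℝ), (1 : ℝ)) x :=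
      (hasDerivAt_const x t).prodMk (hasDerivAt_id x)
    exact m2.comp_hasDerivAt x a
  have a3 : HasDerivAt (fun y : ℝ => fderiv ℝ f (t, y) (1, 0))
      (-(iteratedDeriv 4 (w t) x + 20 * w t x ^ 3 * iteratedDeriv 1 (w t) x ^ 2 +
        5 * w t x ^ 4 * iteratedDeriv 2 (w t) x)) x := by
    have e : (fun y : ℝ => fderiv ℝ f (t, y) (1, 0)) = fun y =>
        -(iteratedDeriv 3 (w t) y + 5 * w t y ^ 4 * iteratedDeriv 1 (w t) y) := by
      ext y; exact pt t ht y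
    rw [e]
    have b0 := h.hasDerivAt_iter ht 0 x
    rw [iteratedDeriv_zero] at b0
    have b1 := h.hasDerivAt_iter ht 1 x
    have b3 := h.hasDerivAt_iter ht 3 x
    refine (b3.add (((b0.pow 4).const_mul 5).mul b1)).neg.congr_deriv ?_
    simp only [Pi.pow_apply]
    push_cast
    ring
  have a4 := a2.unique a3
  have a5 : fderiv ℝ (fderiv ℝ f) (t, x) (1, 0) (0, 1) =
      fderiv ℝ (fderiv ℝ f) (t, x) (0, 1) (1, 0) := sym (1, 0) (0, 1)
  rw [a5, a4] at a1
  refine a1.congr_of_eventuallyEq ?_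
  filter_upwards [h.isOpen.mem_nhds ht] with s hs
  exact (px s hs x).symm

end Pool.Agent.Lib_helper19.KdV
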